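import Pool.Agent.Lib.MP_7ed551_gt.Cy.G.Base
import Pool.Agent.Lib.MP_42bfd7_mp.ParInt

/-! Averages over small squares. -/

open scoped ContDiff ComplexConjugate Topology
open Set Real Filter Metric

noncomputable section

namespace Pool.Agent.Lib.MP_7ed551_gt.Cy.G

open Pool.Agent.Lib.MP_ccffa6_gt (Form1 dF pb px py JHol dF_apply dF_pb)

theorem Avg1_line {f f' : ℝ → ℂ} (hf : ∀ s ∈ Icc (-1 : ℝ) 1, HasDerivAt f (f' s) s)
    (hc : ContinuousOn f' (Icc (-1 : ℝ) 1)) {m : ℝ} (hm : ∀ s ∈ Icc (-1 : ℝ) 1, ‖f s‖ ≤ m)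
    (c a : ℝ) : ‖∫ s in (-1 : ℝ)..1, (c + a * s) • f' s‖ ≤ 4 * m * (|c| + |a|) := by
  have h1 : (-1 : ℝ) ≤ 1 := by norm_num
  have m1 := hm 1 ⟨h1, le_rfl⟩
  have m2 := hm (-1) ⟨le_rfl, h1⟩
  have m0 : 0 ≤ m := (norm_nonneg _).trans m1
  rw [intervalIntegral.integral_smul_deriv_eq_deriv_smul (u := fun s => c + a * s)
    (u' := fun _ => a) (v := f)
    (fun s _ => by simpa using ((hasDerivAt_id s).const_mul a).const_add c)
    (fun s hs => hf s (by rwa [uIcc_of_le h1] at hs)) intervalIntegrable_const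
    (hc.intervalIntegrable_of_Icc h1)]
  have k1 : ‖(c + a * 1) • f 1‖ ≤ (|c| + |a|) * m := by
    rw [norm_smul, mul_one]
    exact mul_le_mul (abs_add_le c a) m1 (norm_nonneg _) (by positivity)
  have k2 : ‖(c + a * -1) • f (-1)‖ ≤ (|c| + |a|) * m := by
    rw [norm_smul, mul_neg_one, ← sub_eq_add_neg]
    exact mul_le_mul (abs_sub c a) m2 (norm_nonneg _) (by positivity)
  have k3 : ‖∫ s in (-1 : ℝ)..1, a • f s‖ ≤ |a| * m * |1 - -1| :=
    intervalIntegral.norm_integral_le_of_norm_le_const fun s hs => by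
      rw [uIoc_of_le h1] at hs
      rw [norm_smul]
      exact mul_le_mul_of_nonneg_left (hm s ⟨hs.1.le, hs.2⟩) (abs_nonneg a)
  rw [show |(1 : ℝ) - -1| = 2 by norm_num] at k3
  refine (norm_sub_le _ _).trans ((add_le_add ((norm_sub_le _ _).trans (add_le_add k1 k2)) k3).trans ?_)
  nlinarith [mul_nonneg (abs_nonneg c) m0, mul_nonneg (abs_nonneg a) m0]

theorem Avg1_int {F : ℝ → ℝ → ℂ}
    (h : ContinuousOn F.uncurry (Icc (-1 : ℝ) 1 ×ˢ Icc (-1 : ℝ) 1)) :
    MeasureTheory.IntegrableOn F.uncurry (uIoc (-1 : ℝ) 1 ×ˢ uIoc (-1 : ℝ) 1) ∧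
      IntervalIntegrable (fun t => ∫ s in (-1 : ℝ)..1, F t s) MeasureTheory.volume (-1) 1 ∧
      ∀ t ∈ Icc (-1 : ℝ) 1, ContinuousOn (F t) (Icc (-1 : ℝ) 1) := by
  have h1 : (-1 : ℝ) ≤ 1 := by norm_num
  have k : MeasureTheory.IntegrableOn F.uncurry (Ioc (-1 : ℝ) 1 ×ˢ Ioc (-1 : ℝ) 1) :=
    (h.integrableOn_compact (isCompact_Icc.prod isCompact_Icc)).mono_set
      (prod_mono Ioc_subset_Icc_self Ioc_subset_Icc_self)
  refine ⟨by rwa [uIoc_of_le h1], ?_, fun t ht =>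
    h.comp (f := fun s => (t, s)) (by fun_prop) fun s hs => ⟨ht, hs⟩⟩
  rw [intervalIntegrable_iff_integrableOn_Ioc_of_le h1]
  simp only [intervalIntegral.integral_of_le h1]
  rw [MeasureTheory.IntegrableOn, MeasureTheory.Measure.volume_eq_prod,
    ← MeasureTheory.Measure.prod_restrict] at k
  exact k.integral_prod_left

/- `v + a y = (v.re + a s) + (v.im + a t) I`.  Integrate `(v.re + a s) ∂φ/∂s` by parts in `s`, and
`(v.im + a t) ∂φ/∂t` in `t` after `intervalIntegral_intervalIntegral_swap`. -/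
theorem parts {φ : ℂ → ℂ} {U : Set ℂ} (hU : IsOpen U) (hφ : ContDiffOn ℝ ∞ φ U)
    (hs : ∀ s ∈ Icc (-1 : ℝ) 1, ∀ t ∈ Icc (-1 : ℝ) 1, (s + t * Complex.I : ℂ) ∈ U) {m : ℝ}
    (hm : ∀ s ∈ Icc (-1 : ℝ) 1, ∀ t ∈ Icc (-1 : ℝ) 1, ‖φ (s + t * Complex.I)‖ ≤ m) (v : ℂ) (a : ℝ) :
    ‖∫ t in (-1 : ℝ)..1, ∫ s in (-1 : ℝ)..1,
      fderiv ℝ φ (s + t * Complex.I) (v + a * (s + t * Complex.I))‖ ≤ 16 * m * (‖v‖ + |a|) := by
  have h1 : (-1 : ℝ) ≤ 1 := by norm_num
  have hd : ∀ z ∈ U, HasFDerivAt φ (fderiv ℝ φ z) z := fun z hz =>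
    ((hφ.contDiffAt (hU.mem_nhds hz)).differentiableAt (by simp)).hasFDerivAt
  have hc : ContinuousOn (fun p : ℝ × ℝ => fderiv ℝ φ (p.2 + p.1 * Complex.I))
      (Icc (-1 : ℝ) 1 ×ˢ Icc (-1 : ℝ) 1) :=
    (hφ.continuousOn_fderiv_of_isOpen hU (by simp)).comp (by fun_prop) fun p hp =>
      hs _ hp.2 _ hp.1
  obtain ⟨-, a2, a3⟩ := Avg1_int
    (F := fun t s => (v.re + a * s) • fderiv ℝ φ (s + t * Complex.I) 1)
    (ContinuousOn.smul (f := fun p : ℝ × ℝ => v.re + a * p.2) (by fun_prop)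
      (hc.clm_apply continuousOn_const))
  obtain ⟨b1, b2, b3⟩ := Avg1_int
    (F := fun t s => (v.im + a * t) • fderiv ℝ φ (s + t * Complex.I) Complex.I)
    (ContinuousOn.smul (f := fun p : ℝ × ℝ => v.im + a * p.1) (by fun_prop)
      (hc.clm_apply continuousOn_const))
  have e : ∫ t in (-1 : ℝ)..1, ∫ s in (-1 : ℝ)..1,
      fderiv ℝ φ (s + t * Complex.I) (v + a * (s + t * Complex.I)) =
      (∫ t in (-1 : ℝ)..1, ∫ s in (-1 : ℝ)..1,
        (v.re + a * s) • fderiv ℝ φ (s + t * Complex.I) 1) +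
      ∫ t in (-1 : ℝ)..1, ∫ s in (-1 : ℝ)..1,
        (v.im + a * t) • fderiv ℝ φ (s + t * Complex.I) Complex.I := by
    rw [← intervalIntegral.integral_add a2 b2]
    refine intervalIntegral.integral_congr fun t ht => ?_
    rw [uIcc_of_le h1] at ht
    rw [← intervalIntegral.integral_add ((a3 t ht).intervalIntegrable_of_Icc h1)
      ((b3 t ht).intervalIntegrable_of_Icc h1)]
    refine intervalIntegral.integral_congr fun s _ => ?_
    have e : v + a * (s + t * Complex.I) =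
        (v.re + a * s) • (1 : ℂ) + (v.im + a * t) • Complex.I := Complex.ext (by simp) (by simp)
    simp only [e, map_add, map_smul]
  have k1 : ‖∫ t in (-1 : ℝ)..1, ∫ s in (-1 : ℝ)..1,
      (v.re + a * s) • fderiv ℝ φ (s + t * Complex.I) 1‖ ≤ 4 * m * (|v.re| + |a|) * |1 - -1| :=
    intervalIntegral.norm_integral_le_of_norm_le_const fun t ht => by
      rw [uIoc_of_le h1] at ht
      have ht' := Ioc_subset_Icc_self ht
      refine Avg1_line (f := fun s : ℝ => φ (s + t * Complex.I)) (fun s hs' => ?_) ?_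
        (fun s hs' => hm s hs' t ht') _ _
      · exact (hd _ (hs s hs' t ht')).comp_hasDerivAt s
          ((Complex.ofRealCLM.hasDerivAt (x := s)).add_const _)
      · exact (hc.comp (f := fun s => (t, s)) (by fun_prop) fun s hs' => ⟨ht', hs'⟩).clm_apply
          continuousOn_const
  have k2 : ‖∫ s in (-1 : ℝ)..1, ∫ t in (-1 : ℝ)..1,
      (v.im + a * t) • fderiv ℝ φ (s + t * Complex.I) Complex.I‖ ≤
      4 * m * (|v.im| + |a|) * |1 - -1| :=
    intervalIntegral.norm_integral_le_of_norm_le_const fun s hs' => by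
      rw [uIoc_of_le h1] at hs'
      have hs'' := Ioc_subset_Icc_self hs'
      refine Avg1_line (f := fun t : ℝ => φ (s + t * Complex.I)) (fun t ht => ?_) ?_
        (fun t ht => hm s hs'' t ht) _ _
      · refine (hd _ (hs s hs'' t ht)).comp_hasDerivAt t ?_
        simpa using ((Complex.ofRealCLM.hasDerivAt (x := t)).mul_const Complex.I).const_add (s : ℂ)
      · exact (hc.comp (f := fun t => (t, s)) (by fun_prop) fun t ht => ⟨ht, hs''⟩).clm_apply
          continuousOn_const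
  rw [← MeasureTheory.intervalIntegral_intervalIntegral_swap b1] at k2
  rw [show |(1 : ℝ) - -1| = 2 by norm_num] at k1 k2
  have m0 : 0 ≤ m := (norm_nonneg _).trans (hm 1 ⟨h1, le_rfl⟩ 1 ⟨h1, le_rfl⟩)
  rw [e]
  refine (norm_add_le _ _).trans ((add_le_add k1 k2).trans ?_)
  nlinarith [mul_le_mul_of_nonneg_left (Complex.abs_re_le_norm v) m0,
    mul_le_mul_of_nonneg_left (Complex.abs_im_le_norm v) m0]

end Pool.Agent.Lib.MP_7ed551_gt.Cy.G
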