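import Pool.Agent.Lib.MP_7ed551_gt.Cy.G.Avg0
import Pool.Agent.Lib.MP_7ed551_gt.Cy.G.Avg1

/-! Averages over small squares. -/

open scoped ContDiff ComplexConjugate Topology
open Set Real Filter Metric

noncomputable section

namespace Pool.Agent.Lib.MP_7ed551_gt.Cy.G

open Pool.Agent.Lib.MP_ccffa6_gt (Form1 dF pb px py JHol dF_apply dF_pb)

theorem Avg_int {G : ℝ × ℝ → ℂ} (hG : ContinuousOn G (Icc (-1 : ℝ) 1 ×ˢ Icc (-1 : ℝ) 1)) :
    IntervalIntegrable (fun t => ∫ s in (-1 : ℝ)..1, G (s, t)) MeasureTheory.volume (-1) 1 := by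
  have h : (-1 : ℝ) ≤ 1 := by norm_num
  have hp : Continuous fun s : ℝ => (projIcc (-1) 1 h s : ℝ) :=
    continuous_subtype_val.comp continuous_projIcc
  have hc : Continuous fun p : ℝ × ℝ => G (projIcc (-1) 1 h p.2, projIcc (-1) 1 h p.1) :=
    hG.comp_continuous ((hp.comp continuous_snd).prodMk (hp.comp continuous_fst))
      fun p => ⟨(projIcc _ _ h p.2).2, (projIcc _ _ h p.1).2⟩
  have h2 := intervalIntegral.continuous_parametric_intervalIntegral_of_continuous'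
    (μ := MeasureTheory.volume)
    (f := fun t s : ℝ => G (projIcc (-1) 1 h s, projIcc (-1) 1 h t)) hc (-1) 1
  refine ContinuousOn.intervalIntegrable_of_Icc h (h2.continuousOn.congr fun t ht => ?_)
  refine intervalIntegral.integral_congr fun s hs => ?_
  rw [uIcc_of_le h] at hs
  simp only [projIcc_of_mem h hs, projIcc_of_mem h ht]

theorem Avg_sub {G L : ℝ × ℝ → ℂ} (hG : ContinuousOn G (Icc (-1 : ℝ) 1 ×ˢ Icc (-1 : ℝ) 1))
    (hL : ContinuousOn L (Icc (-1 : ℝ) 1 ×ˢ Icc (-1 : ℝ) 1)) :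
    ∫ t in (-1 : ℝ)..1, ∫ s in (-1 : ℝ)..1, (G (s, t) - L (s, t)) =
      (∫ t in (-1 : ℝ)..1, ∫ s in (-1 : ℝ)..1, G (s, t)) -
        ∫ t in (-1 : ℝ)..1, ∫ s in (-1 : ℝ)..1, L (s, t) := by
  have h : (-1 : ℝ) ≤ 1 := by norm_num
  rw [← intervalIntegral.integral_sub (Avg_int hG) (Avg_int hL)]
  refine intervalIntegral.integral_congr fun t ht => ?_
  rw [uIcc_of_le h] at ht
  have h1 : ContinuousOn (fun s : ℝ => (s, t)) (Icc (-1 : ℝ) 1) := by fun_prop
  exact intervalIntegral.integral_sub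
    (ContinuousOn.intervalIntegrable_of_Icc h (hG.comp h1 fun s hs => ⟨hs, ht⟩))
    (ContinuousOn.intervalIntegrable_of_Icc h (hL.comp h1 fun s hs => ⟨hs, ht⟩))

/- `parts` for `φ y = h (x.1, x.2 + σ y) - c - l σ y`, whose derivative is
`σ • fderiv h _ (0, w) - l σ w`; `av_lin`. -/
theorem av_de {h : E → ℂ} (hs : ContDiffOn ℝ ∞ h (Box 5)) {x : E} (hx : x ∈ Box 4) {σ η : ℝ}
    (h0 : 0 < σ) (h1 : σ < 1 / 2) {c l : ℂ}
    (hl : ∀ y : ℂ, ‖y‖ ≤ 2 → ‖h (x.1, x.2 + σ * y) - c - l * σ * y‖ ≤ η * σ) (v : ℂ) (a : ℝ) :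
    ‖fderiv ℝ (av h) (x, σ) ((0, v), a) - l * v‖ ≤ 4 * η * (‖v‖ + |a|) := by
  have h11 : (-1 : ℝ) ≤ 1 := by norm_num
  have hA : ContDiff ℝ ∞ fun y : ℂ => ((x.1, x.2 + σ * y) : E) := by fun_prop
  have hU : IsOpen {y : ℂ | ((x.1, x.2 + σ * y) : E) ∈ Box 5} :=
    (isOpen_box 5).preimage hA.continuous
  have hm : ∀ s ∈ Icc (-1 : ℝ) 1, ∀ t : ℝ,
      ((x.1, x.2 + σ * (s + t * Complex.I)) : E) ∈ Box 5 := fun s hs t => by
    refine ⟨hx.1.trans (by norm_num), ?_⟩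
    have e : (x.2 + σ * (s + t * Complex.I)).re = x.2.re + σ * s := by simp
    have b1 := abs_lt.1 hx.2
    show |(x.2 + σ * (s + t * Complex.I)).re| < 5
    rw [e, abs_lt]
    constructor <;> nlinarith [hs.1, hs.2]
  have hφ : ContDiffOn ℝ ∞ (fun y : ℂ => h (x.1, x.2 + σ * y) - c - l * σ * y)
      {y : ℂ | ((x.1, x.2 + σ * y) : E) ∈ Box 5} :=
    ((hs.comp hA.contDiffOn fun y hy => hy).sub contDiffOn_const).sub (by fun_prop)
  have key := parts hU hφ (fun s hs t _ => hm s hs t) (m := η * σ) (fun s hs t ht => hl _ (by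
    refine (norm_add_le _ _).trans ?_
    simp only [Complex.norm_real, norm_mul, Complex.norm_I, mul_one, Real.norm_eq_abs]
    linarith [abs_le.2 ⟨hs.1, hs.2⟩, abs_le.2 ⟨ht.1, ht.2⟩])) v a
  have hd : ∀ y : ℂ, ((x.1, x.2 + σ * y) : E) ∈ Box 5 → ∀ w,
      fderiv ℝ (fun y : ℂ => h (x.1, x.2 + σ * y) - c - l * σ * y) y w =
        σ • (fderiv ℝ h (x.1, x.2 + σ * y) (0, w) - l * w) := fun y hy w => by
    have d1 : HasFDerivAt h (fderiv ℝ h (x.1, x.2 + σ * y)) (x.1, x.2 + σ * y) :=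
      ((hs.contDiffAt ((isOpen_box 5).mem_nhds hy)).differentiableAt (by simp)).hasFDerivAt
    have d2 := (hasFDerivAt_const (𝕜 := ℝ) x.1 y).prodMk
      (((hasFDerivAt_id (𝕜 := ℝ) y).const_mul (σ : ℂ)).const_add x.2)
    have d3 := ((d1.comp y d2).sub_const c).sub ((hasFDerivAt_id (𝕜 := ℝ) y).const_mul (l * σ))
    have d4 : ((0, σ * w) : E) = σ • ((0, w) : E) := by simp
    rw [show fderiv ℝ (fun y : ℂ => h (x.1, x.2 + σ * y) - c - l * σ * y) y = _ from d3.fderiv]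
    simp only [sub_apply, ContinuousLinearMap.comp_apply, ContinuousLinearMap.prod_apply,
      zero_apply, smul_apply, ContinuousLinearMap.id_apply, smul_eq_mul, d4, map_smul,
      Complex.real_smul]
    ring
  have hG : ContinuousOn (fun p : ℝ × ℝ => fderiv ℝ h (x.1, x.2 + σ * (p.1 + p.2 * Complex.I))
      (0, v + a * (p.1 + p.2 * Complex.I))) (Icc (-1 : ℝ) 1 ×ˢ Icc (-1 : ℝ) 1) :=
    ((hs.continuousOn_fderiv_of_isOpen (isOpen_box 5) (by simp)).comp (by fun_prop)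
      fun p hp => hm p.1 hp.1 p.2).clm_apply (by fun_prop)
  have e1 := Avg_sub hG (L := fun p => l * v + l * a * (p.1 + p.2 * Complex.I)) (by fun_prop)
  have e2 : ∫ t in (-1 : ℝ)..1, ∫ s in (-1 : ℝ)..1,
      fderiv ℝ (fun y : ℂ => h (x.1, x.2 + σ * y) - c - l * σ * y) (s + t * Complex.I)
        (v + a * (s + t * Complex.I)) = σ • ∫ t in (-1 : ℝ)..1, ∫ s in (-1 : ℝ)..1,
      (fderiv ℝ h (x.1, x.2 + σ * (s + t * Complex.I)) (0, v + a * (s + t * Complex.I)) -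
        (l * v + l * a * (s + t * Complex.I))) := by
    rw [← intervalIntegral.integral_smul]
    refine intervalIntegral.integral_congr fun t _ => ?_
    simp only [← intervalIntegral.integral_smul]
    refine intervalIntegral.integral_congr fun s hs => ?_
    rw [uIcc_of_le h11] at hs
    exact (hd _ (hm s hs t) _).trans (by rw [mul_add l, mul_assoc l])
  rw [e2, e1, norm_smul, Real.norm_of_nonneg h0.le] at key
  rw [av_fderiv hs (p := (x, σ)) ⟨hx, by constructor <;> linarith⟩, ← av_lin (l * v) (l * a),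
    ← smul_sub, norm_smul, Real.norm_of_nonneg (by norm_num)]
  refine le_of_mul_le_mul_left ?_ h0
  linarith

end Pool.Agent.Lib.MP_7ed551_gt.Cy.G
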