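import Pool.Agent.Lib.MP_7ed551_gt.Cy.G.Base
import Pool.Agent.Lib.MP_42bfd7_mp.ParInt

/-! Averages over small squares. -/

open scoped ContDiff ComplexConjugate Topology
open Set Real Filter Metric

noncomputable section

namespace Pool.Agent.Lib.MP_7ed551_gt.Cy.G

open Pool.Agent.Lib.MP_ccffa6_gt (Form1 dF pb px py JHol dF_apply dF_pb)

open Pool.Agent.Lib.MP_42bfd7_mp (contDiffOn_parInt hasFDerivAt_parInt)

theorem Avg0_mem {p : E × ℝ} (hp : p ∈ Box 4 ×ˢ Ioo (-(1 / 2) : ℝ) (1 / 2)) (t : ℝ) {s : ℝ}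
    (hs : s ∈ uIcc (-1 : ℝ) 1) : ((p.1.1, p.1.2 + p.2 * (s + t * Complex.I)) : E) ∈ Box 5 := by
  rw [uIcc_of_le (by norm_num)] at hs
  have e : (p.1.2 + p.2 * (s + t * Complex.I)).re = p.1.2.re + p.2 * s := by simp
  refine ⟨hp.1.1.trans (by norm_num), ?_⟩
  have h1 : |p.2 * s| ≤ 1 / 2 * 1 := by
    rw [abs_mul]
    exact mul_le_mul (abs_lt.2 hp.2).le (abs_le.2 hs) (abs_nonneg _) (by norm_num)
  have h2 := hp.1.2
  have h3 := abs_add_le p.1.2.re (p.2 * s)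
  show |(p.1.2 + p.2 * (s + t * Complex.I)).re| < 5
  rw [e]
  linarith

/-- The point of the square. -/
def Avg0_pt (q : ((E × ℝ) × ℝ) × ℝ) : E :=
  (q.1.1.1.1, q.1.1.1.2 + q.1.1.2 * (q.2 + q.1.2 * Complex.I))

theorem Avg0_sm : ContDiff ℝ ∞ Avg0_pt := by
  have c : ContDiff ℝ ∞ fun x : ℝ => (x : ℂ) := Complex.ofRealCLM.contDiff
  unfold Avg0_pt
  fun_prop

theorem Avg0_open : IsOpen (Box 4 ×ˢ Ioo (-(1 / 2) : ℝ) (1 / 2)) := (isOpen_box 4).prod isOpen_Ioo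

theorem Avg0_sub : ((Box 4 ×ˢ Ioo (-(1 / 2) : ℝ) (1 / 2)) ×ˢ (univ : Set ℝ)) ×ˢ uIcc (-1 : ℝ) 1 ⊆
    Avg0_pt ⁻¹' Box 5 := fun q hq => Avg0_mem hq.1.1 q.1.2 hq.2

theorem Avg0_comp {h : E → ℂ} (hs : ContDiffOn ℝ ∞ h (Box 5)) :
    ContDiffOn ℝ ∞ (h ∘ Avg0_pt) (Avg0_pt ⁻¹' Box 5) :=
  hs.comp Avg0_sm.contDiffOn fun _ hq => hq

theorem Avg0_in {h : E → ℂ} (hs : ContDiffOn ℝ ∞ h (Box 5)) :
    ContDiffOn ℝ ∞ (fun y => ∫ s in (-1 : ℝ)..1, (h ∘ Avg0_pt) (y, s))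
      ((Box 4 ×ˢ Ioo (-(1 / 2) : ℝ) (1 / 2)) ×ˢ (univ : Set ℝ)) :=
  contDiffOn_parInt ((isOpen_box 5).preimage Avg0_sm.continuous) (Avg0_open.prod isOpen_univ)
    Avg0_sub (Avg0_comp hs)

theorem Avg0_lin (a b : ℂ) : ∫ s in (-1 : ℝ)..1, (a + b * s) = 2 * a := by
  rw [intervalIntegral.integral_add (by simp)
    ((by fun_prop : Continuous fun s : ℝ => b * s).intervalIntegrable _ _),
    intervalIntegral.integral_const_mul, intervalIntegral.integral_ofReal, integral_id]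
  norm_num

theorem Avg0_lin' (a b : ℂ) (t : ℝ) :
    ∫ s in (-1 : ℝ)..1, (a + b * (s + t * Complex.I)) = 2 * a + 2 * b * Complex.I * t := by
  have e : ∀ s : ℝ, a + b * (s + t * Complex.I) = a + b * t * Complex.I + b * s := fun s => by ring
  simp only [e, Avg0_lin]
  ring

theorem Avg0_le {f : ℝ → ℝ → ℂ} {δ : ℝ} (h : ∀ t, ∀ s ∈ uIcc (-1 : ℝ) 1, ‖f t s‖ ≤ δ) :
    ‖(1 / 4 : ℝ) • ∫ t in (-1 : ℝ)..1, ∫ s in (-1 : ℝ)..1, f t s‖ ≤ δ := by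
  have h1 := intervalIntegral.norm_integral_le_of_norm_le_const (a := -1) (b := 1)
    (f := fun t => ∫ s in (-1 : ℝ)..1, f t s) fun t _ =>
      intervalIntegral.norm_integral_le_of_norm_le_const fun s hs => h t s (uIoc_subset_uIcc hs)
  rw [norm_smul]
  norm_num at h1 ⊢
  linarith

/- `contDiffOn_parInt` twice. -/
theorem av_sm {h : E → ℂ} (hs : ContDiffOn ℝ ∞ h (Box 5)) :
    ContDiffOn ℝ ∞ (av h) (Box 4 ×ˢ Ioo (-(1 / 2) : ℝ) (1 / 2)) := by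
  exact (contDiffOn_parInt (Avg0_open.prod isOpen_univ) Avg0_open
    (prod_mono_right (subset_univ _)) (Avg0_in hs)).const_smul (1 / 4 : ℝ)

theorem av_zero (h : E → ℂ) (x : E) : av h (x, 0) = h x := by
  simp only [av, Complex.ofReal_zero, zero_mul, add_zero, intervalIntegral.integral_const, smul_smul]
  norm_num

/- `hasFDerivAt_parInt` twice. -/
theorem av_fderiv {h : E → ℂ} (hs : ContDiffOn ℝ ∞ h (Box 5)) {p : E × ℝ}
    (hp : p ∈ Box 4 ×ˢ Ioo (-(1 / 2) : ℝ) (1 / 2)) (v : E × ℝ) :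
    fderiv ℝ (av h) p v = (1 / 4 : ℝ) • ∫ t in (-1 : ℝ)..1, ∫ s in (-1 : ℝ)..1,
      fderiv ℝ h (p.1.1, p.1.2 + p.2 * (s + t * Complex.I))
        (v.1.1, v.1.2 + v.2 * (s + t * Complex.I)) := by
  obtain ⟨d1, d2⟩ := hasFDerivAt_parInt (a := -1) (b := 1) (Avg0_open.prod isOpen_univ) Avg0_open
    (prod_mono_right (subset_univ _)) (Avg0_in hs) hp
  refine (DFunLike.congr_fun (fderiv_fun_const_smul d1 (1 / 4 : ℝ)) v).trans ?_
  rw [smul_apply, d2]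
  refine congrArg _ (intervalIntegral.integral_congr fun t _ => ?_)
  refine ((hasFDerivAt_parInt ((isOpen_box 5).preimage Avg0_sm.continuous)
    (Avg0_open.prod isOpen_univ) Avg0_sub (Avg0_comp hs) (y := (p, t)) ⟨hp, mem_univ _⟩).2 _).trans
    (intervalIntegral.integral_congr fun s hs' => ?_)
  have hm := Avg0_mem hp t hs'
  let L : E × ℝ →L[ℝ] E :=
    ((ContinuousLinearMap.fst ℝ ℂ ℂ).comp (ContinuousLinearMap.fst ℝ E ℝ)).prod
      ((ContinuousLinearMap.snd ℝ ℂ ℂ).comp (ContinuousLinearMap.fst ℝ E ℝ) +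
        (ContinuousLinearMap.snd ℝ E ℝ).smulRight (s + t * Complex.I))
  have hd : DifferentiableAt ℝ h (L p) :=
    (hs.contDiffAt ((isOpen_box 5).mem_nhds hm)).differentiableAt (by simp)
  have hd' : DifferentiableAt ℝ (h ∘ Avg0_pt) ((p, t), s) :=
    hd.comp ((p, t), s) (Avg0_sm.differentiable (by simp) _)
  have k0 : HasFDerivAt (fun e : E × ℝ => ((e, t), s)) ((ContinuousLinearMap.inl ℝ _ ℝ).comp
      (ContinuousLinearMap.inl ℝ (E × ℝ) ℝ)) p :=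
    HasFDerivAt.comp (g := fun e => (e, s)) (f := fun e => (e, t)) p
      (hasFDerivAt_prodMk_left (p, t) s) (hasFDerivAt_prodMk_left p t)
  have k1 := hd'.hasFDerivAt.comp p k0
  have k2 := hd.hasFDerivAt.comp p L.hasFDerivAt
  exact DFunLike.congr_fun (k1.unique k2) v

theorem av_lin (a b : ℂ) : (1 / 4 : ℝ) • ∫ t in (-1 : ℝ)..1, ∫ s in (-1 : ℝ)..1,
    (a + b * (s + t * Complex.I)) = a := by
  simp only [Avg0_lin', Avg0_lin]
  rw [Complex.real_smul]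
  push_cast
  ring

theorem av_sub {h : E → ℂ} (hs : ContDiffOn ℝ ∞ h (Box 5)) {p : E × ℝ}
    (hp : p ∈ Box 4 ×ˢ Ioo (-(1 / 2) : ℝ) (1 / 2)) :
    av h p - p.1.2 = av (fun x => h x - x.2) p := by
  have c1 : Continuous fun t : ℝ => ∫ s in (-1 : ℝ)..1, (h ∘ Avg0_pt) ((p, t), s) :=
    (Avg0_in hs).continuousOn.comp_continuous (f := fun t : ℝ => (p, t)) (by fun_prop)
      fun t => ⟨hp, mem_univ t⟩
  have c2 : Continuous fun t : ℝ => ∫ s in (-1 : ℝ)..1, (p.1.2 + p.2 * (s + t * Complex.I)) := by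
    simp only [Avg0_lin']
    fun_prop
  have e : ∀ t : ℝ, ∫ s in (-1 : ℝ)..1, (h (p.1.1, p.1.2 + p.2 * (s + t * Complex.I)) -
      (p.1.2 + p.2 * (s + t * Complex.I))) = (∫ s in (-1 : ℝ)..1, (h ∘ Avg0_pt) ((p, t), s)) -
      ∫ s in (-1 : ℝ)..1, (p.1.2 + p.2 * (s + t * Complex.I)) := fun t =>
    intervalIntegral.integral_sub
      (ContinuousOn.intervalIntegrable (hs.continuousOn.comp (by fun_prop)
        fun s hs' => Avg0_mem hp t hs'))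
      (Continuous.intervalIntegrable (by fun_prop) _ _)
  simp only [av, e]
  rw [intervalIntegral.integral_sub (c1.intervalIntegrable _ _) (c2.intervalIntegrable _ _), smul_sub,
    av_lin]
  rfl

theorem av_per {u : E → ℂ} (hu : Per2 u 5) {σ : ℝ} (hσ : σ ∈ Ioo (-(1 / 2) : ℝ) (1 / 2)) {x : E}
    (hx : x ∈ Box 4) (m n : ℤ) :
    av u (x + (2 * π * Complex.I * m, 2 * π * Complex.I * n), σ) = av u (x, σ) := by
  refine congrArg ((1 / 4 : ℝ) • ·) (intervalIntegral.integral_congr fun t _ =>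
    intervalIntegral.integral_congr fun s hs => ?_)
  refine Eq.trans (congrArg u ?_) (hu _ (Avg0_mem (p := (x, σ)) ⟨hx, hσ⟩ t hs) m n)
  exact Prod.ext rfl (add_right_comm _ _ _)

theorem av_le {u : E → ℂ} {δ : ℝ} (hu : ∀ x ∈ Box 5, ‖u x‖ ≤ δ) {p : E × ℝ}
    (hp : p ∈ Box 4 ×ˢ Ioo (-(1 / 2) : ℝ) (1 / 2)) : ‖av u p‖ ≤ δ := by
  exact Avg0_le fun t s hs => hu _ (Avg0_mem hp t hs)

theorem av_dZ {h : E → ℂ} (hs : ContDiffOn ℝ ∞ h (Box 5)) {p : E × ℝ}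
    (hp : p ∈ Box 4 ×ˢ Ioo (-(1 / 2) : ℝ) (1 / 2)) {v : ℂ} {m : ℝ}
    (hm : ∀ x ∈ Box 5, ‖fderiv ℝ h x (v, 0)‖ ≤ m) : ‖fderiv ℝ (av h) p ((v, 0), 0)‖ ≤ m := by
  rw [av_fderiv hs hp]
  refine Avg0_le fun t s hs' => ?_
  simpa using hm _ (Avg0_mem hp t hs')

end Pool.Agent.Lib.MP_7ed551_gt.Cy.G
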