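import Pool.Agent.Lib.MP_7ed551_gt.Cy.Iface
import Pool.Agent.Lib.MP_7ed551_gt.Cy.B.Cov

/-! Block G (trivialisation): definitions. -/

open scoped ContDiff ComplexConjugate
open Set Real

noncomputable section

namespace Pool.Agent.Lib.MP_7ed551_gt.Cy.G

open Pool.Agent.Lib.MP_ccffa6_gt (Form1 dF pb px py JHol)

/-- The images of the fibres under `Φ` are symplectic. -/
def FP (Λ : Form1 E) (Φ : E → E) : Prop :=
  ∀ x, 0 < dF Λ (Φ x) (fderiv ℝ Φ x (1, 0)) (fderiv ℝ Φ x (Complex.I, 0))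

/-- A fibre preserving diffeomorphism that preserves the orientation of the fibres. -/
structure FD (F F' : E → E) : Prop where
  dif : Dif F F'
  snd : ∀ x, (F x).2 = x.2
  pos : ∀ x, 0 < w1 (fderiv ℝ F x (1, 0)).1 (fderiv ℝ F x (Complex.I, 0)).1

/-- Periodic on a strip. -/
def Per1 {W : Type} (g : ℂ → W) (N : ℝ) : Prop :=
  ∀ z ∈ Strip N, ∀ n : ℤ, g (z + 2 * π * Complex.I * n) = g z

/-- Periodic on a box. -/
def Per2 {W : Type} (g : E → W) (N : ℝ) : Prop :=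
  ∀ x ∈ Box N, ∀ m n : ℤ, g (x + (2 * π * Complex.I * m, 2 * π * Complex.I * n)) = g x

/-- An embedded annulus in the plane. -/
structure Col (l : ℂ → ℂ) (N : ℝ) : Prop where
  sm : ContDiffOn ℝ ∞ l (Strip N)
  per : Per1 l N
  inj : ∀ e ∈ Strip N, ∀ e' ∈ Strip N, l e = l e' → ∃ n : ℤ, e' = e + 2 * π * Complex.I * n
  imm : ∀ e ∈ Strip N, Function.Injective (fderiv ℝ l e)

/-- An embedding of a box modulo the periods. -/
structure Emb (θ : E → E) (N : ℝ) : Prop where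
  sm : ContDiffOn ℝ ∞ θ (Box N)
  per : Per2 θ N
  inj : ∀ x ∈ Box N, ∀ y ∈ Box N, θ x = θ y →
    ∃ m n : ℤ, y = x + (2 * π * Complex.I * m, 2 * π * Complex.I * n)
  imm : ∀ x ∈ Box N, Function.Injective (fderiv ℝ θ x)

/-- A loop of periodic holomorphic functions on a strip. -/
structure Lp (g : ℂ × ℝ → ℂ) (N : ℝ) : Prop where
  sm : ContDiffOn ℝ ∞ g (Strip N ×ˢ univ)
  hol : ∀ t, DifferentiableOn ℂ (fun Z => g (Z, t)) (Strip N)
  per : ∀ t, Per1 (fun Z => g (Z, t)) N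
  pert : ∀ Z ∈ Strip N, ∀ t, g (Z, t + 2 * π) = g (Z, t)

/-- A holomorphic motion of a cylinder over a cylinder. -/
structure Mot (h : E → ℂ) (N δ : ℝ) : Prop where
  sm : ContDiffOn ℝ ∞ h (Box N)
  hol : ∀ e ∈ Strip N, DifferentiableOn ℂ (fun Z => h (Z, e)) (Strip N)
  zero : ∀ e ∈ Strip N, h (0, e) = e
  per : Per2 (fun x => h x - x.2) N
  small : ∀ x ∈ Box N, ‖h x - x.2‖ ≤ δ
  inj : ∀ Z ∈ Strip N, ∀ e ∈ Strip N, ∀ e' ∈ Strip N, h (Z, e) = h (Z, e') →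
    ∃ n : ℤ, e' = e + 2 * π * Complex.I * n
  imm : ∀ x ∈ Box N, ∀ v, fderiv ℝ h x (0, v) = 0 → v = 0

/-- The straightened graphs. -/
structure Str (h H : E → ℂ) (κ : ℝ) : Prop where
  sm : ContDiffOn ℝ ∞ H (Box 4)
  per : Per2 (fun x => H x - x.2) 4
  out : ∀ x ∈ Box 4, 3 ≤ |x.1.re| ∨ 3 ≤ |x.2.re| → H x = h x
  small : ∀ x ∈ Box 4, ‖H x - x.2‖ ≤ 1
  slope : ∀ x ∈ Box 4, ‖fderiv ℝ H x (1, 0)‖ ≤ κ ∧ ‖fderiv ℝ H x (Complex.I, 0)‖ ≤ κ
  imm : ∀ x ∈ Box 4, ∀ v, fderiv ℝ H x (0, v) = 0 → v = 0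
  mid : ∀ a b : ℝ, H (a * Complex.I, b * Complex.I) = b * Complex.I

/-- The average over a square of size `σ = p.2` in the second variable. -/
def av (h : E → ℂ) (p : E × ℝ) : ℂ :=
  (1 / 4 : ℝ) • ∫ t in (-1 : ℝ)..1, ∫ s in (-1 : ℝ)..1,
    h (p.1.1, p.1.2 + p.2 * (s + t * Complex.I))

/-- The complex structure with Beltrami coefficient `μ`. -/
def jm (μ w : ℂ) : ℂ :=
  Complex.I * ((1 + ‖μ‖ ^ 2) * w - 2 * μ * conj w) / (1 - ‖μ‖ ^ 2)

theorem isOpen_strip (N : ℝ) : IsOpen (Strip N) :=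
  isOpen_lt (by fun_prop) continuous_const

theorem isOpen_box (N : ℝ) : IsOpen (Box N) := (isOpen_strip N).prod (isOpen_strip N)

theorem strip_mono {N M : ℝ} (h : N ≤ M) : Strip N ⊆ Strip M := fun _ hz => lt_of_lt_of_le hz h

theorem box_mono {N M : ℝ} (h : N ≤ M) : Box N ⊆ Box M := fun _ hz =>
  ⟨lt_of_lt_of_le hz.1 h, lt_of_lt_of_le hz.2 h⟩

theorem convex_strip (N : ℝ) : Convex ℝ (Strip N) := by
  have : Strip N = {z : ℂ | -N < z.re} ∩ {z : ℂ | z.re < N} := by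
    ext z
    simp [Strip, abs_lt]
  rw [this]
  exact (convex_halfSpace_re_gt _).inter (convex_halfSpace_re_lt _)

theorem add_mem_strip {N : ℝ} {z : ℂ} (n : ℤ) :
    z + 2 * π * Complex.I * n ∈ Strip N ↔ z ∈ Strip N := by
  simp [Strip]

theorem add_mem_box {N : ℝ} {x : E} (m n : ℤ) :
    x + (2 * π * Complex.I * m, 2 * π * Complex.I * n) ∈ Box N ↔ x ∈ Box N := by
  simp [Box]

theorem im_mem {N : ℝ} (hN : 0 < N) (t : ℝ) : (t * Complex.I : ℂ) ∈ Strip N := by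
  simpa [Strip] using hN

theorem Per1.mono {W : Type} {g : ℂ → W} {N M : ℝ} (h : Per1 g M) (hN : N ≤ M) : Per1 g N :=
  fun z hz => h z (strip_mono hN hz)

theorem Per2.mono {W : Type} {g : E → W} {N M : ℝ} (h : Per2 g M) (hN : N ≤ M) : Per2 g N :=
  fun z hz => h z (box_mono hN hz)

theorem Col.mono {l : ℂ → ℂ} {N M : ℝ} (h : Col l M) (hN : N ≤ M) : Col l N :=
  ⟨h.sm.mono (strip_mono hN), h.per.mono hN,
    fun e he e' he' => h.inj e (strip_mono hN he) e' (strip_mono hN he'),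
    fun e he => h.imm e (strip_mono hN he)⟩

theorem Emb.mono {θ : E → E} {N M : ℝ} (h : Emb θ M) (hN : N ≤ M) : Emb θ N :=
  ⟨h.sm.mono (box_mono hN), h.per.mono hN,
    fun e he e' he' => h.inj e (box_mono hN he) e' (box_mono hN he'),
    fun e he => h.imm e (box_mono hN he)⟩

theorem Lp.mono {g : ℂ × ℝ → ℂ} {N M : ℝ} (h : Lp g M) (hN : N ≤ M) : Lp g N :=
  ⟨h.sm.mono (prod_mono_left (strip_mono hN)), fun t => (h.hol t).mono (strip_mono hN),
    fun t => (h.per t).mono hN, fun Z hZ => h.pert Z (strip_mono hN hZ)⟩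

theorem Mot.mono {h : E → ℂ} {N M δ : ℝ} (H : Mot h M δ) (hN : N ≤ M) : Mot h N δ :=
  ⟨H.sm.mono (box_mono hN), fun e he => (H.hol e (strip_mono hN he)).mono (strip_mono hN),
    fun e he => H.zero e (strip_mono hN he), H.per.mono hN, fun x hx => H.small x (box_mono hN hx),
    fun Z hZ e he e' he' => H.inj Z (strip_mono hN hZ) e (strip_mono hN he) e' (strip_mono hN he'),
    fun x hx => H.imm x (box_mono hN hx)⟩

end Pool.Agent.Lib.MP_7ed551_gt.Cy.G
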