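import Pool.Agent.Lib.MP_7ed551_gt.Cy.G.Bel0

/-! The Beltrami equation from the foliation theorem. -/

open scoped ContDiff ComplexConjugate Topology
open Set Real Filter Metric

noncomputable section

namespace Pool.Agent.Lib.MP_7ed551_gt.Cy.G

open Pool.Agent.Lib.MP_ccffa6_gt (Form1 dF pb px py JHol dF_apply dF_pb)

/-- The split structure as a linear map. -/
def Bel_J (μ : ℂ) : E →L[ℝ] E :=
  ((Complex.I * (1 + ‖μ‖ ^ 2) / (1 - ‖μ‖ ^ 2) : ℂ) • ContinuousLinearMap.id ℝ ℂ -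
    (Complex.I * (2 * μ) / (1 - ‖μ‖ ^ 2) : ℂ) • (Complex.conjCLE : ℂ →L[ℝ] ℂ)).prodMap
    (Complex.I • ContinuousLinearMap.id ℝ ℂ)

theorem Bel_apply (μ : ℂ) (v : E) : Bel_J μ v = (jm μ v.1, Complex.I * v.2) := by
  refine Prod.ext ?_ (by simp [Bel_J])
  simp [Bel_J, jm]
  ring

theorem Bel_sm {X : Type} [NormedAddCommGroup X] [NormedSpace ℝ X] {ν : X → ℂ}
    (hν : ContDiff ℝ ∞ ν) (h1 : ∀ p, ‖ν p‖ < 1) : ContDiff ℝ ∞ fun p => Bel_J (ν p) := by
  refine contDiff_clm_apply_iff.2 fun v => ?_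
  simp only [Bel_apply, jm]
  have a1 : ContDiff ℝ ∞ fun p => ((‖ν p‖ : ℂ)) ^ 2 := by
    simp only [← Complex.ofReal_pow]
    exact Complex.ofRealCLM.contDiff.comp (hν.norm_sq ℂ)
  simp only [div_eq_mul_inv]
  refine ContDiff.prodMk (ContDiff.mul (contDiff_const.mul (((contDiff_const.add a1).mul
    contDiff_const).sub ((contDiff_const.mul hν).mul contDiff_const)))
    ((contDiff_const.sub a1).inv fun p h => ?_)) contDiff_const
  have : (1 : ℝ) - ‖ν p‖ ^ 2 = 0 := by exact_mod_cast h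
  nlinarith [h1 p, norm_nonneg (ν p)]

/- `J (t, x) v = (jm (smoothTransition t * χ x.2 * μ x.1) v.1, I * v.2)`, `χ` a bump function at
`c`; smoothness by `contDiff_clm_apply_iff`. -/
theorem bel_path {μ : ℂ → ℂ} (hμ : ContDiff ℝ ∞ μ) (far : ∃ R : ℝ, ∀ w, R ≤ ‖w‖ → μ w = 0)
    (h1 : ∀ w, ‖μ w‖ < 1) (c : ℂ) : ∃ (J : ℝ × E → E →L[ℝ] E) (K : Set E), Path lam0 J K ∧
      (∀ p v, (J p v).2 = Complex.I * v.2) ∧ ∀ w v, J (1, (w, c)) (v, 0) = (jm (μ w) v, 0) := by
  obtain ⟨R, hR⟩ := far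
  let χ : ContDiffBump c := ⟨1, 2, one_pos, one_lt_two⟩
  have n1 : ∀ p : ℝ × E, ‖(smoothTransition p.1 * χ p.2.2) • μ p.2.1‖ < 1 := fun p => by
    rw [norm_smul, Real.norm_of_nonneg (mul_nonneg (smoothTransition.nonneg _) χ.nonneg)]
    exact (mul_le_of_le_one_left (norm_nonneg _) (mul_le_one₀ (smoothTransition.le_one _)
      χ.nonneg χ.le_one)).trans_lt (h1 _)
  have z0 : Bel_J 0 = J0 := ContinuousLinearMap.ext fun v => by
    rw [Bel_apply, jm_zero, J0_apply]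
    rfl
  refine ⟨fun p => Bel_J ((smoothTransition p.1 * χ p.2.2) • μ p.2.1),
    closedBall 0 R ×ˢ closedBall c 2, ⟨contDiff_lam0, Bel_sm ?_ n1, fun p v => ?_,
      fun p v hv => ?_, (isCompact_closedBall _ _).prod (isCompact_closedBall _ _),
      fun _ _ => rfl, fun p hp => ?_, fun x => ?_⟩, fun p v => by rw [Bel_apply], fun w v => ?_⟩
  · exact ((smoothTransition.contDiff.comp contDiff_fst).mul
      (χ.contDiff.comp contDiff_snd.snd)).smul (hμ.comp contDiff_snd.fst)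
  · rw [Bel_apply, Bel_apply, jm_jm (n1 p), ← mul_assoc, Complex.I_mul_I, neg_one_mul]
    rfl
  · rw [dF_lam0, Bel_apply, om]
    have a2 : w1 v.2 (Complex.I * v.2) = Complex.normSq v.2 := by
      simp [w1, Complex.normSq_apply]
    rw [a2]
    by_cases h : v.1 = 0
    · have : v.2 ≠ 0 := fun h' => hv (Prod.ext h h')
      simpa [h, w1] using this
    · exact add_pos_of_pos_of_nonneg (jm_pos (n1 p) h) (Complex.normSq_nonneg _)
  · rcases not_and_or.1 hp with h | h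
    · rw [hR _ (le_of_lt (by simpa using h)), smul_zero, z0]
    · rw [χ.zero_of_le_dist (le_of_lt (by simpa using h)), mul_zero, zero_smul, z0]
  · simp only [smoothTransition.zero, zero_mul, zero_smul, z0]
  · rw [Bel_apply, smoothTransition.one, χ.one_of_mem_closedBall (mem_closedBall_self χ.rIn_pos.le)]
    simp

end Pool.Agent.Lib.MP_7ed551_gt.Cy.G
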