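import Pool.Agent.Lib.MP_7ed551_gt.Cy.G.Bump

/-! The Beltrami equation from the foliation theorem. -/

open scoped ContDiff ComplexConjugate Topology
open Set Real Filter Metric

noncomputable section

namespace Pool.Agent.Lib.MP_7ed551_gt.Cy.G

open Pool.Agent.Lib.MP_ccffa6_gt (Form1 dF pb px py JHol dF_apply dF_pb)

theorem Bel0_eq (μ w : ℂ) :
    jm μ w = Complex.I * ((1 + μ * conj μ) * w - 2 * μ * conj w) / (1 - μ * conj μ) := by
  rw [jm, Complex.mul_conj']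

theorem Bel0_ne {μ : ℂ} (h : ‖μ‖ < 1) : 1 - μ * conj μ ≠ 0 := by
  rw [Complex.mul_conj']
  have : (1 - ‖μ‖ ^ 2 : ℝ) ≠ 0 := by nlinarith [norm_nonneg μ]
  exact_mod_cast this

theorem jm_zero (w : ℂ) : jm 0 w = Complex.I * w := by
  simp [jm]

theorem jm_jm {μ : ℂ} (h : ‖μ‖ < 1) (w : ℂ) : jm μ (jm μ w) = -w := by
  have := Bel0_ne h
  have h2 : conj (2 : ℂ) = 2 := map_ofNat _ 2
  rw [Bel0_eq, Bel0_eq]
  simp only [map_div₀, map_mul, map_sub, map_add, map_one, Complex.conj_conj, Complex.conj_I, h2,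
    mul_comm (conj μ) μ]
  field_simp
  linear_combination ((1 - μ * conj μ) ^ 2 * w) * Complex.I_mul_I

theorem jm_pos {μ w : ℂ} (h : ‖μ‖ < 1) (hw : w ≠ 0) : 0 < w1 w (jm μ w) := by
  have h0 := norm_nonneg μ
  have h1 : 0 < 1 - ‖μ‖ ^ 2 := by nlinarith
  have h2 : 0 < ‖w‖ := norm_pos_iff.2 hw
  have e : jm μ w = Complex.I * (((1 + ‖μ‖ ^ 2 : ℝ) : ℂ) * w - 2 * μ * conj w) /
      ((1 - ‖μ‖ ^ 2 : ℝ) : ℂ) := by
    rw [jm]
    push_cast
    rfl
  have k : (μ * conj w * conj w).re ≤ ‖μ‖ * ‖w‖ * ‖w‖ :=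
    (Complex.re_le_norm _).trans_eq (by simp)
  have k2 : ‖w‖ ^ 2 = w.re ^ 2 + w.im ^ 2 := by
    rw [Complex.sq_norm, Complex.normSq_apply]
    ring
  have e2 : w1 w (jm μ w) =
      ((1 + ‖μ‖ ^ 2) * ‖w‖ ^ 2 - 2 * (μ * conj w * conj w).re) / (1 - ‖μ‖ ^ 2) := by
    rw [e, w1, Complex.div_ofReal_re, Complex.div_ofReal_im, k2]
    generalize 1 + ‖μ‖ ^ 2 = A
    simp
    ring
  rw [e2]
  refine div_pos ?_ h1
  nlinarith [mul_pos (pow_pos (sub_pos.2 h) 2) (pow_pos h2 2)]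

/- If `L v = p v + q conj v` and `μ = q / conj p`, then `L I = jm μ (L 1)`. -/
theorem jm_lin {p q : ℂ} (h : ‖q‖ < ‖p‖) :
    jm (q / conj p) (p + q) = Complex.I * (p - q) := by
  have hp : p ≠ 0 := norm_pos_iff.1 ((norm_nonneg q).trans_lt h)
  have hp' : conj p ≠ 0 := (map_ne_zero _).2 hp
  have h1 : ‖q / conj p‖ < 1 := by
    rw [norm_div, Complex.norm_conj]
    exact (div_lt_one (norm_pos_iff.2 hp)).2 h
  rw [Bel0_eq, div_eq_iff (Bel0_ne h1)]
  simp only [map_div₀, map_add, Complex.conj_conj]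
  field_simp
  ring

/- The second coordinate of a leaf is an entire function with limit `c` at infinity:
`Differentiable.apply_eq_of_tendsto_cocompact`. -/
theorem fol_snd {J : E → E →L[ℝ] E} {Ψ P : E → E} (h : Fol J Ψ P)
    (hJ : ∀ x v, (J x v).2 = Complex.I * v.2) (x : E) : (Ψ x).2 = x.2 := by
  obtain ⟨z, c⟩ := x
  have hd (ζ : ℂ) : DifferentiableAt ℝ (fun ζ : ℂ => Ψ (ζ, c)) ζ :=
    (h.sm.differentiable (by simp) _).comp ζ (by fun_prop)
  have hf : Differentiable ℂ fun ζ : ℂ => (Ψ (ζ, c)).2 := fun ζ => by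
    rw [differentiableAt_complex_iff_differentiableAt_real]
    refine ⟨(hd ζ).snd, ?_⟩
    rw [fderiv.snd (hd ζ)]
    exact (congrArg Prod.snd (h.hol c ζ trivial).1).trans (hJ _ _)
  refine hf.apply_eq_of_tendsto_cocompact z ?_
  obtain ⟨C, hC⟩ := h.dec
  have ht : Tendsto (fun ζ : ℂ => ‖ζ‖) (cocompact ℂ) atTop := tendsto_norm_cocompact_atTop
  rw [tendsto_iff_norm_sub_tendsto_zero]
  refine squeeze_zero' (Eventually.of_forall fun _ => norm_nonneg _) ?_ (ht.const_div_atTop C)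
  filter_upwards [ht.eventually_ge_atTop 1] with ζ hζ
  exact (norm_snd_le (Ψ (ζ, c) - (ζ, c))).trans (hC (ζ, c) hζ).1

end Pool.Agent.Lib.MP_7ed551_gt.Cy.G
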