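import Pool.Agent.Lib.MP_7ed551_gt.Cy.G.Bump0

/-! Cut-off functions and loops of affine maps. -/

open scoped ContDiff ComplexConjugate Topology
open Set Real Filter Metric

noncomputable section

namespace Pool.Agent.Lib.MP_7ed551_gt.Cy.G

open Pool.Agent.Lib.MP_ccffa6_gt (Form1 dF pb px py JHol dF_apply dF_pb)

theorem Bump_bd {b : ℂ → ℂ} (hb : Continuous b) {R : ℝ} (h : ∀ z, R ≤ ‖z‖ → b z = 0) :
    ∃ M : ℝ, ∀ z, ‖b z‖ ≤ M := by
  obtain ⟨M, hM⟩ := (isCompact_closedBall (0 : ℂ) R).exists_bound_of_continuousOn hb.continuousOn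
  refine ⟨max M 0, fun z => ?_⟩
  rcases le_total R ‖z‖ with e | e
  · simp [h z e]
  · exact le_max_of_le_left (hM z (mem_closedBall_zero_iff.2 e))

/- `F x = ψ x.1 • b x.2 + x.1 * exp (ψ x.1 • A x.2)`, `l = exp (ψ x.1 • A x.2)`, `‖b‖, ‖A‖ ≤ M`,
`ε = exp (-M) / (8 (M + 1))`; `FD.of_near`. -/
theorem aff {b A : ℂ → ℂ} (hb : ContDiff ℝ ∞ b) (hA : ContDiff ℝ ∞ A)
    (fb : ∃ R : ℝ, ∀ z, R ≤ ‖z‖ → b z = 0) (fA : ∃ R : ℝ, ∀ z, R ≤ ‖z‖ → A z = 0) (R : ℝ) :
    ∃ F F' : E → E, FD F F' ∧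
      ∀ x : E, ‖x.1‖ ≤ R → F x = (b x.2 + x.1 * Complex.exp (A x.2), x.2) := by
  obtain ⟨R1, fb⟩ := fb
  obtain ⟨R2, fA⟩ := fA
  obtain ⟨M1, b1⟩ := Bump_bd hb.continuous fb
  obtain ⟨M2, b2⟩ := Bump_bd hA.continuous fA
  obtain ⟨M, m1, m2⟩ : ∃ M : ℝ, (∀ z, ‖b z‖ ≤ M) ∧ ∀ z, ‖A z‖ ≤ M :=
    ⟨max M1 M2, fun z => le_max_of_le_left (b1 z), fun z => le_max_of_le_right (b2 z)⟩
  have hM : 0 ≤ M := (norm_nonneg _).trans (m1 0)
  obtain ⟨ψ, hψ, p1, p2, ⟨S, p3⟩, p4⟩ := slow (ε := exp (-M) / (8 * (M + 1))) (by positivity) R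
  obtain ⟨F', hF⟩ := FD.of_near (F := fun x => ψ x.1 • b x.2 + x.1 * Complex.exp (ψ x.1 • A x.2))
    (by fun_prop) ⟨max S (max R1 R2), fun x hx => by
      rcases le_max_iff.1 (hx.trans_eq (Prod.norm_def x)) with e | e <;>
        simp only [max_le_iff] at e
      · simp [p3 _ e.1]
      · simp [fb _ e.2.1, fA _ e.2.2]⟩ fun x => ⟨_, Complex.exp_ne_zero (ψ x.1 • A x.2), fun v => by
      have p := (hψ.differentiable (by simp) x.1).hasFDerivAt.comp x hasFDerivAt_fst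
      have q := (hb.differentiable (by simp) x.2).hasFDerivAt.comp x hasFDerivAt_snd
      have a := (hA.differentiable (by simp) x.2).hasFDerivAt.comp x hasFDerivAt_snd
      have H := ((p.fun_smul q).fun_add (hasFDerivAt_fst.fun_mul (p.fun_smul a).cexp)).fderiv
      simp only [Function.comp_apply] at H
      have e : fderiv ℝ (fun x : E => ψ x.1 • b x.2 + x.1 * Complex.exp (ψ x.1 • A x.2)) x (v, 0) -
          Complex.exp (ψ x.1 • A x.2) * v = fderiv ℝ ψ x.1 v • b x.2 +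
            x.1 * (Complex.exp (ψ x.1 • A x.2) * fderiv ℝ ψ x.1 v • A x.2) := by
        rw [H]
        simp
        ring
      have k1 : exp (-M) ≤ ‖Complex.exp (ψ x.1 • A x.2)‖ := by
        rw [Complex.norm_exp, exp_le_exp]
        refine (abs_le.1 ((Complex.abs_re_le_norm _).trans ?_)).1
        rw [norm_smul, Real.norm_of_nonneg (p1 _).1]
        exact (mul_le_of_le_one_left (norm_nonneg _) (p1 _).2).trans (m2 _)
      have k2 : exp (-M) ≤ 1 := exp_le_one_iff.2 (neg_nonpos.2 hM)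
      have k3 := p4 x.1 v
      rw [div_mul_eq_mul_div, le_div_iff₀ (by positivity)] at k3
      rw [e]
      refine (norm_add_le_of_le (?_ : _ ≤ |fderiv ℝ ψ x.1 v| * M)
        (?_ : _ ≤ ‖x.1‖ * (‖Complex.exp (ψ x.1 • A x.2)‖ * (|fderiv ℝ ψ x.1 v| * M)))).trans ?_
      · rw [norm_smul]
        exact mul_le_mul_of_nonneg_left (m1 _) (abs_nonneg _)
      · rw [norm_mul, norm_mul, norm_smul, Real.norm_eq_abs]
        gcongr
        exact m2 _
      · generalize ‖Complex.exp (ψ x.1 • A x.2)‖ = l at *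
        have h1 := abs_nonneg (fderiv ℝ ψ x.1 v)
        generalize |fderiv ℝ ψ x.1 v| = t at *
        have h2 := norm_nonneg x.1
        have h3 := norm_nonneg v
        have h4 := mul_nonneg h2 h1
        have h5 : 8 * (t * M) ≤ l * ‖v‖ := by
          nlinarith [mul_le_mul_of_nonneg_right k1 h3, mul_nonneg h4 hM]
        have h6 : 8 * (‖x.1‖ * t * M) ≤ ‖v‖ := by
          nlinarith [mul_le_mul_of_nonneg_right k2 h3, mul_nonneg h1 hM]
        nlinarith [mul_le_mul_of_nonneg_left h6 ((exp_pos _).le.trans k1)]⟩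
  exact ⟨_, F', hF, fun x hx => by simp [p2 _ hx]⟩

end Pool.Agent.Lib.MP_7ed551_gt.Cy.G
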