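import Pool.Agent.Lib.MP_7ed551_gt.Cy.G.Lin

/-! Cut-off functions and loops of affine maps. -/

open scoped ContDiff ComplexConjugate Topology
open Set Real Filter Metric

noncomputable section

namespace Pool.Agent.Lib.MP_7ed551_gt.Cy.G

open Pool.Agent.Lib.MP_ccffa6_gt (Form1 dF pb px py JHol dF_apply dF_pb)

theorem bump {a b : ℝ} (ha : 0 < a) (hab : a < b) : ∃ (χ : ℝ → ℝ) (M : ℝ), ContDiff ℝ ∞ χ ∧
    0 ≤ M ∧ (∀ t, χ t ∈ Icc (0 : ℝ) 1) ∧ (∀ t, |t| ≤ a → χ t = 1) ∧ (∀ t, b ≤ |t| → χ t = 0) ∧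
    ∀ t, |deriv χ t| ≤ M := by
  let f : ContDiffBump (0 : ℝ) := ⟨a, b, ha, hab⟩
  have c : ContDiff ℝ ∞ f := f.contDiff
  obtain ⟨M, hM⟩ := (c.continuous_deriv (by simp)).bounded_above_of_compact_support
    f.hasCompactSupport.deriv
  refine ⟨f, M, c, (norm_nonneg _).trans (hM 0), fun t => ⟨f.nonneg, f.le_one⟩, fun t h => ?_,
    fun t h => ?_, hM⟩
  · exact f.one_of_mem_closedBall (by simpa using h)
  · exact f.zero_of_le_dist (by simpa using h)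

/- `ψ w = χ (η * log (1 + ‖w‖ ^ 2))` with `χ` from `bump 1 2` and `η` small;
`(1 + r) * (2 r) ≤ 3 * (1 + r ^ 2)`. -/
theorem slow {ε : ℝ} (hε : 0 < ε) (R : ℝ) : ∃ ψ : ℂ → ℝ, ContDiff ℝ ∞ ψ ∧
    (∀ w, ψ w ∈ Icc (0 : ℝ) 1) ∧ (∀ w, ‖w‖ ≤ R → ψ w = 1) ∧ (∃ S : ℝ, ∀ w, S ≤ ‖w‖ → ψ w = 0) ∧
    ∀ w v, (1 + ‖w‖) * |fderiv ℝ ψ w v| ≤ ε * ‖v‖ := by
  obtain ⟨χ, M, c, hM, h01, h1, h0, hd⟩ := bump one_pos one_lt_two
  have p : ∀ w : ℂ, 0 < 1 + ‖w‖ ^ 2 := fun w => by positivity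
  have L : 0 ≤ Real.log (1 + R ^ 2) := Real.log_nonneg (by nlinarith [sq_nonneg R])
  obtain ⟨η, η0, η1, η2⟩ : ∃ η : ℝ, 0 < η ∧ η * Real.log (1 + R ^ 2) ≤ 1 ∧ η * (3 * M) ≤ ε := by
    refine ⟨min (1 / (1 + Real.log (1 + R ^ 2))) (ε / (1 + 3 * M)), by positivity, ?_, ?_⟩
    · refine (mul_le_mul_of_nonneg_right (min_le_left _ _) L).trans ?_
      rw [div_mul_eq_mul_div, div_le_one (by positivity)]
      linarith
    · refine (mul_le_mul_of_nonneg_right (min_le_right _ _) (by positivity)).trans ?_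
      rw [div_mul_eq_mul_div, div_le_iff₀ (by positivity)]
      nlinarith
  have n0 : ∀ w : ℂ, 0 ≤ Real.log (1 + ‖w‖ ^ 2) := fun w =>
    Real.log_nonneg (by nlinarith [sq_nonneg ‖w‖])
  refine ⟨fun w => χ (η * Real.log (1 + ‖w‖ ^ 2)), c.comp (contDiff_const.mul
    ((contDiff_const.add (contDiff_norm_sq ℝ)).log fun w => (p w).ne')), fun w => h01 _,
    fun w hw => h1 _ ?_, ⟨Real.exp (2 / η), fun w hw => h0 _ ?_⟩, fun w v => ?_⟩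
  · rw [abs_of_nonneg (mul_nonneg η0.le (n0 w))]
    refine (mul_le_mul_of_nonneg_left (Real.log_le_log (p w) ?_) η0.le).trans η1
    nlinarith [norm_nonneg w]
  · rw [abs_of_nonneg (mul_nonneg η0.le (n0 w)), ← div_le_iff₀' η0,
      Real.le_log_iff_exp_le (p w)]
    nlinarith [sq_nonneg (‖w‖ - 1), norm_nonneg w]
  · have d1 : HasFDerivAt (fun w : ℂ => η * Real.log (1 + ‖w‖ ^ 2)) _ w :=
      (((hasStrictFDerivAt_norm_sq w).hasFDerivAt.const_add 1).log (p w).ne').const_mul η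
    have d2 : HasFDerivAt (fun w : ℂ => χ (η * Real.log (1 + ‖w‖ ^ 2))) _ w :=
      (c.differentiable (by simp) _).hasDerivAt.comp_hasFDerivAt w d1
    have e : fderiv ℝ (fun w : ℂ => χ (η * Real.log (1 + ‖w‖ ^ 2))) w v =
        deriv χ (η * Real.log (1 + ‖w‖ ^ 2)) * (η * ((1 + ‖w‖ ^ 2)⁻¹ * (2 * inner ℝ w v))) := by
      rw [d2.fderiv]
      simp only [smul_apply, smul_eq_mul, innerSL_apply_apply, nsmul_eq_mul,
        Nat.cast_ofNat]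
    have i : |inner ℝ w v| ≤ ‖w‖ * ‖v‖ := abs_real_inner_le_norm w v
    have q : (1 + ‖w‖) * ((1 + ‖w‖ ^ 2)⁻¹ * (2 * ‖w‖)) ≤ 3 := by
      rw [mul_left_comm, inv_mul_le_iff₀ (p w)]
      nlinarith [sq_nonneg (‖w‖ - 1)]
    rw [e, abs_mul, abs_mul, abs_mul, abs_mul, abs_of_pos η0, abs_of_pos (inv_pos.2 (p w)),
      abs_two]
    calc _ ≤ (1 + ‖w‖) * (M * (η * ((1 + ‖w‖ ^ 2)⁻¹ * (2 * (‖w‖ * ‖v‖))))) := by
          gcongr
          exact hd _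
      _ = η * M * ‖v‖ * ((1 + ‖w‖) * ((1 + ‖w‖ ^ 2)⁻¹ * (2 * ‖w‖))) := by ring
      _ ≤ η * M * ‖v‖ * 3 := by gcongr
      _ = η * (3 * M) * ‖v‖ := by ring
      _ ≤ ε * ‖v‖ := by gcongr

end Pool.Agent.Lib.MP_7ed551_gt.Cy.G
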