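import Pool.Agent.Lib.MP_7ed551_gt.Cy.G.Cut0

/-! Cutting a foliation off at infinity; moving the base diffeomorphism to the identity. -/

open scoped ContDiff ComplexConjugate Topology
open Set Real Filter Metric

noncomputable section

namespace Pool.Agent.Lib.MP_7ed551_gt.Cy.G

open Pool.Agent.Lib.MP_ccffa6_gt (Form1 dF pb px py JHol dF_apply dF_pb)

theorem Cut_far {F : E → E} {R : ℝ} (h : ∀ x, R ≤ ‖x‖ → F x = x) {x : E} (hx : R < ‖x‖) (v : E) :
    fderiv ℝ F x v = v := by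
  have e : F =ᶠ[𝓝 x] id := by
    filter_upwards [(isOpen_lt continuous_const continuous_norm).mem_nhds hx] with y hy
    exact h y (le_of_lt hy)
  rw [e.fderiv_eq, fderiv_id]
  rfl

theorem Cut_bd {B B' : E → E} (hB : Dif B B') :
    ∃ M : ℝ, 0 < M ∧ ∀ x v, ‖fderiv ℝ B x v‖ ≤ M * ‖v‖ := by
  obtain ⟨R, hR⟩ := hB.far
  obtain ⟨C, hC⟩ := (isCompact_closedBall (0 : E) R).exists_bound_of_continuousOn
    (hB.sm.continuous_fderiv (by simp)).continuousOn
  refine ⟨|C| + 1, by positivity, fun x v => ?_⟩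
  rcases le_or_gt ‖x‖ R with h | h
  · exact (fderiv ℝ B x).le_of_opNorm_le
      ((hC x (mem_closedBall_zero_iff.2 h)).trans ((le_abs_self C).trans (by linarith))) v
  · rw [Cut_far hR h]
    exact le_mul_of_one_le_left (norm_nonneg _) (by linarith [abs_nonneg C])

theorem Cut_der {B : E → E} {c : ℂ → ℂ} (hB : ContDiff ℝ ∞ B) (hc : ContDiff ℝ ∞ c) (x v : E) :
    fderiv ℝ (fun x : E => (x.1, (B (x.2, c x.1)).1)) x v =
      (v.1, (fderiv ℝ B (x.2, c x.1) (v.2, fderiv ℝ c x.1 v.1)).1) := by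
  have h1 := (hc.differentiable (by simp) x.1).hasFDerivAt.comp x hasFDerivAt_fst
  have h2 := (hB.differentiable (by simp) (x.2, c x.1)).hasFDerivAt.comp x
    (hasFDerivAt_snd.prodMk h1)
  have h3 : HasFDerivAt (fun x : E => (x.1, (B (x.2, c x.1)).1)) _ x :=
    hasFDerivAt_fst.prodMk h2.fst
  rw [h3.fderiv]
  rfl

theorem Cut_c {ψ : ℂ → ℝ} (hψ : ContDiff ℝ ∞ ψ) (r T : ℝ) (w v : ℂ) :
    fderiv ℝ (fun w => ((r + (1 - ψ w) * T : ℝ) : ℂ)) w v = ((-(fderiv ℝ ψ w v * T) : ℝ) : ℂ) := by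
  have h1 := (((hψ.differentiable (by simp) w).hasFDerivAt.const_sub 1).mul_const T).const_add r
  have h2 : HasFDerivAt (fun w => ((r + (1 - ψ w) * T : ℝ) : ℂ)) _ w :=
    Complex.ofRealCLM.hasFDerivAt.comp w h1
  rw [h2.fderiv]
  simp [mul_comm]


/- `S x = (x.1, (B (x.2, c x.1)).1)`, `c w = r + (1 - ψ w) * T` with `B = id` outside the ball of
radius `r + T`.  `fderiv S x (v, u) = (v, (fderiv B _ (u, fderiv c _ v)).1)`.  `fderiv B` is bounded
by some `M`; take `ψ` from `slow ε R'` with `M T ε ≤ 1 / 10` and `R'` larger than `R`, `K` and the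
support of `Φ`.  For `‖x.1‖ < R'` the derivative of `c` vanishes; for `‖x.1‖ ≥ R'`, `Φ = id` near
`S x ∉ K`: `dF_far`, `om_pos`. -/
theorem swap {Λ : Form1 E} {J : E → E →L[ℝ] E} {K : Set E} (hA : Amb Λ J K) {Φ Φ' B B' : E → E}
    (hΦ : Dif Φ Φ') (hp : FP Λ Φ) (hB : Dif B B') (h2 : ∀ x, (B x).2 = x.2) {r : ℝ} (hr : 0 < r)
    (R : ℝ) : ∃ S S' : E → E, Dif S S' ∧ FP Λ (fun x => Φ (S x)) ∧
      ∀ x : E, ‖x.1‖ ≤ R → S x = (x.1, (B (x.2, r)).1) := by
  obtain ⟨RB, hRB⟩ := hB.far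
  obtain ⟨RΦ, hRΦ⟩ := hΦ.far
  obtain ⟨RK, hRK⟩ := hA.cpt.isBounded.exists_norm_le
  obtain ⟨M, hM, hM'⟩ := Cut_bd hB
  obtain ⟨T, hT, hT'⟩ : ∃ T : ℝ, 0 < T ∧ RB ≤ T :=
    ⟨|RB| + 1, by positivity, (le_abs_self RB).trans (by linarith)⟩
  obtain ⟨R', r1, r2, r3⟩ : ∃ R' : ℝ, R ≤ R' ∧ RΦ < R' ∧ RK < R' :=
    ⟨max R (max RΦ RK + 1), le_max_left _ _,
      lt_max_of_lt_right (by linarith [le_max_left RΦ RK]),
      lt_max_of_lt_right (by linarith [le_max_right RΦ RK])⟩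
  obtain ⟨ψ, p1, -, p2, ⟨S₀, p3⟩, p4⟩ := slow (show 0 < 1 / (10 * (M * T)) by positivity) R'
  obtain ⟨c, hc⟩ : ∃ c : ℂ → ℂ, c = fun w => ((r + (1 - ψ w) * T : ℝ) : ℂ) := ⟨_, rfl⟩
  have c1 : ContDiff ℝ ∞ c := hc ▸ Complex.ofRealCLM.contDiff.comp
    (contDiff_const.add ((contDiff_const.sub p1).mul contDiff_const))
  have c2 : ∀ w v, fderiv ℝ c w v = ((-(fderiv ℝ ψ w v * T) : ℝ) : ℂ) := hc ▸ Cut_c p1 r T
  have s1 : ContDiff ℝ ∞ fun x : E => (x.1, (B (x.2, c x.1)).1) :=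
    contDiff_fst.prodMk (hB.sm.comp (contDiff_snd.prodMk (c1.comp contDiff_fst))).fst
  have s2 := Cut_der hB.sm c1
  obtain ⟨S', hS⟩ := exists_dif s1 (fun x => (injective_iff_map_eq_zero _).2 fun v hv => by
      rw [s2, Prod.mk_eq_zero] at hv
      obtain ⟨v1, v2⟩ := hv
      rw [v1, map_zero] at v2
      have v3 := fderiv_snd (hB.sm.differentiable (by simp) (x.2, c x.1)) h2 (v.2, 0)
      have v4 := (injective_iff_map_eq_zero _).1 (hB.inj_fderiv _) _ (Prod.ext v2 v3)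
      exact Prod.ext v1 (congrArg Prod.fst v4))
    ⟨max S₀ RB, fun x hx => by
      have h3 : RB ≤ ‖(x.2, c x.1)‖ := by
        rcases le_max_iff.1 (hx.trans_eq (Prod.norm_def x)) with h | h
        · refine le_trans ?_ (norm_snd_le _)
          simp only [hc, p3 _ ((le_max_left _ _).trans h), sub_zero, one_mul, Complex.norm_real]
          exact le_trans (by linarith) (le_abs_self _)
        · exact ((le_max_right _ _).trans h).trans (norm_fst_le (x.2, c x.1))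
      rw [hRB _ h3]⟩
  refine ⟨_, S', hS, fun x => ?_, fun x hx => ?_⟩
  · have e := fderiv_comp x (hΦ.sm.differentiable (by simp) _) (s1.differentiable (by simp) x)
    have e' : ∀ v, fderiv ℝ (fun x : E => Φ (x.1, (B (x.2, c x.1)).1)) x v =
        fderiv ℝ Φ (x.1, (B (x.2, c x.1)).1)
          (v.1, (fderiv ℝ B (x.2, c x.1) (v.2, fderiv ℝ c x.1 v.1)).1) := fun v => by
      rw [← s2]
      exact congrArg (fun L : E →L[ℝ] E => L v) e
    beta_reduce
    rw [e', e']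
    rcases lt_or_ge ‖x.1‖ R' with h | h
    · have e1 : ψ =ᶠ[𝓝 x.1] fun _ => 1 := by
        filter_upwards [(isOpen_lt continuous_norm continuous_const).mem_nhds h] with y hy
        exact p2 y (le_of_lt hy)
      have e2 : ∀ v, fderiv ℝ c x.1 v = 0 := fun v => by simp [c2, e1.fderiv_eq]
      simp only [e2, Prod.mk_zero_zero, map_zero, Prod.fst_zero]
      exact hp _
    · have n1 : R' ≤ ‖(x.1, (B (x.2, c x.1)).1)‖ := h.trans (norm_fst_le (x.1, (B (x.2, c x.1)).1))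
      have n2 : ∀ v : ℂ, ‖v‖ = 1 →
          ‖((v, (fderiv ℝ B (x.2, c x.1) (0, fderiv ℝ c x.1 v)).1) : E) - (v, 0)‖ ≤ 1 / 10 := by
        intro v hv
        have q1 : |fderiv ℝ ψ x.1 v| ≤ 1 / (10 * (M * T)) := by
          have q2 := p4 x.1 v
          rw [hv, mul_one] at q2
          exact (le_mul_of_one_le_left (abs_nonneg _) (by linarith [norm_nonneg x.1])).trans q2
        rw [Prod.mk_sub_mk, sub_self, sub_zero, Prod.norm_mk, norm_zero,
          max_eq_right (norm_nonneg _)]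
        refine ((norm_fst_le _).trans (hM' _ _)).trans ?_
        rw [Prod.norm_mk, norm_zero, max_eq_right (norm_nonneg _), c2, Complex.norm_real,
          Real.norm_eq_abs, abs_neg, abs_mul, abs_of_pos hT]
        refine (mul_le_mul_of_nonneg_left (mul_le_mul_of_nonneg_right q1 hT.le) hM.le).trans
          (le_of_eq ?_)
        field_simp
      rw [Cut_far hRΦ (r2.trans_le n1), Cut_far hRΦ (r2.trans_le n1), hRΦ _ (r2.le.trans n1),
        dF_far hA fun hK => (r3.trans_le n1).not_ge (hRK _ hK)]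
      exact om_pos (n2 1 norm_one) (n2 _ Complex.norm_I)
  · simp only [hc, p2 _ (hx.trans r1), sub_self, zero_mul, add_zero]

end Pool.Agent.Lib.MP_7ed551_gt.Cy.G
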