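import Pool.Agent.Lib.MP_7ed551_gt.Cy.G.Bump

/-! Cutting a foliation off at infinity; moving the base diffeomorphism to the identity. -/

open scoped ContDiff ComplexConjugate Topology
open Set Real Filter Metric

noncomputable section

namespace Pool.Agent.Lib.MP_7ed551_gt.Cy.G

open Pool.Agent.Lib.MP_ccffa6_gt (Form1 dF pb px py JHol dF_apply dF_pb)

/- `Φ x = x + ψ x.1 • (Ψ x - x)` with `ψ` from `slow 1 R'`.  For `‖x.1‖ < R'`, `Φ = Ψ` near `x`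
(`fol_inj`, `fol_fp`).  For `‖x.1‖ ≥ R'`, `‖fderiv Φ x v - v‖ ≤ 2 C / R' * ‖v‖ ≤ ‖v‖ / 10` and
`Φ x ∉ K`: `dF_far`, `om_pos`.  `exists_dif`. -/
theorem cut {Λ : Form1 E} {J : E → E →L[ℝ] E} {K : Set E} {Ψ P : E → E} (hA : Amb Λ J K)
    (hF : Fol J Ψ P) (R : ℝ) : ∃ Φ Φ' : E → E, Dif Φ Φ' ∧ FP Λ Φ ∧
      (∀ x : E, ‖x.1‖ ≤ R → Φ x = Ψ x) ∧ ((∀ x, (Ψ x).2 = x.2) → ∀ x, (Φ x).2 = x.2) := by
  obtain ⟨C, hC⟩ := hF.dec
  obtain ⟨R₂, h₂⟩ := hF.far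
  obtain ⟨B, hB⟩ := hA.cpt.isBounded.exists_norm_le
  obtain ⟨R', r1, r2, r3, r4⟩ : ∃ R' : ℝ, R ≤ R' ∧ 1 ≤ R' ∧ 20 * C ≤ R' ∧ B + 1 ≤ R' :=
    ⟨|R| + 20 * |C| + |B| + 1, by linarith [le_abs_self R, abs_nonneg C, abs_nonneg B],
      by linarith [abs_nonneg R, abs_nonneg C, abs_nonneg B],
      by linarith [abs_nonneg R, le_abs_self C, abs_nonneg B],
      by linarith [abs_nonneg R, abs_nonneg C, le_abs_self B]⟩
  obtain ⟨ψ, hψ, m, one, ⟨S, hS⟩, d⟩ := slow one_pos R'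
  obtain ⟨Φ, hΦ⟩ : ∃ Φ : E → E, Φ = fun x => x + ψ x.1 • (Ψ x - x) := ⟨_, rfl⟩
  have sm : ContDiff ℝ ∞ Φ :=
    hΦ ▸ contDiff_id.add ((hψ.comp contDiff_fst).smul (hF.sm.sub contDiff_id))
  have eq : ∀ x : E, ‖x.1‖ ≤ R' → Φ x = Ψ x := fun x hx => by
    simp only [hΦ, one _ hx, one_smul, add_sub_cancel]
  have near : ∀ x : E, ‖x.1‖ < R' → fderiv ℝ Φ x = fderiv ℝ Ψ x := fun x hx =>
    EventuallyEq.fderiv_eq (((isOpen_lt (continuous_fst.norm) continuous_const).eventually_mem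
      hx).mono fun y hy => eq y (le_of_lt hy))
  have far : ∀ x : E, R' ≤ ‖x.1‖ → Φ x ∉ K ∧ ∀ v, ‖fderiv ℝ Φ x v - v‖ ≤ ‖v‖ / 10 := fun x hx => by
    obtain ⟨c1, c2⟩ := hC x (r2.trans hx)
    have c0 : C / ‖x.1‖ ≤ 1 / 20 := by
      rw [div_le_iff₀ (by linarith)]
      linarith
    have m1 : ‖ψ x.1‖ ≤ 1 := abs_le.2 ⟨by linarith [(m x.1).1], (m x.1).2⟩
    refine ⟨fun hK => ?_, fun v => ?_⟩
    · have e1 : ‖Φ x - x‖ ≤ 1 * (1 / 20) := by
        simp only [hΦ, add_sub_cancel_left, norm_smul]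
        exact mul_le_mul m1 (c1.trans c0) (norm_nonneg _) zero_le_one
      linarith [hB _ hK, norm_sub_norm_le x (Φ x), norm_sub_rev x (Φ x), norm_fst_le x]
    have D := (hasFDerivAt_id x).add
      (((hψ.differentiable (by simp) x.1).hasFDerivAt.comp x hasFDerivAt_fst).smul
        ((hF.sm.differentiable (by simp) x).hasFDerivAt.sub (hasFDerivAt_id x)))
    have e : fderiv ℝ Φ x v - v = ψ x.1 • (fderiv ℝ Ψ x - ContinuousLinearMap.id ℝ E) v +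
        fderiv ℝ ψ x.1 v.1 • (Ψ x - x) := by
      rw [hΦ, show fderiv ℝ (fun x : E => x + ψ x.1 • (Ψ x - x)) x = _ from D.fderiv]
      simp
    have e1 := mul_le_mul m1 ((fderiv ℝ Ψ x - ContinuousLinearMap.id ℝ E).le_of_opNorm_le
      (c2.trans c0) v) (norm_nonneg _) zero_le_one
    have e2 : ‖fderiv ℝ ψ x.1 v.1‖ ≤ ‖v‖ := by
      linarith [d x.1 v.1, norm_fst_le v, Real.norm_eq_abs (fderiv ℝ ψ x.1 v.1),
        mul_nonneg (norm_nonneg x.1) (abs_nonneg (fderiv ℝ ψ x.1 v.1))]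
    have e3 := mul_le_mul e2 (c1.trans c0) (norm_nonneg _) (norm_nonneg _)
    rw [e]
    refine (norm_add_le _ _).trans ?_
    rw [norm_smul, norm_smul]
    linarith
  obtain ⟨Φ', hd⟩ := exists_dif sm (fun x => by
    rcases lt_or_ge ‖x.1‖ R' with hx | hx
    · rw [near x hx]
      exact (fol_inj hF x).1
    · refine (injective_iff_map_eq_zero _).2 fun v hv => norm_le_zero_iff.1 ?_
      have := (far x hx).2 v
      rw [hv, zero_sub, norm_neg] at this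
      linarith) ⟨max S R₂, fun x hx => by
    rcases le_max_iff.1 (hx.trans_eq (Prod.norm_def x)) with h | h
    · simp only [hΦ, hS _ ((le_max_left _ _).trans h), zero_smul, add_zero]
    · simp only [hΦ, h₂ _ ((le_max_right _ _).trans h), sub_self, smul_zero, add_zero]⟩
  refine ⟨Φ, Φ', hd, fun x => ?_, fun x hx => eq x (hx.trans r1), fun h x => by simp [hΦ, h x]⟩
  rcases lt_or_ge ‖x.1‖ R' with hx | hx
  · rw [near x hx, eq x hx.le]
    exact fol_fp hA hF x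
  · rw [dF_far hA (far x hx).1]
    exact om_pos (by simpa using (far x hx).2 (1, 0)) (by simpa using (far x hx).2 (Complex.I, 0))

end Pool.Agent.Lib.MP_7ed551_gt.Cy.G
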