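import Pool.Agent.Lib.MP_7ed551_gt.Cy.G.Base

/-! Pushing periodic functions forward along embeddings. -/

open scoped ContDiff ComplexConjugate Topology
open Set Real Filter Metric

noncomputable section

namespace Pool.Agent.Lib.MP_7ed551_gt.Cy.G

open Pool.Agent.Lib.MP_ccffa6_gt (Form1 dF pb px py JHol dF_apply dF_pb)

theorem Push1_zsmul {V W : Type} [AddCommGroup V] {g : V → W} {S : Set V} {c : V}
    (hS : ∀ x, x + c ∈ S ↔ x ∈ S) (h : ∀ x ∈ S, g (x + c) = g x) (n : ℤ) {x : V} (hx : x ∈ S) :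
    x + n • c ∈ S ∧ g (x + n • c) = g x := by
  induction n using Int.induction_on with
  | zero => simpa using hx
  | succ k ih =>
    rw [add_smul, one_smul, ← add_assoc]
    exact ⟨(hS _).2 ih.1, (h _ ih.1).trans ih.2⟩
  | pred k ih =>
    have e : x + (-(k : ℤ)) • c = x + (-(k : ℤ) - 1) • c + c := by
      rw [sub_smul, one_smul]
      abel
    rw [e] at ih
    exact ⟨(hS _).1 ih.1, (h _ ((hS _).1 ih.1)).symm.trans ih.2⟩

theorem Push1_cpt (a : ℝ) : IsCompact {z : ℂ | |z.re| ≤ a ∧ z.im ∈ Icc 0 (2 * π)} := by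
  refine (isCompact_closedBall (0 : ℂ) (a + 2 * π)).of_isClosed_subset
    (IsClosed.inter (isClosed_le Complex.continuous_re.abs continuous_const)
      (isClosed_Icc.preimage Complex.continuous_im) :) fun z hz => ?_
  rw [mem_closedBall_zero_iff]
  refine (Complex.norm_le_abs_re_add_abs_im z).trans (add_le_add hz.1 ?_)
  rw [abs_of_nonneg hz.2.1]
  exact hz.2.2

theorem per1_of {W : Type} {g : ℂ → W} {N : ℝ}
    (h : ∀ z ∈ Strip N, g (z + 2 * π * Complex.I) = g z) : Per1 g N := by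
  intro z hz n
  have a := (Push1_zsmul (S := Strip N) (fun x => by simp [Strip]) h n hz).2
  rwa [zsmul_eq_mul, mul_comm] at a

theorem per2_of {W : Type} {g : E → W} {N : ℝ}
    (h1 : ∀ x ∈ Box N, g (x + (2 * π * Complex.I, 0)) = g x)
    (h2 : ∀ x ∈ Box N, g (x + (0, 2 * π * Complex.I)) = g x) : Per2 g N := by
  intro x hx m n
  have a1 := Push1_zsmul (S := Box N) (fun x => by simp [Box]) h1 m hx
  have a2 := (Push1_zsmul (S := Box N) (fun x => by simp [Box]) h2 n a1.1).2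
  rw [← a1.2, ← a2]
  congr 1
  ext <;> simp [mul_comm]

theorem cht_per {J : E → E →L[ℝ] E} {Θ : E → E} {N : ℝ} (hc : Cht J Θ N) (Z : E) (m n : ℤ) :
    Θ (Z + (2 * π * Complex.I * m, 2 * π * Complex.I * n)) = Θ Z := by
  have a1 := (Push1_zsmul (S := univ) (fun x => by simp) (fun x _ => hc.per1 x) m (mem_univ Z)).2
  have a2 := (Push1_zsmul (S := univ) (fun x => by simp) (fun x _ => hc.per2 x) n
    (mem_univ (Z + m • (2 * π * Complex.I, 0)))).2
  rw [← a1, ← a2]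
  congr 1
  ext <;> simp [mul_comm]

theorem exists_red (z : ℂ) : ∃ n : ℤ, (z + 2 * π * Complex.I * n).im ∈ Icc 0 (2 * π) := by
  obtain ⟨n, hn, -⟩ := existsUnique_add_zsmul_mem_Ico two_pi_pos z.im 0
  refine ⟨n, ?_⟩
  have e : (z + 2 * π * Complex.I * n).im = z.im + n • (2 * π) := by
    simp [mul_comm]
  rw [e]
  exact ⟨hn.1, by simpa using hn.2.le⟩

theorem Per2.bound {W : Type} [NormedAddCommGroup W] {g : E → W} {N a : ℝ} (hp : Per2 g N)
    (hg : ContinuousOn g (Box N)) (ha : a < N) : ∃ R : ℝ, ∀ x ∈ Box a, ‖g x‖ ≤ R := by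
  obtain ⟨R, hR⟩ := ((Push1_cpt a).prod (Push1_cpt a)).exists_bound_of_continuousOn
    (hg.mono fun x hx => ⟨hx.1.1.trans_lt ha, hx.2.1.trans_lt ha⟩)
  refine ⟨R, fun x hx => ?_⟩
  obtain ⟨m, hm⟩ := exists_red x.1
  obtain ⟨n, hn⟩ := exists_red x.2
  rw [← hp x (box_mono ha.le hx) m n]
  have b := (add_mem_box m n).2 hx
  exact hR _ ⟨⟨b.1.le, hm⟩, b.2.le, hn⟩

theorem Per1.bound {W : Type} [NormedAddCommGroup W] {g : ℂ → W} {N a : ℝ} (hp : Per1 g N)
    (hg : ContinuousOn g (Strip N)) (ha : a < N) : ∃ R : ℝ, ∀ x ∈ Strip a, ‖g x‖ ≤ R := by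
  obtain ⟨R, hR⟩ := (Push1_cpt a).exists_bound_of_continuousOn
    (hg.mono fun x hx => hx.1.trans_lt ha)
  refine ⟨R, fun x hx => ?_⟩
  obtain ⟨n, hn⟩ := exists_red x
  rw [← hp x (strip_mono ha.le hx) n]
  exact hR _ ⟨le_of_lt ((add_mem_strip n).2 hx), hn⟩

theorem col_exp {r : ℝ} (hr : 0 < r) (N : ℝ) : Col (fun z => r * Complex.exp z) N := by
  have h0 : (r : ℂ) ≠ 0 := Complex.ofReal_ne_zero.2 hr.ne'
  refine ⟨(contDiff_const.mul Complex.contDiff_exp).contDiffOn, per1_of fun z _ => ?_,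
    fun e _ e' _ q => ?_, fun e _ => ?_⟩
  · rw [Complex.exp_add, Complex.exp_two_pi_mul_I, mul_one]
  · obtain ⟨n, hn⟩ := Complex.exp_eq_exp_iff_exists_int.1 (mul_left_cancel₀ h0 q).symm
    exact ⟨n, by rw [hn, mul_comm]⟩
  · rw [((Complex.hasDerivAt_exp e).const_mul (r : ℂ)).complexToReal_fderiv.fderiv]
    refine (injective_iff_map_eq_zero _).2 fun v hv => ?_
    simpa [h0] using hv

theorem emb_exp {r : ℝ} (hr : 0 < r) (N : ℝ) :
    Emb (fun x => (r * Complex.exp x.1, r * Complex.exp x.2)) N := by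
  have hc := col_exp hr N
  refine ⟨(hc.sm.comp contDiffOn_fst fun x hx => hx.1).prodMk
    (hc.sm.comp contDiffOn_snd fun x hx => hx.2),
    fun x hx m n => Prod.ext (hc.per x.1 hx.1 m) (hc.per x.2 hx.2 n), fun x hx y hy q => ?_,
    fun x hx => ?_⟩
  · obtain ⟨m, hm⟩ := hc.inj x.1 hx.1 y.1 hy.1 (congrArg Prod.fst q)
    obtain ⟨n, hn⟩ := hc.inj x.2 hx.2 y.2 hy.2 (congrArg Prod.snd q)
    exact ⟨m, n, Prod.ext hm hn⟩
  · have d := fun z : ℂ => ((Complex.hasDerivAt_exp z).const_mul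
      (r : ℂ)).complexToReal_fderiv.differentiableAt.hasFDerivAt
    have d1 := ((d x.1).comp x hasFDerivAt_fst).prodMk ((d x.2).comp x hasFDerivAt_snd)
    rw [show fderiv ℝ (fun x : E => (r * Complex.exp x.1, r * Complex.exp x.2)) x = _ from
      d1.fderiv]
    intro u v e
    exact Prod.ext (hc.imm x.1 hx.1 (congrArg Prod.fst e)) (hc.imm x.2 hx.2 (congrArg Prod.snd e))

end Pool.Agent.Lib.MP_7ed551_gt.Cy.G
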