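import Pool.Agent.Lib.MP_7ed551_gt.Cy.G.Push0
import Pool.Agent.Lib.MP_7ed551_gt.Cy.G.Push1

/-! Pushing periodic functions forward along embeddings. -/

open scoped ContDiff ComplexConjugate Topology
open Set Real Filter Metric

noncomputable section

namespace Pool.Agent.Lib.MP_7ed551_gt.Cy.G

open Pool.Agent.Lib.MP_ccffa6_gt (Form1 dF pb px py JHol dF_apply dF_pb)

theorem Push_aux {V W : Type} [NormedAddCommGroup V] [NormedSpace ℝ V] [FiniteDimensional ℝ V]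
    [NormedAddCommGroup W] [NormedSpace ℝ W] {U C : Set V} (hU : IsOpen U) (hC : IsCompact C)
    (hCU : C ⊆ U) {θ : V → V} (hθ : ContDiffOn ℝ ∞ θ U)
    (hi : ∀ x ∈ U, Function.Injective (fderiv ℝ θ x)) {g : V → W} (hg : ContDiffOn ℝ ∞ g U)
    (h1 : ∀ x ∈ U, ∀ y ∈ U, θ x = θ y → g x = g y) (h2 : ∀ x ∈ U, g x ≠ 0 → θ x ∈ θ '' C) :
    ∃ G : V → W, ContDiff ℝ ∞ G ∧ (∀ x ∈ U, G (θ x) = g x) ∧
      (∃ R : ℝ, ∀ y, R ≤ ‖y‖ → G y = 0) ∧ ∀ y, y ∉ θ '' U → ∀ᶠ y' in 𝓝 y, G y' = 0 := by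
  obtain ⟨G, g1, g2, g3⟩ := push hU hC hCU hθ hi hg h1 h2
  have hK : IsCompact (θ '' C) := hC.image_of_continuousOn (hθ.continuousOn.mono hCU)
  obtain ⟨R, hR⟩ := hK.isBounded.exists_norm_le
  refine ⟨G, g1, g2, ⟨R + 1, fun y hy => g3 y fun h => ?_⟩, fun y hy => ?_⟩
  · linarith [hR y h]
  · exact eventually_of_mem (hK.isClosed.isOpen_compl.mem_nhds fun h => hy (image_mono hCU h)) g3

theorem Push_cpt (a : ℝ) : IsCompact (Icc (-a) a ×ℂ Icc 0 (2 * π)) :=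
  isCompact_Icc.reProdIm isCompact_Icc

theorem Push_sub {a N : ℝ} (ha : a < N) : Icc (-a) a ×ℂ Icc 0 (2 * π) ⊆ Strip N :=
  fun _ hz => (abs_le.2 hz.1).trans_lt ha

theorem Push_red {a : ℝ} {z : ℂ} (h : |z.re| < a) :
    ∃ n : ℤ, z + 2 * π * Complex.I * n ∈ Icc (-a) a ×ℂ Icc 0 (2 * π) := by
  obtain ⟨n, hn⟩ := exists_red z
  exact ⟨n, by simpa using abs_le.1 h.le, hn⟩

/- `C = {|re| ≤ a, im ∈ [0, 2 π]}`. -/
theorem push1 {W : Type} [NormedAddCommGroup W] [NormedSpace ℝ W] {l : ℂ → ℂ} {N a : ℝ}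
    (hl : Col l N) (ha : a < N) {g : ℂ → W} (hg : ContDiffOn ℝ ∞ g (Strip N)) (hp : Per1 g N)
    (h0 : ∀ z ∈ Strip N, a ≤ |z.re| → g z = 0) :
    ∃ G : ℂ → W, ContDiff ℝ ∞ G ∧ (∀ z ∈ Strip N, G (l z) = g z) ∧
      (∃ R : ℝ, ∀ y, R ≤ ‖y‖ → G y = 0) ∧ ∀ y, y ∉ l '' Strip N → ∀ᶠ y' in 𝓝 y, G y' = 0 := by
  refine Push_aux (isOpen_strip N) (Push_cpt a) (Push_sub ha) hl.sm hl.imm hg
    (fun x hx y hy e => ?_) fun x hx h => ?_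
  · obtain ⟨n, rfl⟩ := hl.inj x hx y hy e
    exact (hp x hx n).symm
  · obtain ⟨n, hn⟩ := Push_red (not_le.1 fun h' => h (h0 x hx h'))
    exact ⟨_, hn, hl.per x hx n⟩

theorem push2 {W : Type} [NormedAddCommGroup W] [NormedSpace ℝ W] {θ : E → E} {N a : ℝ}
    (hθ : Emb θ N) (ha : a < N) {g : E → W} (hg : ContDiffOn ℝ ∞ g (Box N)) (hp : Per2 g N)
    (h0 : ∀ x ∈ Box N, a ≤ |x.1.re| ∨ a ≤ |x.2.re| → g x = 0) :
    ∃ G : E → W, ContDiff ℝ ∞ G ∧ (∀ x ∈ Box N, G (θ x) = g x) ∧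
      (∃ R : ℝ, ∀ y, R ≤ ‖y‖ → G y = 0) ∧ ∀ y, y ∉ θ '' Box N → ∀ᶠ y' in 𝓝 y, G y' = 0 := by
  refine Push_aux (isOpen_box N) ((Push_cpt a).prod (Push_cpt a))
    (fun x hx => ⟨Push_sub ha hx.1, Push_sub ha hx.2⟩) hθ.sm hθ.imm hg
    (fun x hx y hy e => ?_) fun x hx h => ?_
  · obtain ⟨m, n, rfl⟩ := hθ.inj x hx y hy e
    exact (hp x hx m n).symm
  · obtain ⟨m, hm⟩ := Push_red (not_le.1 fun h' => h (h0 x hx (Or.inl h')))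
    obtain ⟨n, hn⟩ := Push_red (not_le.1 fun h' => h (h0 x hx (Or.inr h')))
    exact ⟨x + (2 * π * Complex.I * m, 2 * π * Complex.I * n), ⟨hm, hn⟩, hθ.per x hx m n⟩

end Pool.Agent.Lib.MP_7ed551_gt.Cy.G
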