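import Pool.Agent.Lib.MP_7ed551_gt.Cy.G.Lin
import Pool.Agent.Lib.MP_7ed551_gt.Cy.G.Push

/-! The neck in the coordinates of the foliation. -/

open scoped ContDiff ComplexConjugate Topology
open Set Real Filter Metric

noncomputable section

namespace Pool.Agent.Lib.MP_7ed551_gt.Cy.G

open Pool.Agent.Lib.MP_ccffa6_gt (Form1 dF pb px py JHol dF_apply dF_pb)

variable {J : E → E →L[ℝ] E} {Θ Ψ P : E → E} {h : E → ℂ} {N δ : ℝ}

theorem Eta_int {W : Type} {φ : E → W} (h1 : ∀ Z, φ (Z + (2 * π * Complex.I, 0)) = φ Z)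
    (h2 : ∀ Z, φ (Z + (0, 2 * π * Complex.I)) = φ Z) (m n : ℤ) (Z : E) :
    φ (Z + (2 * π * Complex.I * m, 2 * π * Complex.I * n)) = φ Z := by
  have a1 := Function.Periodic.zsmul (f := φ) h1 m
  have a2 := Function.Periodic.zsmul (f := φ) h2 n
  rw [← a1 Z, ← a2 (Z + m • _)]
  congr 1
  ext <;> simp [mul_comm]

theorem gr_col (hF : Fol J Ψ P) (hc : Cht J Θ (N + 1)) (hg : Gr Θ P h N δ) :
    Col (fun e => (P (Θ (0, e))).2) N := by
  refine ⟨(hF.sm'.comp (hc.sm.comp (contDiff_const.prodMk contDiff_id))).snd.contDiffOn,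
    fun z _ n => ?_, hg.inj, hg.imm⟩
  have a := Eta_int hc.per1 hc.per2 0 n (0, z)
  simp only [Prod.mk_add_mk, Int.cast_zero, mul_zero, add_zero] at a
  simp only [a]

/- `imm`: differentiate `Gr.leaf` in the direction `(0, v)`. -/
theorem gr_mot (hF : Fol J Ψ P) (hc : Cht J Θ (N + 1)) (hg : Gr Θ P h N δ) : Mot h N δ := by
  classical
  refine ⟨hg.sm, hg.hol, hg.zero, fun x hx m n => ?_, hg.small, fun Z hZ e he e' he' q => ?_,
    fun x hx v hv => ?_⟩
  · have a := Eta_int (φ := fun x : E => if x ∈ Box N then h x - x.2 else 0) (fun Z => ?_)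
      (fun Z => ?_) m n x
    · simpa only [if_pos hx, if_pos ((add_mem_box m n).2 hx)] using a
    · have b : Z + (2 * π * Complex.I, 0) ∈ Box N ↔ Z ∈ Box N := by simp [Box]
      by_cases hZ : Z ∈ Box N
      · simp only [if_pos hZ, if_pos (b.2 hZ), hg.per1 Z hZ, Prod.snd_add, add_zero]
      · simp only [if_neg hZ, if_neg (mt b.1 hZ)]
    · have b : Z + (0, 2 * π * Complex.I) ∈ Box N ↔ Z ∈ Box N := by simp [Box]
      by_cases hZ : Z ∈ Box N
      · simp only [if_pos hZ, if_pos (b.2 hZ), hg.per2 Z hZ, Prod.snd_add, add_sub_add_right_eq_sub]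
      · simp only [if_neg hZ, if_neg (mt b.1 hZ)]
  · refine hg.inj e he e' he' ?_
    have a1 := hg.leaf (Z, e) ⟨hZ, he⟩
    have a2 := hg.leaf (Z, e') ⟨hZ, he'⟩
    simp only [q] at a1
    exact a1.symm.trans a2
  · have hb := (isOpen_box N).mem_nhds hx
    have dh : HasFDerivAt h (fderiv ℝ h x) x :=
      ((hg.sm.contDiffAt hb).differentiableAt (by simp)).hasFDerivAt
    have dG : Differentiable ℝ fun y : E => (P (Θ y)).2 :=
      (hF.sm'.comp hc.sm).snd.differentiable (by simp)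
    have d1 := (dG (x.1, h x)).hasFDerivAt.comp x (hasFDerivAt_fst.prodMk dh)
    have dl : DifferentiableAt ℝ (fun e : ℂ => (P (Θ (0, e))).2) x.2 :=
      (dG _).comp x.2 ((differentiableAt_const _).prodMk differentiableAt_id)
    have d2 := dl.hasFDerivAt.comp x hasFDerivAt_snd
    have e1 := (d1.congr_of_eventuallyEq (Filter.eventually_of_mem hb fun y hy =>
      (hg.leaf y hy).symm)).unique d2
    have e2 := DFunLike.congr_fun e1 (0, v)
    simp only [ContinuousLinearMap.comp_apply, ContinuousLinearMap.prod_apply,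
      ContinuousLinearMap.coe_fst', ContinuousLinearMap.coe_snd', hv, Prod.mk_zero_zero,
      map_zero] at e2
    exact hg.imm x.2 hx.2 (e2.symm.trans (map_zero _).symm)

theorem Eta_mem (hg : Gr Θ P h N δ) (hδ : δ ≤ 1) {x : E} (hx : x ∈ Box N) :
    (x.1, h x) ∈ Box (N + 1) := by
  refine ⟨hx.1.trans (lt_add_one N), ?_⟩
  have a1 := (Complex.abs_re_le_norm (h x - x.2)).trans (hg.small x hx)
  have a2 := hx.2
  rw [Complex.sub_re, abs_le] at a1
  rw [abs_lt] at a2 ⊢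
  constructor <;> linarith [a1.1, a1.2, a2.1, a2.2]

theorem gr_emb (hF : Fol J Ψ P) (hc : Cht J Θ (N + 1)) (hg : Gr Θ P h N δ) (hδ : δ ≤ 1) :
    Emb (fun x => P (Θ (x.1, h x))) N := by
  have hm := gr_mot hF hc hg
  have hp : ∀ x ∈ Box N, ∀ m n : ℤ, h (x + (2 * π * Complex.I * m, 2 * π * Complex.I * n)) =
      h x + 2 * π * Complex.I * n := fun x hx m n => by
    have a := hm.per x hx m n
    simp only [Prod.snd_add] at a
    linear_combination a
  refine ⟨(hF.sm'.comp hc.sm).comp_contDiffOn (contDiffOn_fst.prodMk hg.sm), fun x hx m n => ?_,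
    fun x hx y hy q => ?_, fun x hx => ?_⟩
  · have a := Eta_int hc.per1 hc.per2 m n (x.1, h x)
    simp only [Prod.mk_add_mk] at a
    simp only [hp x hx, Prod.fst_add, a]
  · have q1 : Θ (x.1, h x) = Θ (y.1, h y) := by
      rw [← hF.right (Θ (x.1, h x)), q, hF.right]
    obtain ⟨m, n, e⟩ := hc.inj _ (Eta_mem hg hδ hx) _ (Eta_mem hg hδ hy) q1
    simp only [Prod.mk_add_mk, Prod.mk.injEq] at e
    obtain ⟨n', e'⟩ := hm.inj y.1 hy.1 (x.2 + 2 * π * Complex.I * n) ((add_mem_strip n).2 hx.2)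
      y.2 hy.2 (by rw [Prod.mk.eta, e.2, ← hp x hx m n, e.1]; rfl)
    refine ⟨m, n + n', Prod.ext e.1 ?_⟩
    simp only [e', Prod.snd_add, Int.cast_add]
    ring
  · have dh : HasFDerivAt h (fderiv ℝ h x) x :=
      ((hg.sm.contDiffAt ((isOpen_box N).mem_nhds hx)).differentiableAt (by simp)).hasFDerivAt
    have d1 := (hF.sm'.differentiable (by simp) (Θ (x.1, h x))).hasFDerivAt.comp x
      ((hc.sm.differentiable (by simp) (x.1, h x)).hasFDerivAt.comp x (hasFDerivAt_fst.prodMk dh))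
    rw [show fderiv ℝ (fun x : E => P (Θ (x.1, h x))) x = _ from d1.fderiv]
    refine (injective_iff_map_eq_zero _).2 fun v hv => ?_
    have a1 := (injective_iff_map_eq_zero _).1 (hc.imm _ (Eta_mem hg hδ hx)) _
      ((injective_iff_map_eq_zero _).1 (fol_inj hF _).2 _ hv)
    have a2 : v.1 = 0 := congrArg Prod.fst a1
    have a3 : fderiv ℝ h x v = 0 := congrArg Prod.snd a1
    refine Prod.ext a2 (hm.imm x hx v.2 ?_)
    rw [show ((0 : ℂ), v.2) = v from Prod.ext a2.symm rfl]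
    exact a3

/- `fol_hol` for `v Z = Θ (Z, h (Z, e))`. -/
theorem gr_hol (hF : Fol J Ψ P) (hc : Cht J Θ (N + 1)) (hg : Gr Θ P h N δ) (hδ : δ ≤ 1) {e : ℂ}
    (he : e ∈ Strip N) : DifferentiableOn ℂ (fun Z => (P (Θ (Z, h (Z, e)))).1) (Strip N) := by
  intro z hz
  have hb := (isOpen_strip N).mem_nhds hz
  have dk := ((hg.hol e he).differentiableAt hb).hasDerivAt.complexToReal_fderiv
  have d1 := (hc.sm.differentiable (by simp) (z, h (z, e))).hasFDerivAt.comp z
    ((hasFDerivAt_id z).prodMk dk)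
  refine (fol_hol hF (v := fun Z => Θ (Z, h (Z, e))) (c := (P (Θ (0, e))).2) d1.differentiableAt
    (Filter.eventually_of_mem hb fun y hy => hg.leaf (y, e) ⟨hy, he⟩) ?_).differentiableWithinAt
  rw [py, px, show fderiv ℝ (fun Z => Θ (Z, h (Z, e))) z = _ from d1.fderiv]
  simp only [ContinuousLinearMap.comp_apply]
  rw [hc.hol _ (Eta_mem hg hδ (x := (z, e)) ⟨hz, he⟩)]
  congr 1
  ext <;> simp [mul_comm]

theorem gr_fib (hF : Fol J Ψ P) (hc : Cht J Θ (N + 1)) (hg : Gr Θ P h N δ) (hδ : δ ≤ 1) {x : E}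
    (hx : x ∈ Box N) : ∃ a : ℂ, fderiv ℝ (fun x : E => P (Θ (x.1, h x))) x (1, 0) = (a, 0) ∧
      fderiv ℝ (fun x : E => P (Θ (x.1, h x))) x (Complex.I, 0) = (Complex.I * a, 0) := by
  have hb := (isOpen_strip N).mem_nhds hx.1
  have d1 := ((gr_hol hF hc hg hδ hx.2).differentiableAt hb).hasDerivAt.complexToReal_fderiv
  have d2 : HasFDerivAt (fun Z => (P (Θ (Z, h (Z, x.2)))).2) (0 : ℂ →L[ℝ] ℂ) x.1 :=
    (hasFDerivAt_const (P (Θ (0, x.2))).2 x.1).congr_of_eventuallyEq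
      (Filter.eventually_of_mem hb fun y hy => hg.leaf (y, x.2) ⟨hy, hx.2⟩)
  have d3 : HasFDerivAt (fun x : E => P (Θ (x.1, h x))) _ (x.1, x.2) :=
    (((gr_emb hF hc hg hδ).sm.contDiffAt ((isOpen_box N).mem_nhds hx)).differentiableAt
      (by simp)).hasFDerivAt
  have d4 := d3.comp (f := fun Z : ℂ => (Z, x.2)) x.1
    ((hasFDerivAt_id (𝕜 := ℝ) x.1).prodMk (hasFDerivAt_const x.2 x.1))
  have e := d4.unique (d1.prodMk d2)
  refine ⟨deriv (fun Z => (P (Θ (Z, h (Z, x.2)))).1) x.1, ?_, ?_⟩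
  · simpa using DFunLike.congr_fun e 1
  · simpa [mul_comm] using DFunLike.congr_fun e Complex.I

end Pool.Agent.Lib.MP_7ed551_gt.Cy.G
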