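import Pool.Agent.Lib.MP_7ed551_gt.Cy.G.Lin0

/-! Fibre preserving maps and positivity on the fibres. -/

open scoped ContDiff ComplexConjugate Topology
open Set Real Filter Metric

noncomputable section

namespace Pool.Agent.Lib.MP_7ed551_gt.Cy.G

open Pool.Agent.Lib.MP_ccffa6_gt (Form1 dF pb px py JHol dF_apply dF_pb)

theorem dF_far {Λ : Form1 E} {J : E → E →L[ℝ] E} {K : Set E} (h : Amb Λ J K) {x : E} (hx : x ∉ K)
    (u v : E) : dF Λ x u v = om u v := by
  have e : Λ =ᶠ[𝓝 x] lam0 :=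
    Filter.eventually_of_mem (h.cpt.isClosed.isOpen_compl.mem_nhds hx) fun y hy => h.farΛ y hy
  rw [← dF_lam0 x u v, dF_apply, dF_apply, e.fderiv_eq]

theorem Lin_inj {F G : E → E} (hF : ContDiff ℝ ∞ F) (hG : ContDiff ℝ ∞ G) (l : ∀ x, G (F x) = x)
    (x : E) : Function.Injective (fderiv ℝ F x) := by
  have h1 := (hG.differentiable (by simp) (F x)).hasFDerivAt.comp x
    (hF.differentiable (by simp) x).hasFDerivAt
  have h2 : G ∘ F = id := funext l
  rw [h2] at h1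
  have h3 := h1.unique (hasFDerivAt_id x)
  exact Function.LeftInverse.injective (g := fderiv ℝ G (F x)) fun v => DFunLike.congr_fun h3 v

theorem fol_inj {J : E → E →L[ℝ] E} {Ψ P : E → E} (h : Fol J Ψ P) (x : E) :
    Function.Injective (fderiv ℝ Ψ x) ∧ Function.Injective (fderiv ℝ P x) :=
  ⟨Lin_inj h.sm h.sm' h.left x, Lin_inj h.sm' h.sm h.right x⟩

theorem Lin_leaf {J : E → E →L[ℝ] E} {Ψ P : E → E} (h : Fol J Ψ P) (x : E) (a : ℂ) :
    fderiv ℝ Ψ x (Complex.I * a, 0) = J (Ψ x) (fderiv ℝ Ψ x (a, 0)) := by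
  have d : HasFDerivAt (fun ζ => Ψ (ζ, x.2))
      ((fderiv ℝ Ψ x).comp (ContinuousLinearMap.inl ℝ ℂ ℂ)) x.1 :=
    (h.sm.differentiable (by simp) x).hasFDerivAt.comp x.1 (hasFDerivAt_prodMk_left x.1 x.2)
  obtain ⟨h1, h2⟩ := h.hol x.2 x.1 (mem_univ _)
  simp only [px, py, d.fderiv, ContinuousLinearMap.comp_apply, ContinuousLinearMap.inl_apply,
    Prod.mk.eta] at h1 h2
  have e1 : ((a, 0) : E) = a.re • ((1, 0) : E) + a.im • ((Complex.I, 0) : E) := by
    ext <;> simp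
  have e2 : ((Complex.I * a, 0) : E) = a.re • ((Complex.I, 0) : E) - a.im • ((1, 0) : E) := by
    ext <;> simp [Complex.ext_iff]
  have h3 : J (Ψ x) (fderiv ℝ Ψ x (Complex.I, 0)) = -fderiv ℝ Ψ x (1, 0) := by
    rw [h2]; simp
  rw [e1, e2]
  simp only [map_add, map_sub, map_smul, ← h1, h3]
  rw [smul_neg, sub_eq_add_neg]

theorem fol_fp {Λ : Form1 E} {J : E → E →L[ℝ] E} {K : Set E} {Ψ P : E → E} (hA : Amb Λ J K)
    (h : Fol J Ψ P) : FP Λ Ψ := by
  intro x
  have e := Lin_leaf h x 1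
  rw [mul_one] at e
  rw [e]
  refine hA.tame _ _ fun z => ?_
  have := (fol_inj h x).1 (z.trans (map_zero _).symm)
  simp at this

theorem fol_hol {J : E → E →L[ℝ] E} {Ψ P : E → E} (h : Fol J Ψ P) {v : ℂ → E} {z c : ℂ}
    (hv : DifferentiableAt ℝ v z) (hc : ∀ᶠ y in 𝓝 z, (P (v y)).2 = c)
    (hJ : py v z = J (v z) (px v z)) : DifferentiableAt ℂ (fun y => (P (v y)).1) z := by
  have df : DifferentiableAt ℝ (fun y => (P (v y)).1) z :=
    ((h.sm'.differentiable (by simp) (v z)).comp z hv).fst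
  refine differentiableAt_complex_iff_differentiableAt_real.2 ⟨df, ?_⟩
  have e : v =ᶠ[𝓝 z] fun y => Ψ ((P (v y)).1, c) := by
    filter_upwards [hc] with y hy
    rw [← hy, Prod.mk.eta, h.right]
  have x0 : ((P (v z)).1, c) = P (v z) := by rw [← hc.self_of_nhds]
  have d : HasFDerivAt v ((fderiv ℝ Ψ (P (v z))).comp
      ((fderiv ℝ (fun y => (P (v y)).1) z).prod 0)) z := by
    refine HasFDerivAt.congr_of_eventuallyEq ?_ e
    have d1 := (h.sm.differentiable (by simp) ((P (v z)).1, c)).hasFDerivAt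
    rw [← x0]
    exact d1.comp z (df.hasFDerivAt.prodMk (hasFDerivAt_const c z))
  simp only [px, py, d.fderiv, ContinuousLinearMap.comp_apply, ContinuousLinearMap.prod_apply,
    zero_apply] at hJ
  have l := Lin_leaf h (P (v z)) (fderiv ℝ (fun y => (P (v y)).1) z 1)
  rw [h.right, ← hJ] at l
  exact (congrArg Prod.fst ((fol_inj h _).1 l)).symm

end Pool.Agent.Lib.MP_7ed551_gt.Cy.G
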