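import Pool.Agent.Lib.MP_7ed551_gt.Cy.G.Base

/-! Fibre preserving maps and positivity on the fibres. -/

open scoped ContDiff ComplexConjugate Topology
open Set Real Filter Metric

noncomputable section

namespace Pool.Agent.Lib.MP_7ed551_gt.Cy.G

open Pool.Agent.Lib.MP_ccffa6_gt (Form1 dF pb px py JHol dF_apply dF_pb)

theorem Lin0_dec (L : E →L[ℝ] E) (a : ℂ) :
    L (a, 0) = a.re • L (1, 0) + a.im • L (Complex.I, 0) := by
  rw [← map_smul, ← map_smul, ← map_add]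
  congr 1
  refine Prod.ext ?_ (by simp)
  apply Complex.ext <;> simp

/- Write `(a, 0) = a.re • (1, 0) + a.im • (I, 0)`; `dF` is bilinear and alternating. -/
theorem dF_fib (Λ : Form1 E) (y : E) (L : E →L[ℝ] E) (a b : ℂ) :
    dF Λ y (L (a, 0)) (L (b, 0)) = w1 a b * dF Λ y (L (1, 0)) (L (Complex.I, 0)) := by
  rw [Lin0_dec L a, Lin0_dec L b]
  simp only [dF_apply, map_add, map_smul, add_apply,
    smul_apply, smul_eq_mul, w1]
  ring

theorem w1_fib (L : E →L[ℝ] E) (a b : ℂ) :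
    w1 (L (a, 0)).1 (L (b, 0)).1 = w1 a b * w1 (L (1, 0)).1 (L (Complex.I, 0)).1 := by
  rw [Lin0_dec L a, Lin0_dec L b]
  simp only [w1, Prod.fst_add, Prod.smul_fst, Complex.add_re, Complex.add_im, Complex.smul_re,
    Complex.smul_im, smul_eq_mul]
  ring

theorem abs_w1_le (a b : ℂ) : |w1 a b| ≤ ‖a‖ * ‖b‖ := by
  have h : w1 a b = (conj a * b).im := by
    simp only [w1, Complex.mul_im, Complex.conj_re, Complex.conj_im]
    ring
  rw [h]
  refine (Complex.abs_im_le_norm _).trans ?_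
  rw [norm_mul, Complex.norm_conj]

theorem om_pos {u v : E} (hu : ‖u - (1, 0)‖ ≤ 1 / 10) (hv : ‖v - (Complex.I, 0)‖ ≤ 1 / 10) :
    0 < om u v := by
  have a1 := (norm_fst_le (u - (1, 0))).trans hu
  have a2 := (norm_snd_le (u - (1, 0))).trans hu
  have b1 := (norm_fst_le (v - (Complex.I, 0))).trans hv
  have b2 := (norm_snd_le (v - (Complex.I, 0))).trans hv
  simp only [Prod.fst_sub, Prod.snd_sub, sub_zero] at a1 a2 b1 b2
  have c1 := abs_le.1 ((Complex.abs_re_le_norm _).trans a1)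
  have c2 := abs_le.1 ((Complex.abs_im_le_norm _).trans a1)
  have d1 := abs_le.1 ((Complex.abs_re_le_norm _).trans b1)
  have d2 := abs_le.1 ((Complex.abs_im_le_norm _).trans b1)
  simp only [Complex.sub_re, Complex.sub_im, Complex.one_re, Complex.one_im, Complex.I_re,
    Complex.I_im, sub_zero] at c1 c2 d1 d2
  have e1 := (abs_le.1 ((abs_w1_le u.2 v.2).trans
    (mul_le_mul a2 b2 (norm_nonneg _) (by norm_num)))).1
  have e2 : (9 / 10 : ℝ) * (9 / 10) ≤ u.1.re * v.1.im :=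
    mul_le_mul (by linarith [c1.1]) (by linarith [d2.1]) (by norm_num) (by linarith [c1.1])
  have e3 : u.1.im * v.1.re ≤ 1 / 10 * (1 / 10) := by
    refine (le_abs_self _).trans ?_
    rw [abs_mul]
    exact mul_le_mul (abs_le.2 c2) (abs_le.2 d1) (abs_nonneg _) (by norm_num)
  have e4 : w1 u.1 v.1 = u.1.re * v.1.im - u.1.im * v.1.re := rfl
  rw [om, e4]
  linarith

theorem fderiv_snd {F : E → E} {x : E} (hF : DifferentiableAt ℝ F x) (h : ∀ y, (F y).2 = y.2)
    (v : E) : (fderiv ℝ F x v).2 = v.2 := by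
  have h1 := hF.hasFDerivAt.snd
  have h2 : (fun y => (F y).2) = Prod.snd := funext h
  rw [h2] at h1
  have h3 := h1.unique hasFDerivAt_snd
  exact DFunLike.congr_fun h3 v

theorem Lin0_chain {Φ F F' : E → E} (hΦ : ContDiff ℝ ∞ Φ) (hF : FD F F') (x : E) (a : ℂ) :
    fderiv ℝ (fun x => Φ (F x)) x (a, 0) = fderiv ℝ Φ (F x) ((fderiv ℝ F x (a, 0)).1, 0) := by
  have h1 := hF.dif.sm.differentiable (by simp) x
  have h2 := ((hΦ.differentiable (by simp) (F x)).hasFDerivAt.comp x h1.hasFDerivAt).fderiv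
  have h3 : ((fderiv ℝ F x (a, 0)).1, (0 : ℂ)) = fderiv ℝ F x (a, 0) :=
    Prod.ext rfl (fderiv_snd h1 hF.snd (a, 0)).symm
  rw [h3]
  exact DFunLike.congr_fun h2 (a, 0)

theorem FD.comp {F F' G G' : E → E} (hF : FD F F') (hG : FD G G') :
    FD (fun x => F (G x)) (fun x => G' (F' x)) := by
  refine ⟨hF.dif.comp hG.dif, fun x => (hF.snd _).trans (hG.snd x), fun x => ?_⟩
  rw [Lin0_chain hF.dif.sm hG x, Lin0_chain hF.dif.sm hG x, w1_fib]
  exact mul_pos (hG.pos x) (hF.pos _)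

theorem FP.comp {Λ : Form1 E} {Φ F F' : E → E} (h : FP Λ Φ) (hΦ : ContDiff ℝ ∞ Φ) (hF : FD F F') :
    FP Λ fun x => Φ (F x) := by
  intro x
  rw [Lin0_chain hΦ hF x, Lin0_chain hΦ hF x, dF_fib]
  exact mul_pos (hF.pos x) (h _)

theorem FP.fibPos {Λ : Form1 E} {Φ : E → E} (h : FP Λ Φ) (hΛ : ContDiff ℝ ∞ Λ)
    (hΦ : ContDiff ℝ ∞ Φ) : FibPos (pb Φ Λ) := by
  intro x
  rw [dF_pb (hΦ.contDiffAt.of_le (by norm_cast)) (hΛ.differentiable (by simp) _)]
  exact h x

/- `exists_dif` for `x ↦ (F x, x.2)`. -/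
theorem FD.of_near {F : E → ℂ} (hF : ContDiff ℝ ∞ F) (far : ∃ R : ℝ, ∀ x, R ≤ ‖x‖ → F x = x.1)
    (h : ∀ x, ∃ l : ℂ, l ≠ 0 ∧ ∀ v, ‖fderiv ℝ F x (v, 0) - l * v‖ ≤ ‖l‖ * ‖v‖ / 4) :
    ∃ F' : E → E, FD (fun x => (F x, x.2)) F' := by
  have hs : ContDiff ℝ ∞ fun x : E => (F x, x.2) := hF.prodMk contDiff_snd
  have hd : ∀ x v : E, fderiv ℝ (fun x : E => (F x, x.2)) x v = (fderiv ℝ F x v, v.2) := by
    intro x v
    rw [((hF.differentiable (by simp) x).hasFDerivAt.prodMk hasFDerivAt_snd).fderiv]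
    rfl
  obtain ⟨G, hG⟩ := exists_dif hs (fun x => by
      refine (injective_iff_map_eq_zero _).2 fun v hv => ?_
      rw [hd] at hv
      have h2 : v.2 = 0 := congrArg Prod.snd hv
      have h1 : fderiv ℝ F x v = 0 := congrArg Prod.fst hv
      obtain ⟨l, hl, h3⟩ := h x
      have h4 := h3 v.1
      have h5 : ((v.1, 0) : E) = v := Prod.ext rfl h2.symm
      rw [h5, h1, zero_sub, norm_neg, norm_mul] at h4
      have h6 := norm_pos_iff.2 hl
      have h7 : ‖v.1‖ ≤ 0 := by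
        by_contra h8
        have := mul_pos h6 (not_le.1 h8)
        linarith
      exact Prod.ext (norm_le_zero_iff.1 h7) h2) (by
      obtain ⟨R, hR⟩ := far
      exact ⟨R, fun x hx => Prod.ext (hR x hx) rfl⟩)
  refine ⟨G, hG, fun _ => rfl, fun x => ?_⟩
  rw [hd, hd]
  obtain ⟨l, hl, h3⟩ := h x
  have h1 := h3 1
  have h2 := h3 Complex.I
  rw [norm_one, mul_one, mul_one] at h1
  rw [Complex.norm_I, mul_one] at h2
  have h6 := norm_pos_iff.2 hl
  set p := fderiv ℝ F x (1, 0) - l with hp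
  set r := fderiv ℝ F x (Complex.I, 0) - l * Complex.I with hr
  have e1 : fderiv ℝ F x (1, 0) = l + p := by rw [hp]; ring
  have e2 : fderiv ℝ F x (Complex.I, 0) = l * Complex.I + r := by rw [hr]; ring
  have e3 : w1 (l + p) (l * Complex.I + r) =
      ‖l‖ * ‖l‖ + w1 l r + w1 p (l * Complex.I) + w1 p r := by
    rw [Complex.norm_mul_self_eq_normSq l]
    simp only [w1, Complex.add_re, Complex.add_im, Complex.mul_re, Complex.mul_im, Complex.I_re,
      Complex.I_im, Complex.normSq_apply]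
    ring
  have f1 := (abs_le.1 ((abs_w1_le l r).trans (mul_le_mul_of_nonneg_left h2 h6.le))).1
  have f2 := (abs_le.1 ((abs_w1_le p (l * Complex.I)).trans
    (mul_le_mul_of_nonneg_right h1 (norm_nonneg _)))).1
  rw [norm_mul, Complex.norm_I, mul_one] at f2
  have f3 := (abs_le.1 ((abs_w1_le p r).trans
    (mul_le_mul h1 h2 (norm_nonneg _) (by positivity)))).1
  change 0 < w1 (fderiv ℝ F x (1, 0)) (fderiv ℝ F x (Complex.I, 0))
  rw [e1, e2, e3]
  have := mul_pos h6 h6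
  linarith

end Pool.Agent.Lib.MP_7ed551_gt.Cy.G
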