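import Pool.Agent.Lib.MP_7ed551_gt.Cy.G.Loop0

/-! Loops of long annuli are images of the product torus. -/

open scoped ContDiff ComplexConjugate Topology
open Set Real Filter Metric

noncomputable section

namespace Pool.Agent.Lib.MP_7ed551_gt.Cy.G

open Pool.Agent.Lib.MP_ccffa6_gt (Form1 dF pb px py JHol dF_apply dF_pb)

theorem Loop_neg_mem {N : ℝ} {z : ℂ} (hz : z ∈ Strip N) : -z ∈ Strip N := by
  simpa [Strip] using hz

theorem Loop_neg {g : ℂ × ℝ → ℂ} {N : ℝ} (h : Lp g N) : Lp (fun p => g (-p.1, p.2)) N := by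
  refine ⟨?_, fun t => ?_, fun t z hz n => ?_, fun Z hZ t => h.pert _ (Loop_neg_mem hZ) t⟩
  · refine h.sm.comp (f := fun p : ℂ × ℝ => (-p.1, p.2)) (by fun_prop) ?_
    intro p hp
    exact ⟨Loop_neg_mem hp.1, trivial⟩
  · exact (h.hol t).comp (f := fun Z : ℂ => -Z) (by fun_prop) fun z hz => Loop_neg_mem hz
  · have := h.per t (-z) (Loop_neg_mem hz) (-n)
    simp only at this ⊢
    rw [← this]
    congr 2
    push_cast
    ring

theorem Loop_big {a b : ℂ} (ha : a ≠ 0) (h : ‖b - a * Complex.exp (((1 : ℤ) : ℂ) * 1)‖ ≤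
    1 / 2 * ‖a‖) : ‖a‖ < ‖b‖ := by
  have h0 : 0 < ‖a‖ := norm_pos_iff.2 ha
  have h1 : ‖a * Complex.exp (((1 : ℤ) : ℂ) * 1)‖ = ‖a‖ * Real.exp 1 := by
    rw [norm_mul, Complex.norm_exp]
    simp
  have h2 := norm_sub_norm_le (a * Complex.exp (((1 : ℤ) : ℂ) * 1)) b
  rw [norm_sub_rev, h1] at h2
  have h3 : (2 : ℝ) ≤ Real.exp 1 := by
    have := Real.add_one_le_exp (1 : ℝ)
    linarith
  have h4 := mul_le_mul_of_nonneg_left h3 h0.le
  have h5 : ‖a‖ * Real.exp 1 - ‖b‖ ≤ 1 / 2 * ‖a‖ := h2.trans h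
  linarith

theorem Loop_small {a b : ℂ} (ha : a ≠ 0) (h : ‖b - a * Complex.exp (((-1 : ℤ) : ℂ) * 1)‖ ≤
    1 / 2 * ‖a‖) : ‖b‖ < ‖a‖ := by
  have h0 : 0 < ‖a‖ := norm_pos_iff.2 ha
  have h1 : ‖a * Complex.exp (((-1 : ℤ) : ℂ) * 1)‖ = ‖a‖ * Real.exp (-1) := by
    rw [norm_mul, Complex.norm_exp]
    simp
  have h2 := norm_sub_norm_le b (a * Complex.exp (((-1 : ℤ) : ℂ) * 1))
  rw [h1] at h2
  have h3 : Real.exp (-1) < 1 / 2 := by
    rw [Real.exp_neg, one_div]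
    refine inv_strictAnti₀ (by norm_num) ?_
    have := Real.add_one_lt_exp (x := 1) one_ne_zero
    linarith
  have h4 := mul_lt_mul_of_pos_left h3 h0
  have h5 : ‖b‖ - ‖a‖ * Real.exp (-1) ≤ 1 / 2 * ‖a‖ := h2.trans h
  linarith

/- `round` with `min ε (1 / 2)`.  The sign `s` is `1` exactly when `‖∂g (1, t)‖ > ‖∂g (0, t)‖`, and
the two norms are never equal, so `s` does not depend on `t`.  For `s = -1` apply `loop` to
`(Z, t) ↦ g (-Z, t)`. -/
theorem rnd : ∃ N : ℝ, 3 ≤ N ∧ ∀ (r : ℝ) (g : ℂ × ℝ → ℂ), 0 < r → Lp g N →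
    (∀ t, ∀ z ∈ Strip N, ∀ z' ∈ Strip N, g (z, t) = g (z', t) →
      ∃ n : ℤ, z' = z + 2 * π * Complex.I * n) →
    ∃ (F F' : E → E) (s n : ℤ), (s = 1 ∨ s = -1) ∧ FD F F' ∧ ∀ t θ : ℝ, F (std r (t, θ)) =
      (g (((s * θ + n * t : ℝ) : ℂ) * Complex.I, t), (std r (t, θ)).2) := by
  obtain ⟨ε, hε, hloop⟩ := loop
  obtain ⟨N, hN, hround⟩ := round (ε := min ε (1 / 2)) (lt_min hε (by norm_num))
  refine ⟨N, hN, fun r g hr hg hi => ?_⟩
  have hR := fun t => hround (fun Z => g (Z, t)) (hg.hol t) (hg.per t) (hi t)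
  have h0 : ∀ t, deriv (fun Z => g (Z, t)) 0 ≠ 0 := fun t => (hR t).1
  choose s hs hb using fun t => (hR t).2
  have hbe : ∀ t, ∀ z ∈ Strip 2, ‖deriv (fun Z => g (Z, t)) z -
      deriv (fun Z => g (Z, t)) 0 * Complex.exp (s t * z)‖ ≤
        ε * ‖deriv (fun Z => g (Z, t)) 0‖ := fun t z hz =>
    (hb t z hz).trans (mul_le_mul_of_nonneg_right (min_le_left _ _) (norm_nonneg _))
  have h1 : (1 : ℂ) ∈ Strip 2 := by simp [Strip]
  have hb1 : ∀ t, ‖deriv (fun Z => g (Z, t)) 1 -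
      deriv (fun Z => g (Z, t)) 0 * Complex.exp (s t * 1)‖ ≤
        1 / 2 * ‖deriv (fun Z => g (Z, t)) 0‖ := fun t =>
    (hb t 1 h1).trans (mul_le_mul_of_nonneg_right (min_le_right _ _) (norm_nonneg _))
  have hbig : ∀ t, s t = 1 →
      ‖deriv (fun Z => g (Z, t)) 0‖ < ‖deriv (fun Z => g (Z, t)) 1‖ := fun t ht =>
    Loop_big (h0 t) (ht ▸ hb1 t)
  have hsmall : ∀ t, s t = -1 →
      ‖deriv (fun Z => g (Z, t)) 1‖ < ‖deriv (fun Z => g (Z, t)) 0‖ := fun t ht =>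
    Loop_small (h0 t) (ht ▸ hb1 t)
  have h2N : (2 : ℝ) ≤ N := by linarith
  have c0 : Continuous fun t : ℝ => ‖deriv (fun Z => g (Z, t)) 0‖ :=
    (hg.contDiff_deriv (strip_mono h2N (by simp [Strip]))).continuous.norm
  have c1 : Continuous fun t : ℝ => ‖deriv (fun Z => g (Z, t)) 1‖ :=
    (hg.contDiff_deriv (strip_mono h2N h1)).continuous.norm
  have hne : ∀ a b, s a = 1 → s b = -1 → False := by
    intro a b ha hb'
    obtain ⟨t, ht⟩ := intermediate_value_univ₂ c0 c1 (hbig a ha).le (hsmall b hb').le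
    rcases hs t with h | h
    · exact (hbig t h).ne ht
    · exact (hsmall t h).ne' ht
  rcases hs 0 with h | h
  · have hall : ∀ t, s t = 1 := fun t => (hs t).resolve_right fun h' => hne 0 t h h'
    obtain ⟨F, F', n, hF, hstd⟩ := hloop r g hr (hg.mono h2N) fun t => ⟨h0 t, fun Z hZ => by
      have := hbe t Z hZ
      rwa [hall t, Int.cast_one, one_mul] at this⟩
    refine ⟨F, F', 1, n, Or.inl rfl, hF, fun t θ => ?_⟩
    rw [hstd, Int.cast_one, one_mul]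
  · have hall : ∀ t, s t = -1 := fun t => (hs t).resolve_left fun h' => hne t 0 h' h
    have hd : ∀ t Z, deriv (fun Z : ℂ => g (-Z, t)) Z = -deriv (fun Z => g (Z, t)) (-Z) :=
      fun t Z => deriv_comp_neg (fun Z => g (Z, t)) Z
    obtain ⟨F, F', n, hF, hstd⟩ := hloop r (fun p => g (-p.1, p.2)) hr
      (Loop_neg (hg.mono h2N)) fun t => ⟨by
        simp only [hd, neg_zero]
        exact neg_ne_zero.2 (h0 t), fun Z hZ => by
      have := hbe t (-Z) (Loop_neg_mem hZ)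
      rw [hall t] at this
      simp only [hd, neg_zero, norm_neg]
      rw [← norm_neg]
      refine le_of_eq_of_le (congrArg norm ?_) this
      push_cast
      rw [show (-1 : ℂ) * -Z = Z by ring]
      ring⟩
    refine ⟨F, F', -1, -n, Or.inr rfl, hF, fun t θ => ?_⟩
    rw [hstd]
    congr 3
    push_cast
    ring

end Pool.Agent.Lib.MP_7ed551_gt.Cy.G
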