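import Pool.Agent.Lib.MP_7ed551_gt.Cy.G.Push
import Pool.Agent.Lib.MP_7b5e47_an.Hq.TSch
import Pool.Agent.Lib.MP_102662_an.Koebe

/-! Long embedded annuli are round in the middle. -/

open scoped ContDiff ComplexConjugate Topology
open Set Real Filter Metric

noncomputable section

namespace Pool.Agent.Lib.MP_7ed551_gt.Cy.G

open Pool.Agent.Lib.MP_ccffa6_gt (Form1 dF pb px py JHol dF_apply dF_pb)

/- `f` is injective on each disc of radius `π` in the strip: `univ_deriv_ne`, `univ_deriv2_le`. -/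
theorem round_bound {f : ℂ → ℂ} {N : ℝ} (hf : DifferentiableOn ℂ f (Strip (N + 4)))
    (hi : ∀ z ∈ Strip (N + 4), ∀ z' ∈ Strip (N + 4), f z = f z' →
      ∃ n : ℤ, z' = z + 2 * π * Complex.I * n) {z : ℂ} (hz : z ∈ Strip N) :
    deriv f z ≠ 0 ∧ ‖deriv (deriv f) z / deriv f z‖ ≤ 4 / 3 := by
  have hs : ball z 3 ⊆ Strip (N + 4) := fun w hw => by
    have h1 : |(w - z).re| ≤ ‖w - z‖ := Complex.abs_re_le_norm _
    have h2 : ‖w - z‖ < 3 := by simpa [dist_eq_norm] using hw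
    have h3 : |z.re| < N := hz
    have h4 : |w.re| ≤ |(w - z).re| + |z.re| := by
      simpa using abs_add_le (w - z).re z.re
    show |w.re| < N + 4
    linarith
  have hj : InjOn f (ball z 3) := fun w hw w' hw' h => by
    obtain ⟨n, rfl⟩ := hi w (hs hw) w' (hs hw') h
    have h1 := dist_triangle_right (w + 2 * π * Complex.I * n) w z
    have h2 : dist (w + 2 * π * Complex.I * n) w = 2 * π * |(n : ℝ)| := by
      simp [dist_eq_norm, abs_of_pos pi_pos]
    have h3 : |(n : ℝ)| < 1 := by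
      rw [mem_ball] at hw hw'
      nlinarith [pi_gt_three, abs_nonneg (n : ℝ)]
    have h4 : n = 0 := Int.abs_lt_one_iff.1 (by exact_mod_cast h3)
    simp [h4]
  have h0 := MP_102662_an.univ_deriv_ne (by norm_num) (hf.mono hs) hj
  refine ⟨h0, ?_⟩
  rw [norm_div, div_le_iff₀ (norm_pos_iff.2 h0)]
  exact MP_102662_an.univ_deriv2_le (by norm_num) (hf.mono hs) hj

theorem Round_log {u : ℂ → ℂ} {r : ℝ} (hu : DifferentiableOn ℂ u (ball 0 r))
    (h0 : ∀ z ∈ ball (0 : ℂ) r, u z ≠ 0) : ∃ v : ℂ → ℂ, v 0 = 0 ∧ ∀ z ∈ ball (0 : ℂ) r,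
      HasDerivAt v (deriv u z / u z) z ∧ u z = u 0 * Complex.exp (v z) := by
  obtain ⟨v, hc, hv⟩ := ((hu.deriv isOpen_ball).div hu h0).isExactOn_ball.with_val_at 0 0
  refine ⟨v, hc, fun z hz => ⟨hv z hz, ?_⟩⟩
  have hcm : (0 : ℂ) ∈ ball (0 : ℂ) r := mem_ball_self (pos_of_mem_ball hz)
  have := (convex_ball (0 : ℂ) r).norm_image_sub_le_of_norm_hasDerivWithin_le
    (f := fun z => u z * Complex.exp (-v z)) (f' := fun _ => 0) (C := 0) (fun x hx => by
      have := (hu.differentiableAt (isOpen_ball.mem_nhds hx)).hasDerivAt.mul (hv x hx).neg.cexp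
      refine (this.congr_deriv ?_).hasDerivWithinAt
      have := h0 x hx
      simp only [Pi.div_apply, Pi.neg_apply]
      field_simp
      ring) (by simp) hcm hz
  rw [zero_mul, norm_le_zero_iff, sub_eq_zero, hc, neg_zero, Complex.exp_zero, mul_one] at this
  rw [← this, mul_assoc, ← Complex.exp_add]
  simp

theorem Round_per {f : ℂ → ℂ} {N : ℝ} (hp : Per1 f N) : Per1 (deriv f) N := fun z hz n => by
  rw [← deriv_comp_add_const]
  refine EventuallyEq.deriv_eq ?_
  filter_upwards [(isOpen_strip N).mem_nhds hz] with w hw using hp w hw n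

theorem Round_core {f : ℂ → ℂ} {R η : ℝ} (hη : 0 < η) (hη' : η ≤ 1 / 80) (hR : 30 ≤ η * R)
    (hf : DifferentiableOn ℂ f (Strip (R + 4))) (hp : Per1 f (R + 4))
    (hi : ∀ z ∈ Strip (R + 4), ∀ z' ∈ Strip (R + 4), f z = f z' →
      ∃ n : ℤ, z' = z + 2 * π * Complex.I * n) :
    deriv f 0 ≠ 0 ∧ ∃ s : ℤ, |s| < 2 ∧ ∀ z ∈ ball (0 : ℂ) 10,
      ‖deriv f z - deriv f 0 * Complex.exp (s * z)‖ ≤
        40 * η * ‖deriv f 0‖ * ‖Complex.exp (s * z)‖ := by
  have hR1 : 10 ≤ R := by nlinarith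
  have hs : ball (0 : ℂ) R ⊆ Strip R := fun w hw =>
    (Complex.abs_re_le_norm w).trans_lt (by simpa using hw)
  have hs' : ball (0 : ℂ) R ⊆ Strip (R + 4) := hs.trans (strip_mono (by linarith))
  have hb : ball (0 : ℂ) 10 ⊆ ball 0 R := ball_subset_ball hR1
  have h0 : (0 : ℂ) ∈ ball (0 : ℂ) 10 := mem_ball_self (by norm_num)
  have hB := fun z (hz : z ∈ ball (0 : ℂ) R) => round_bound hf hi (hs hz)
  have hd : DifferentiableOn ℂ (deriv f) (ball 0 R) := (hf.deriv (isOpen_strip _)).mono hs'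
  obtain ⟨v, hv0, hv⟩ := Round_log hd fun z hz => (hB z hz).1
  set T : ℂ → ℂ := fun z => deriv (deriv f) z / deriv f z with hT
  have hTd : DifferentiableOn ℂ T (ball 0 R) :=
    (hd.deriv isOpen_ball).div hd fun z hz => (hB z hz).1
  have hT1 : ∀ z ∈ ball (0 : ℂ) 10, ‖T z - T 0‖ ≤ η := fun z hz => by
    have := Complex.dist_le_div_mul_dist_of_mapsTo_ball (R₂ := 8 / 3) hTd (fun w hw => by
      rw [mem_closedBall, dist_eq_norm]
      linarith [norm_sub_le (T w) (T 0), (hB w hw).2, (hB 0 (hb h0)).2]) (hb hz)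
    rw [dist_eq_norm] at this
    refine this.trans ?_
    rw [div_mul_eq_mul_div, div_le_iff₀ (by linarith)]
    linarith [mem_ball.1 hz]
  have hu : ∀ z ∈ ball (0 : ℂ) 10, ‖v z - T 0 * z‖ ≤ η * ‖z‖ := fun z hz => by
    have := (convex_ball (0 : ℂ) 10).norm_image_sub_le_of_norm_hasDerivWithin_le
      (f := fun z => v z - T 0 * z) (f' := fun z => T z - T 0) (C := η) (fun x hx =>
        ((hv x (hb hx)).1.fun_sub (hasDerivAt_const_mul (T 0))).hasDerivWithinAt)
      hT1 h0 hz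
    simpa [hv0] using this
  have hw : ‖(2 * π * Complex.I : ℂ)‖ = 2 * π := by simp [abs_of_pos pi_pos]
  have hw' : (2 * π * Complex.I : ℂ) ∈ ball (0 : ℂ) 10 := by
    rw [mem_ball_zero_iff, hw]
    linarith [pi_lt_four]
  have hne := (hB 0 (hb h0)).1
  have he : Complex.exp (v (2 * π * Complex.I)) = 1 := by
    have h1 := Round_per hp 0 (hs' (hb h0)) 1
    simp only [Int.cast_one, mul_one, zero_add] at h1
    have h2 := (hv _ (hb hw')).2
    rw [h1] at h2
    exact (mul_left_cancel₀ hne (h2.symm.trans (mul_one _).symm))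
  obtain ⟨m, hm⟩ := Complex.exp_eq_one_iff.1 he
  have hm1 : ‖(m : ℂ) - T 0‖ ≤ η := by
    have := hu _ hw'
    rw [hm, ← sub_mul, norm_mul, hw] at this
    exact le_of_mul_le_mul_right this (by positivity)
  refine ⟨hne, m, ?_, fun z hz => ?_⟩
  · have h1 : ‖(m : ℂ)‖ ≤ ‖(m : ℂ) - T 0‖ + ‖T 0‖ := by simpa using norm_add_le (m - T 0) (T 0)
    have h2 : |(m : ℝ)| < 2 := by
      rw [Complex.norm_intCast] at h1
      linarith [(hB 0 (hb h0)).2]
    exact_mod_cast h2
  · have hz' : ‖z‖ < 10 := mem_ball_zero_iff.1 hz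
    have h1 : ‖v z - m * z‖ ≤ 20 * η := by
      have h2 : v z - m * z = (v z - T 0 * z) - (m - T 0) * z := by ring
      have h3 := norm_sub_le (v z - T 0 * z) ((m - T 0) * z)
      rw [← h2, norm_mul] at h3
      have h4 := mul_le_mul_of_nonneg_right hm1 (norm_nonneg z)
      nlinarith [hu z hz]
    have h2 := Complex.norm_exp_sub_one_le (x := v z - m * z) (by linarith)
    have h3 : deriv f z - deriv f 0 * Complex.exp (m * z) =
        (Complex.exp (v z - m * z) - 1) * deriv f 0 * Complex.exp (m * z) := by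
      rw [(hv z (hb hz)).2, Complex.exp_sub]
      field_simp
    rw [h3, norm_mul, norm_mul]
    gcongr
    linarith

/- `T = f'' / f'` is bounded by `4 / 3` on `ball 0 (N - 4)`, so `‖T z - T 0‖ ≤ η` for `‖z‖ ≤ 10`
(`Complex.dist_le_div_mul_dist_of_mapsTo_ball`).  `f' = f' 0 * exp u`, `u 0 = 0`, `u' = T`
(`Hq.exists_log`), `‖u z - T 0 * z‖ ≤ η ‖z‖`.  `exp (u (2 π i)) = 1`, so `u (2 π i) = 2 π i m`,
`‖T 0 - m‖ ≤ η`, `|m| < 2`.  If `m = 0` then `‖f' - f' 0‖ ≤ ‖f' 0‖ / 2` on the ball, which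
contradicts `f (2 π i) = f 0`.  Reduce `im z` to `[0, 2 π]` with `exists_red`. -/
theorem round {ε : ℝ} (hε : 0 < ε) : ∃ N : ℝ, 3 ≤ N ∧ ∀ f : ℂ → ℂ,
    DifferentiableOn ℂ f (Strip N) → Per1 f N →
    (∀ z ∈ Strip N, ∀ z' ∈ Strip N, f z = f z' → ∃ n : ℤ, z' = z + 2 * π * Complex.I * n) →
    deriv f 0 ≠ 0 ∧ ∃ s : ℤ, (s = 1 ∨ s = -1) ∧ ∀ z ∈ Strip 2,
      ‖deriv f z - deriv f 0 * Complex.exp (s * z)‖ ≤ ε * ‖deriv f 0‖ := by
  have hE := Real.exp_pos 2
  set η : ℝ := min (1 / 80) (ε / (40 * Real.exp 2)) with hηd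
  have hη : 0 < η := lt_min (by norm_num) (by positivity)
  have hη2 : 40 * η * Real.exp 2 ≤ ε := by
    have := (le_div_iff₀ (by positivity)).1 (min_le_right (1 / 80) (ε / (40 * Real.exp 2)))
    linarith
  have hη1 : η ≤ 1 / 80 := min_le_left _ _
  have hpos : 0 < 30 / η := by positivity
  refine ⟨30 / η + 4, by linarith, fun f hf hp hi => ?_⟩
  obtain ⟨h0, s, hs, hb⟩ := Round_core hη hη1 (by rw [mul_div_cancel₀ _ hη.ne']) hf hp hi
  have hR : 10 ≤ 30 / η := by
    rw [le_div_iff₀ hη]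
    linarith
  have hn := norm_pos_iff.2 h0
  have hs0 : s ≠ 0 := by
    rintro rfl
    have hw : ‖(2 * π * Complex.I : ℂ)‖ = 2 * π := by simp [abs_of_pos pi_pos]
    have hw' : (2 * π * Complex.I : ℂ) ∈ ball (0 : ℂ) 10 := by
      rw [mem_ball_zero_iff, hw]
      linarith [pi_lt_four]
    have hsub : ball (0 : ℂ) 10 ⊆ Strip (30 / η + 4) := fun w hw =>
      (Complex.abs_re_le_norm w).trans_lt ((mem_ball_zero_iff.1 hw).trans_le (by linarith))
    have h1 := (convex_ball (0 : ℂ) 10).norm_image_sub_le_of_norm_hasDerivWithin_le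
      (f := fun z => f z - deriv f 0 * z) (f' := fun z => deriv f z - deriv f 0)
      (C := ‖deriv f 0‖ / 2) (fun x hx =>
        ((hf.differentiableAt ((isOpen_strip _).mem_nhds (hsub hx))).hasDerivAt.fun_sub
          (hasDerivAt_const_mul (deriv f 0))).hasDerivWithinAt)
      (fun x hx => by
        have := hb x hx
        simp only [Int.cast_zero, zero_mul, Complex.exp_zero, mul_one, norm_one] at this
        nlinarith) (mem_ball_self (by norm_num)) hw'
    have h2 := hp 0 (hsub (mem_ball_self (by norm_num))) 1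
    simp only [Int.cast_one, mul_one, zero_add] at h2
    simp only [h2, mul_zero, sub_zero, sub_sub_cancel_left, norm_neg] at h1
    rw [norm_mul, hw] at h1
    nlinarith [pi_pos]
  have hs1 : s = 1 ∨ s = -1 := by
    rw [abs_lt] at hs
    omega
  refine ⟨h0, s, hs1, fun z hz => ?_⟩
  obtain ⟨n, hn1, hn2⟩ := exists_red z
  have hz2 : |z.re| < 2 := hz
  have hre : (z + 2 * π * Complex.I * n).re = z.re := by simp
  have h1 := hb (z + 2 * π * Complex.I * n) (by
    rw [mem_ball_zero_iff]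
    have := Complex.norm_le_abs_re_add_abs_im (z + 2 * π * Complex.I * n)
    rw [hre, abs_of_nonneg hn1] at this
    linarith [pi_lt_four])
  have h2 : Complex.exp (s * (z + 2 * π * Complex.I * n)) = Complex.exp (s * z) := by
    rw [mul_add, Complex.exp_add, show (s : ℂ) * (2 * π * Complex.I * n) =
      (s * n : ℤ) * (2 * π * Complex.I) by push_cast; ring, Complex.exp_int_mul_two_pi_mul_I,
      mul_one]
  rw [h2, Round_per hp z (strip_mono (by linarith) hz) n] at h1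
  have h3 : ‖Complex.exp (s * z)‖ ≤ Real.exp 2 := by
    rw [Complex.norm_exp, Real.exp_le_exp]
    rw [abs_lt] at hz2
    rcases hs1 with rfl | rfl <;> simp <;> linarith [hz2.1, hz2.2]
  refine h1.trans ?_
  calc 40 * η * ‖deriv f 0‖ * ‖Complex.exp (s * z)‖ ≤ 40 * η * ‖deriv f 0‖ * Real.exp 2 := by
        gcongr
    _ = 40 * η * Real.exp 2 * ‖deriv f 0‖ := by ring
    _ ≤ ε * ‖deriv f 0‖ := by gcongr

end Pool.Agent.Lib.MP_7ed551_gt.Cy.G
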