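import Pool.Agent.Lib.MP_7ed551_gt.Cy.G.Near
import Pool.Agent.Lib.MP_7ed551_gt.Cy.G.Round

/-! Loops of long annuli are images of the product torus. -/

open scoped ContDiff ComplexConjugate Topology
open Set Real Filter Metric

noncomputable section

namespace Pool.Agent.Lib.MP_7ed551_gt.Cy.G

open Pool.Agent.Lib.MP_ccffa6_gt (Form1 dF pb px py JHol dF_apply dF_pb)

theorem Lp.deriv_eq {g : ℂ × ℝ → ℂ} {N : ℝ} (h : Lp g N) {Z : ℂ} (hZ : Z ∈ Strip N) (t : ℝ) :
    deriv (fun Z => g (Z, t)) Z = fderiv ℝ g (Z, t) (1, 0) := by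
  have h1 : DifferentiableAt ℝ g (Z, t) := (h.sm.contDiffAt (((isOpen_strip N).prod
    isOpen_univ).mem_nhds ⟨hZ, trivial⟩)).differentiableAt (by simp)
  have h2 := h1.hasFDerivAt.comp Z (hasFDerivAt_prodMk_left (𝕜 := ℝ) Z t)
  have h3 := (((h.hol t).differentiableAt ((isOpen_strip N).mem_nhds hZ)).hasDerivAt.hasFDerivAt
    ).restrictScalars ℝ
  simpa using DFunLike.congr_fun (h3.unique h2) 1

theorem Lp.contDiff_deriv {g : ℂ × ℝ → ℂ} {N : ℝ} (h : Lp g N) {Z : ℂ} (hZ : Z ∈ Strip N) :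
    ContDiff ℝ ∞ fun t : ℝ => deriv (fun Z => g (Z, t)) Z := by
  simp only [h.deriv_eq hZ]
  exact ((h.sm.fderiv_of_isOpen ((isOpen_strip N).prod isOpen_univ) (m := ∞) (by simp)).comp_contDiff
    (contDiff_const.prodMk contDiff_id) fun t => ⟨hZ, trivial⟩).clm_apply contDiff_const

theorem Loop0_bound {f : ℂ → ℂ} (hf : DifferentiableOn ℂ f (Strip 2)) (hp : Per1 f 2) (h0 : f 0 = 0)
    {c : ℝ} (hc : ∀ Z ∈ Strip 2, ‖deriv f Z‖ ≤ c) {Z : ℂ} (hZ : Z ∈ Strip 2) : ‖f Z‖ ≤ 9 * c := by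
  obtain ⟨n, hn⟩ := exists_red Z
  have m := (add_mem_strip n).2 hZ
  have h1 := (convex_strip 2).norm_image_sub_le_of_norm_deriv_le
    (fun x hx => hf.differentiableAt ((isOpen_strip 2).mem_nhds hx)) hc
    (show (0 : ℂ) ∈ Strip 2 by simp [Strip]) m
  rw [h0, sub_zero, sub_zero, hp Z hZ n] at h1
  have h2 := Complex.norm_le_abs_re_add_abs_im (Z + 2 * π * Complex.I * n)
  rw [abs_of_nonneg hn.1] at h2
  have h3 : |(Z + 2 * π * Complex.I * n).re| < 2 := m
  have h4 : ‖Z + 2 * π * Complex.I * n‖ ≤ 9 := by linarith [hn.2, pi_lt_d2]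
  exact h1.trans ((mul_le_mul_of_nonneg_left h4 ((norm_nonneg _).trans (hc Z hZ))).trans_eq
    (mul_comm _ _))

theorem Loop0_sub {Z : ℂ} (hZ : Z ∈ Strip 2) (m : ℤ) (t : ℝ) :
    Z - m * t * Complex.I ∈ Strip 2 := by
  simpa [Strip] using hZ

theorem Loop0_lp {g : ℂ × ℝ → ℂ} (h : Lp g 2) {u : ℝ → ℂ} (hu : ContDiff ℝ ∞ u)
    (pu : ∀ t, u (t + 2 * π) = u t) (m : ℤ) :
    Lp (fun p => u p.2 * g (p.1 - m * p.2 * Complex.I, p.2)) 2 := by
  have c : ContDiff ℝ ∞ fun p : ℂ × ℝ => (p.2 : ℂ) := Complex.ofRealCLM.contDiff.comp contDiff_snd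
  refine ⟨(hu.comp contDiff_snd).contDiffOn.mul (h.sm.comp ((contDiff_fst.sub ((contDiff_const.mul
    c).mul contDiff_const)).prodMk contDiff_snd).contDiffOn fun p hp =>
      ⟨Loop0_sub hp.1 m p.2, trivial⟩), fun t => ((h.hol t).comp (differentiableOn_id.sub_const _)
      fun Z hZ => Loop0_sub hZ m t).const_mul (u t), fun t Z hZ n => ?_, fun Z hZ t => ?_⟩
  · have := h.per t _ (Loop0_sub hZ m t) n
    simp only [add_sub_right_comm, this]
  · have := h.per t _ (Loop0_sub hZ m t) (-m)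
    simp only at this ⊢
    rw [pu, h.pert _ (Loop0_sub hZ m _), ← this]
    congr 3
    push_cast
    ring

/- `a₁ t = ∂g (0, t) = exp (α t + n t i)` (`log_per`), `a₀ t = g (0, t) - a₁ t`,
`d (Z, t) = (g (Z - n t i, t) - a₀ t) * exp (-α t) - exp Z`.  With `Z' = Z - n t i`,
`∂d = exp (-α) * (∂g Z' - a₁ exp Z')`, `d = 0` at `Z' = 0`, so `‖d‖ ≤ 9 ε` (reduce `im Z'`).
`F = aff b A ∘ near d`, `b = rad a₀`, `A = rad (α - log r)`. -/
theorem loop : ∃ ε : ℝ, 0 < ε ∧ ∀ (r : ℝ) (g : ℂ × ℝ → ℂ), 0 < r → Lp g 2 →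
    (∀ t, deriv (fun Z => g (Z, t)) 0 ≠ 0 ∧ ∀ Z ∈ Strip 2,
      ‖deriv (fun Z => g (Z, t)) Z - deriv (fun Z => g (Z, t)) 0 * Complex.exp Z‖ ≤
        ε * ‖deriv (fun Z => g (Z, t)) 0‖) →
    ∃ (F F' : E → E) (n : ℤ), FD F F' ∧ ∀ t θ : ℝ, F (std r (t, θ)) =
      (g (((θ + n * t : ℝ) : ℂ) * Complex.I, t), (std r (t, θ)).2) := by
  obtain ⟨ε, e0, e1, hn⟩ := near
  refine ⟨ε / 9, by positivity, fun r g hr h H => ?_⟩
  have z : (0 : ℂ) ∈ Strip 2 := by simp [Strip]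
  have s1 := h.contDiff_deriv z
  have p1 : ∀ t, deriv (fun Z => g (Z, t + 2 * π)) 0 = deriv (fun Z => g (Z, t)) 0 := fun t =>
    EventuallyEq.deriv_eq (eventually_of_mem ((isOpen_strip 2).mem_nhds z) fun Z hZ => h.pert Z hZ t)
  obtain ⟨α, m, sα, pα, eα⟩ := log_per s1 (fun t => (H t).1) p1
  obtain ⟨a, ha⟩ : ∃ a : ℝ → ℂ, ∀ t, deriv (fun Z => g (Z, t)) 0 = a t := ⟨_, fun _ => rfl⟩
  simp only [ha] at s1 p1 eα H
  have s0 : ContDiff ℝ ∞ fun t => g (0, t) - a t :=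
    (h.sm.comp_contDiff (contDiff_const.prodMk contDiff_id) fun t => ⟨z, trivial⟩).sub s1
  have p0 : ∀ t, g (0, t + 2 * π) - a (t + 2 * π) = g (0, t) - a t := fun t => by
    rw [h.pert 0 z, p1]
  have L : Lp (fun p => g p - (g (0, p.2) - a p.2) - a p.2 * Complex.exp p.1) 2 :=
    ⟨(h.sm.sub (s0.comp contDiff_snd).contDiffOn).sub ((s1.comp contDiff_snd).mul
      (Complex.contDiff_exp.comp contDiff_fst)).contDiffOn,
      fun t => ((h.hol t).sub_const (g (0, t) - a t)).sub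
        (Complex.differentiable_exp.const_mul (a t)).differentiableOn,
      fun t Z hZ n => by
        have := h.per t Z hZ n
        simp only at this ⊢
        rw [this, Complex.exp_add, mul_comm (2 * π * Complex.I : ℂ),
          Complex.exp_int_mul_two_pi_mul_I, mul_one],
      fun Z hZ t => by simp only [h.pert Z hZ, h.pert 0 z, p1]⟩
  have D : ∀ t, ∀ Z ∈ Strip 2, HasDerivAt (fun Z => g (Z, t) - (g (0, t) - a t) - a t * Complex.exp Z)
      (deriv (fun Z => g (Z, t)) Z - a t * Complex.exp Z) Z := fun t Z hZ =>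
    (((h.hol t).differentiableAt ((isOpen_strip 2).mem_nhds hZ)).hasDerivAt.sub_const _).sub
      ((Complex.hasDerivAt_exp Z).const_mul _)
  have N1 : ∀ t, ‖Complex.exp (-α t)‖ * ‖a t‖ = 1 := fun t => by
    rw [eα, ← norm_mul, ← Complex.exp_add, neg_add_cancel_left, Complex.norm_exp]
    simp
  have B : ∀ t, ∀ Z ∈ Strip 2, ‖Complex.exp (-α t) * (g (Z - m * t * Complex.I, t) -
      (g (0, t) - a t) - a t * Complex.exp (Z - m * t * Complex.I))‖ ≤ ε := fun t Z hZ => by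
    have := Loop0_bound (L.hol t) (L.per t) (by simp) (c := ε / 9 * ‖a t‖)
      (fun Z hZ => by rw [(D t Z hZ).deriv]; exact (H t).2 Z hZ) (Loop0_sub hZ m t)
    rw [norm_mul]
    refine (mul_le_mul_of_nonneg_left this (norm_nonneg _)).trans_eq ?_
    linear_combination ε * N1 t
  obtain ⟨F, F', hF, eF⟩ := hn r _ hr (Loop0_lp L (u := fun t => Complex.exp (-α t))
    (Complex.contDiff_exp.comp sα.neg) (fun t => by rw [pα]) m) fun t Z hZ => ⟨B t Z hZ, by
      have := ((D t _ (Loop0_sub hZ m t)).comp_sub_const Z (m * t * Complex.I)).const_mul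
        (Complex.exp (-α t))
      rw [this.deriv, norm_mul]
      refine (mul_le_mul_of_nonneg_left ((H t).2 _ (Loop0_sub hZ m t)) (norm_nonneg _)).trans ?_
      have := N1 t
      nlinarith⟩
  obtain ⟨b, sb, fb, eb⟩ := rad s0 p0 hr
  obtain ⟨A, sA, fA, eA⟩ := rad (a := fun t => α t - Real.log r) (sα.sub contDiff_const)
    (fun t => by rw [pα]) hr
  obtain ⟨G, G', hG, eG⟩ := aff sb sA fb fA (r * 2)
  refine ⟨_, _, -m, hG.comp hF, fun t θ => ?_⟩
  have b1 := B t _ (im_mem two_pos θ)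
  simp only [eF]
  rw [eG]
  · simp only [std, eb, eA]
    rw [show ((θ + (-m : ℤ) * t : ℝ) : ℂ) * Complex.I = θ * Complex.I - m * t * Complex.I by
      push_cast; ring]
    refine Prod.ext ?_ rfl
    have e2 : (r : ℂ) * Complex.exp (-α t) * Complex.exp (α t - Real.log r) = 1 := by
      rw [mul_assoc, ← Complex.exp_add, show -α t + (α t - Real.log r) = -(Real.log r : ℝ) by ring,
        Complex.exp_neg, ← Complex.ofReal_exp, Real.exp_log hr,
        mul_inv_cancel₀ (Complex.ofReal_ne_zero.2 hr.ne')]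
    have e3 : Complex.exp (-α t) * a t * Complex.exp (θ * Complex.I - m * t * Complex.I) =
        Complex.exp (θ * Complex.I) := by
      rw [eα, ← Complex.exp_add, ← Complex.exp_add]
      congr 1
      ring
    simp only
    linear_combination (g (θ * Complex.I - m * t * Complex.I, t) - (g (0, t) - a t)) * e2 -
      r * Complex.exp (α t - Real.log r) * e3
  · rw [norm_mul, Complex.norm_real, Real.norm_of_nonneg hr.le]
    refine mul_le_mul_of_nonneg_left ((norm_add_le _ _).trans ?_) hr.le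
    rw [Complex.norm_exp_ofReal_mul_I]
    linarith

end Pool.Agent.Lib.MP_7ed551_gt.Cy.G
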