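import Pool.Agent.Lib.MP_7ed551_gt.Cy.G.Mod0

/-! Changing a trivialisation inside the neck. -/

open scoped ContDiff ComplexConjugate Topology
open Set Real Filter Metric

noncomputable section

namespace Pool.Agent.Lib.MP_7ed551_gt.Cy.G

open Pool.Agent.Lib.MP_ccffa6_gt (Form1 dF pb px py JHol dF_apply dF_pb)

/- The derivative of `x ↦ (x.1, H x)` is `v ↦ (v.1, fderiv H x v)`; `dF_pb`. -/
theorem str_chart {Λ : Form1 E} {J : E → E →L[ℝ] E} {Θ : E → E} {h H : E → ℂ} {M κ : ℝ}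
    (hΛ : ContDiff ℝ ∞ Λ) (hc : Cht J Θ M) (hs : Slope Λ Θ M κ) (hM : 5 ≤ M) (hH : Str h H κ) :
    ContDiffOn ℝ ∞ (fun x : E => Θ (x.1, H x)) (Box 4) ∧ Per2 (fun x : E => Θ (x.1, H x)) 4 ∧
      (∀ x ∈ Box 4, Function.Injective (fderiv ℝ (fun x : E => Θ (x.1, H x)) x)) ∧
      ∀ x ∈ Box 4, 0 < dF Λ (Θ (x.1, H x)) (fderiv ℝ (fun x : E => Θ (x.1, H x)) x (1, 0))
        (fderiv ℝ (fun x : E => Θ (x.1, H x)) x (Complex.I, 0)) := by
  have mem : ∀ x ∈ Box 4, (x.1, H x) ∈ Box M := fun x hx => by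
    have h1 := (Complex.abs_re_le_norm _).trans (hH.small x hx)
    rw [Complex.sub_re] at h1
    have h2 := abs_sub_abs_le_abs_sub (H x).re x.2.re
    exact ⟨hx.1.trans_le (by linarith), show |(H x).re| < M by linarith [hx.2]⟩
  have D : ∀ x ∈ Box 4, ∀ v, fderiv ℝ (fun x : E => Θ (x.1, H x)) x v =
      fderiv ℝ Θ (x.1, H x) (v.1, fderiv ℝ H x v) := fun x hx v => by
    have h1 := ((hH.sm.contDiffAt ((isOpen_box 4).mem_nhds hx)).differentiableAt
      (by simp)).hasFDerivAt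
    have h2 := (hc.sm.differentiable (by simp) (x.1, H x)).hasFDerivAt.comp x
      ((hasFDerivAt_fst (p := x)).prodMk h1)
    exact DFunLike.congr_fun h2.fderiv v
  refine ⟨hc.sm.comp_contDiffOn (contDiffOn_fst.prodMk hH.sm), fun x hx m n => ?_,
    fun x hx => (injective_iff_map_eq_zero _).2 fun v hv => ?_, fun x hx => ?_⟩
  · have h1 := hH.per x hx m n
    simp only [Prod.snd_add] at h1
    simp only
    rw [← cht_per hc (x.1, H x) m n]
    congr 1
    exact Prod.ext rfl (by simp only [Prod.snd_add]; linear_combination h1)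
  · rw [D x hx] at hv
    have h1 := (injective_iff_map_eq_zero _).1 (hc.imm _ (mem x hx)) _ hv
    obtain ⟨a, b⟩ := v
    obtain rfl : a = 0 := congrArg Prod.fst h1
    obtain rfl : b = 0 := hH.imm x hx b (congrArg Prod.snd h1)
    rfl
  · have h1 := hs _ (mem x hx) _ _ (hH.slope x hx).1 (hH.slope x hx).2
    rw [dF_pb (hc.sm.contDiffAt.of_le (by norm_cast)) (hΛ.differentiable (by simp) _)] at h1
    rwa [D x hx, D x hx]

end Pool.Agent.Lib.MP_7ed551_gt.Cy.G
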