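import Pool.Agent.Lib.MP_7ed551_gt.Cy.G.Str0

/-! Straightening a holomorphic motion. -/

open scoped ContDiff ComplexConjugate Topology
open Set Real Filter Metric

noncomputable section

namespace Pool.Agent.Lib.MP_7ed551_gt.Cy.G

open Pool.Agent.Lib.MP_ccffa6_gt (Form1 dF pb px py JHol dF_apply dF_pb)

/- `H = G + τ • (x.2 - G)`, `τ x = χ x.1.re * χ x.2.re`, `χ` from `bump 1 (3 / 2)`. -/
theorem straight {κ : ℝ} (hκ : 0 < κ) : ∃ N δ : ℝ, 55 ≤ N ∧ 0 < δ ∧ δ ≤ 1 ∧ ∀ h : E → ℂ,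
    Mot h N δ → ∃ H : E → ℂ, Str h H κ := by
  obtain ⟨τ, M, r1, M0, r2, r3, r4, r5, r6⟩ :=
    Str0_rho (a := 1) (b := 3 / 2) one_pos (by norm_num)
  obtain ⟨N, n1, hm⟩ := mollify (half_pos hκ)
  obtain ⟨δ, d0, d1, d2, d3⟩ : ∃ δ : ℝ, 0 < δ ∧ δ ≤ 1 ∧ δ * (1 + M) ≤ κ / 2 ∧
      δ * (16 + M) ≤ 1 / 2 := by
    have h1 : min κ 1 / (2 * (16 + M)) * (16 + M) = min κ 1 / 2 := by field_simp
    have h2 : 0 < min κ 1 / (2 * (16 + M)) := by positivity
    refine ⟨_, h2, ?_, ?_, ?_⟩ <;> nlinarith [min_le_left κ 1, min_le_right κ 1, mul_nonneg h2.le M0]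
  refine ⟨N, δ, n1, d0, d1, fun h H => ?_⟩
  obtain ⟨G, g1, g2, g3, g4, g5, g6, g7⟩ := hm h δ d1 H
  have dH : ∀ x ∈ Box 4, ∀ v, fderiv ℝ (fun x => G x + τ x • (x.2 - G x)) x v =
      (1 - τ x) • fderiv ℝ G x v + τ x • v.2 + fderiv ℝ τ x v • (x.2 - G x) := by
    intro x hx v
    have a1 := ((g1.contDiffAt ((isOpen_box 4).mem_nhds hx)).differentiableAt
      (by simp)).hasFDerivAt
    have a2 := (r1.differentiable (by simp) x).hasFDerivAt
    have a3 : fderiv ℝ (fun x => G x + τ x • (x.2 - G x)) x = _ :=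
      (a1.add (a2.smul ((hasFDerivAt_snd (𝕜 := ℝ) (p := x)).sub a1))).fderiv
    rw [a3]
    simp
    ring
  have t1 : ∀ x (w : ℂ), ‖(1 - τ x) • w‖ ≤ ‖w‖ := fun x w => by
    rw [norm_smul, Real.norm_of_nonneg (by linarith [(r2 x).2])]
    exact mul_le_of_le_one_left (norm_nonneg _) (by linarith [(r2 x).1])
  have t2 : ∀ x ∈ Box 4, ∀ v, ‖fderiv ℝ τ x v • (x.2 - G x)‖ ≤ M * ‖v‖ * δ := fun x hx v => by
    rw [norm_smul, norm_sub_rev]
    exact mul_le_mul (r6 x v) (g4 x hx) (norm_nonneg _) (by positivity)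
  have sl : ∀ x ∈ Box 4, ∀ v : ℂ, ‖v‖ = 1 →
      ‖fderiv ℝ (fun x => G x + τ x • (x.2 - G x)) x (v, 0)‖ ≤ κ := fun x hx v hv => by
    have a1 := t2 x hx (v, 0)
    have a2 := g5 x hx v
    rw [show ‖((v, 0) : E)‖ = 1 by simp [hv]] at a1
    rw [hv] at a2
    rw [dH x hx, smul_zero, add_zero]
    linarith [norm_add_le ((1 - τ x) • fderiv ℝ G x (v, 0)) (fderiv ℝ τ x (v, 0) • (x.2 - G x)),
      t1 x (fderiv ℝ G x (v, 0))]
  have e1 : ∀ x : E, G x + τ x • (x.2 - G x) - x.2 = (1 - τ x) • (G x - x.2) := fun x => by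
    simp
    ring
  refine ⟨fun x => G x + τ x • (x.2 - G x), g1.add (r1.contDiffOn.smul (contDiffOn_snd.sub g1)),
    fun x hx m n => ?_, fun x hx ho => ?_, fun x hx => ?_,
    fun x hx => ⟨sl x hx 1 norm_one, sl x hx _ Complex.norm_I⟩, fun x hx v hv => ?_,
    fun a b => ?_⟩
  · simp only [e1]
    rw [r5, show G _ - _ = _ from g2 x hx m n]
  · rw [r3 x (ho.imp (fun h => by linarith) fun h => by linarith), zero_smul, add_zero, g3 x hx ho]
  · rw [e1]
    exact (t1 x _).trans ((g4 x hx).trans d1)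
  · rw [dH x hx] at hv
    by_cases h2 : x ∈ Box 2
    · have a1 := t2 x hx (0, v)
      have a2 := (t1 x _).trans (g7 x h2 v)
      rw [show ‖((0, v) : E)‖ = ‖v‖ by simp] at a1
      have a3 : v = -((1 - τ x) • (fderiv ℝ G x (0, v) - v)) -
          fderiv ℝ τ x (0, v) • (x.2 - G x) := by
        simp only [Complex.real_smul] at hv ⊢
        push_cast at hv ⊢
        linear_combination hv
      have a4 := (congrArg norm a3).trans_le (norm_sub_le _ _)
      rw [norm_neg] at a4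
      exact norm_le_zero_iff.1 (by nlinarith [norm_nonneg v])
    · have a1 : τ =ᶠ[𝓝 x] fun _ => 0 := by
        have o : IsOpen {y : E | 3 / 2 < |y.1.re| ∨ 3 / 2 < |y.2.re|} :=
          IsOpen.union (s₁ := {y : E | 3 / 2 < |y.1.re|}) (s₂ := {y : E | 3 / 2 < |y.2.re|})
            (isOpen_lt continuous_const (by fun_prop)) (isOpen_lt continuous_const (by fun_prop))
        refine eventually_of_mem (o.mem_nhds ?_) fun y hy => r3 y (hy.imp le_of_lt le_of_lt)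
        exact (not_and_or.1 h2).imp (fun h => by linarith [not_lt.1 h])
          fun h => by linarith [not_lt.1 h]
      rw [a1.fderiv_eq, a1.self_of_nhds] at hv
      exact g6 x hx v (by simpa using hv)
  · rw [r4 (_, _) ⟨im_mem one_pos a, im_mem one_pos b⟩]
    simp

end Pool.Agent.Lib.MP_7ed551_gt.Cy.G
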