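import Pool.Agent.Lib.MP_7ed551_gt.Cy.G.Sch
import Pool.Agent.Lib.MP_7ed551_gt.Cy.G.Str
import Pool.Agent.Lib.MP_7ed551_gt.Cy.G.Eta
import Pool.Agent.Lib.MP_7ed551_gt.Cy.G.Mod

/-! Block G: the trivialisation. -/

open scoped ContDiff ComplexConjugate Topology
open Set Real Filter Metric

noncomputable section

namespace Pool.Agent.Lib.MP_7ed551_gt.Cy

open Pool.Agent.Lib.MP_ccffa6_gt (Form1 dF pb px py JHol dF_apply dF_pb)
open G

theorem G.rep {s s' : ℤ} (hs : s = 1 ∨ s = -1) (hs' : s' = 1 ∨ s' = -1) (n : ℤ) :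
    Rep fun x : ℝ × ℝ => (s * x.2 + n * x.1, s' * x.1) := by
  have h1 : (s : ℝ) * s = 1 := by rcases hs with rfl | rfl <;> norm_num
  have h2 : (s' : ℝ) * s' = 1 := by rcases hs' with rfl | rfl <;> norm_num
  refine ⟨by fun_prop, ⟨n, s', fun x => ?_⟩, ⟨s, 0, fun x => ?_⟩, fun y => ?_⟩
  · refine Prod.ext ?_ ?_ <;> simp only [Prod.fst_add, Prod.snd_add] <;> ring
  · refine Prod.ext ?_ ?_ <;> simp only [Prod.fst_add, Prod.snd_add] <;> push_cast <;> ring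
  · refine ⟨(s' * y.2, s * (y.1 - n * (s' * y.2))), Prod.ext ?_ ?_⟩
    · show s * (s * (y.1 - n * (s' * y.2))) + n * (s' * y.2) = y.1
      rw [← mul_assoc, h1]
      ring
    · show s' * (s' * y.2) = y.2
      rw [← mul_assoc, h2, one_mul]

theorem triv_of (hF : FolStmt) : TrivStmt := by
  intro κ hκ
  obtain ⟨N1, δ, n1, d0, d1, hst⟩ := straight hκ
  obtain ⟨N2, n2, hrn⟩ := rnd
  obtain ⟨N3, n3, hsc⟩ := sch hF
  have a1 : N1 ≤ max N1 (max N2 N3) := le_max_left _ _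
  have a2 : N2 ≤ max N1 (max N2 N3) := (le_max_left _ _).trans (le_max_right _ _)
  have a3 : N3 ≤ max N1 (max N2 N3) := (le_max_right _ _).trans (le_max_right _ _)
  generalize max N1 (max N2 N3) = N at a1 a2 a3
  refine ⟨N, δ, by linarith, d0, fun Λ J K Θ Ψ P h r hr hA hf hc hs hg => ?_⟩
  have hm := gr_mot hf hc hg
  have he := gr_emb hf hc hg d1
  obtain ⟨H, hH⟩ := hst h (hm.mono a1)
  obtain ⟨R, hR⟩ := he.per.bound he.sm.continuousOn (show (4 : ℝ) < N by linarith)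
  obtain ⟨Φ₀, Φ₀', c1, c2, c3, -⟩ := cut hA hf R
  obtain ⟨e1, e2, e3, e4⟩ := str_chart hA.smΛ hc hs (by linarith) hH
  have b4 : Box 4 ⊆ Box N := box_mono (by linarith)
  obtain ⟨Φ₁, Φ₁', m1, m2, m3⟩ := modify (v₀ := fun x => Θ (x.1, h x)) c1 c2
    (he.mono (by linarith)) (fun x hx => gr_fib hf hc hg d1 (b4 hx))
    (fun x hx => (c3 _ ((norm_fst_le _).trans (hR x hx))).trans (hf.right _)) e1 e2
    (fun x hx ho => by rw [hH.out x hx ho]) e3 e4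
  obtain ⟨B, B', s', hs', s1, s2, s3⟩ := hsc r _ hr ((gr_col hf hc hg).mono a3)
  have i1 : ∀ t : ℝ, (((s' * t : ℝ) : ℂ) * Complex.I) ∈ Strip N := fun t => im_mem (by linarith) _
  have hl : Lp (fun p : ℂ × ℝ => (P (Θ (p.1, h (p.1, ((s' * p.2 : ℝ) : ℂ) * Complex.I)))).1) N := by
    refine ⟨?_, fun t => gr_hol hf hc hg d1 (i1 t), fun t z hz n => ?_, fun Z hZ t => ?_⟩
    · refine (he.sm.comp (f := fun p : ℂ × ℝ => (p.1, ((s' * p.2 : ℝ) : ℂ) * Complex.I))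
        (contDiff_fst.prodMk ?_).contDiffOn fun p hp => ⟨hp.1, i1 p.2⟩).fst
      exact (Complex.ofRealCLM.contDiff.comp (contDiff_const.mul contDiff_snd)).mul contDiff_const
    · have := congrArg Prod.fst (he.per (z, _) ⟨hz, i1 t⟩ n 0)
      simpa using this
    · have := congrArg Prod.fst (he.per (Z, _) ⟨hZ, i1 t⟩ 0 s')
      simp only [Prod.mk_add_mk, Int.cast_zero, mul_zero, add_zero] at this
      rw [← this]
      simp only [show ((s' * (t + 2 * π) : ℝ) : ℂ) * Complex.I =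
        ((s' * t : ℝ) : ℂ) * Complex.I + 2 * π * Complex.I * s' by push_cast; ring]
  obtain ⟨F, F', s, n, hs1, f1, f2⟩ := hrn r _ hr (hl.mono a2) fun t z hz z' hz' e => by
    have z1 : (z, ((s' * t : ℝ) : ℂ) * Complex.I) ∈ Box N := ⟨strip_mono a2 hz, i1 t⟩
    have z2 : (z', ((s' * t : ℝ) : ℂ) * Complex.I) ∈ Box N := ⟨strip_mono a2 hz', i1 t⟩
    obtain ⟨m, n, e'⟩ := he.inj _ z1 _ z2 (Prod.ext e ((hg.leaf _ z1).trans (hg.leaf _ z2).symm))
    exact ⟨m, congrArg Prod.fst e'⟩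
  obtain ⟨S, S', w1, w2, w3⟩ := swap hA m1 m2 s1 s2 hr R
  have t1 := (m1.comp w1).comp f1.dif
  refine ⟨_, _, _, t1, (w2.comp (m1.comp w1).sm f1).fibPos hA.smΛ t1.sm, rep hs1 hs' n,
    fun x => ?_⟩
  obtain ⟨t, θ⟩ := x
  have z1 : ((((s * θ + n * t : ℝ) : ℂ) * Complex.I, ((s' * t : ℝ) : ℂ) * Complex.I) : E) ∈
    Box 4 := ⟨im_mem (by norm_num) _, im_mem (by norm_num) _⟩
  have z2 := m3 _ z1
  rw [hH.mid] at z2
  have z3 := (norm_fst_le _).trans (hR _ z1)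
  refine Eq.trans (congrArg Φ₁ ?_) z2
  rw [f2]
  exact (w3 (_, (std r (t, θ)).2) z3).trans
    (Prod.ext rfl ((s3 t).trans (hg.leaf _ (b4 z1)).symm))

end Pool.Agent.Lib.MP_7ed551_gt.Cy
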