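import Pool.Agent.Lib.MP_7ed551_gt.Cy.G.Lin
import Pool.Agent.Lib.MP_7ed551_gt.Cy.G.Push

/-! Changing a trivialisation inside the neck. -/

open scoped ContDiff ComplexConjugate Topology
open Set Real Filter Metric

noncomputable section

namespace Pool.Agent.Lib.MP_7ed551_gt.Cy.G

open Pool.Agent.Lib.MP_ccffa6_gt (Form1 dF pb px py JHol dF_apply dF_pb)

/- `Φ₁ = Φ + G` with `G` from `push2` for `v₁ - v₀`.  At `η x`, `Φ₁ ∘ η = v₁` near `x`, `fderiv η x`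
is bijective, and `dF_fib` gives the sign; off `η '' Box 4`, `Φ₁ = Φ` near the point. -/
theorem modify {Λ : Form1 E} {Φ Φ' η v₀ v₁ : E → E} (hΦ : Dif Φ Φ') (hp : FP Λ Φ) (hη : Emb η 4)
    (hf : ∀ x ∈ Box 4, ∃ a : ℂ, fderiv ℝ η x (1, 0) = (a, 0) ∧
      fderiv ℝ η x (Complex.I, 0) = (Complex.I * a, 0))
    (h0 : ∀ x ∈ Box 4, Φ (η x) = v₀ x) (s1 : ContDiffOn ℝ ∞ v₁ (Box 4)) (p1 : Per2 v₁ 4)
    (out : ∀ x ∈ Box 4, 3 ≤ |x.1.re| ∨ 3 ≤ |x.2.re| → v₁ x = v₀ x)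
    (imm : ∀ x ∈ Box 4, Function.Injective (fderiv ℝ v₁ x))
    (pos : ∀ x ∈ Box 4, 0 < dF Λ (v₁ x) (fderiv ℝ v₁ x (1, 0)) (fderiv ℝ v₁ x (Complex.I, 0))) :
    ∃ Φ₁ Φ₁' : E → E, Dif Φ₁ Φ₁' ∧ FP Λ Φ₁ ∧ ∀ x ∈ Box 4, Φ₁ (η x) = v₁ x := by
  have hB := isOpen_box 4
  obtain ⟨G, g1, g2, ⟨R, g3⟩, g4⟩ := push2 hη (a := 3) (by norm_num) (g := fun x => v₁ x - Φ (η x))
    (s1.sub (hΦ.sm.comp_contDiffOn hη.sm))
    (fun x hx m n => by simp only [p1 x hx m n, hη.per x hx m n])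
    fun x hx h => by rw [out x hx h, h0 x hx, sub_self]
  have sm : ContDiff ℝ ∞ fun y => Φ y + G y := hΦ.sm.add g1
  have e : ∀ x ∈ Box 4, Φ (η x) + G (η x) = v₁ x := fun x hx => by rw [g2 x hx, add_sub_cancel]
  have key : ∀ y, Function.Injective (fderiv ℝ (fun y => Φ y + G y) y) ∧
      0 < dF Λ (Φ y + G y) (fderiv ℝ (fun y => Φ y + G y) y (1, 0))
        (fderiv ℝ (fun y => Φ y + G y) y (Complex.I, 0)) := fun y => by
    by_cases hy : y ∈ η '' Box 4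
    · obtain ⟨x, hx, rfl⟩ := hy
      have d1 : DifferentiableAt ℝ η x :=
        (hη.sm.contDiffAt (hB.mem_nhds hx)).differentiableAt (by simp)
      have d2 : fderiv ℝ v₁ x = (fderiv ℝ (fun y => Φ y + G y) (η x)).comp (fderiv ℝ η x) := by
        rw [← fderiv_comp x (sm.differentiable (by simp) _) d1]
        exact Filter.EventuallyEq.fderiv_eq
          (Filter.mem_of_superset (hB.mem_nhds hx) fun z hz => (e z hz).symm)
      have d3 : Function.Surjective (fderiv ℝ η x) :=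
        (LinearMap.injective_iff_surjective (f := (fderiv ℝ η x : E →ₗ[ℝ] E))).1 (hη.imm x hx)
      refine ⟨fun u w h => ?_, ?_⟩
      · obtain ⟨u, rfl⟩ := d3 u
        obtain ⟨w, rfl⟩ := d3 w
        rw [imm x hx (show fderiv ℝ v₁ x u = fderiv ℝ v₁ x w by rw [d2]; exact h)]
      · obtain ⟨a, a1, a2⟩ := hf x hx
        have h := pos x hx
        rw [d2, ContinuousLinearMap.comp_apply, ContinuousLinearMap.comp_apply, a1, a2, dF_fib,
          ← e x hx] at h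
        refine pos_of_mul_pos_right h ?_
        simp only [w1, Complex.mul_im, Complex.mul_re, Complex.I_re, Complex.I_im]
        nlinarith [mul_self_nonneg a.re, mul_self_nonneg a.im]
    · have h : (fun y => Φ y + G y) =ᶠ[𝓝 y] Φ := (g4 y hy).mono fun z hz => by
        simp only [hz, add_zero]
      rw [h.fderiv_eq, (g4 y hy).self_of_nhds, add_zero]
      exact ⟨hΦ.inj_fderiv y, hp y⟩
  obtain ⟨R', hR⟩ := hΦ.far
  obtain ⟨Ψ, hΨ⟩ := exists_dif sm (fun y => (key y).1) ⟨max R R', fun y hy => by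
    rw [hR y ((le_max_right _ _).trans hy), g3 y ((le_max_left _ _).trans hy), add_zero]⟩
  exact ⟨_, Ψ, hΨ, fun y => (key y).2, e⟩

end Pool.Agent.Lib.MP_7ed551_gt.Cy.G
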