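import Pool.Agent.Lib.MP_7ed551_gt.Cy.G.Near0

/-! Small perturbations of the identity near the torus. -/

open scoped ContDiff ComplexConjugate Topology
open Set Real Filter Metric

noncomputable section

namespace Pool.Agent.Lib.MP_7ed551_gt.Cy.G

open Pool.Agent.Lib.MP_ccffa6_gt (Form1 dF pb px py JHol dF_apply dF_pb)

theorem Near_der {χ : ℝ → ℝ} {M ε r : ℝ} (hχ : ContDiff ℝ ∞ χ) (h1 : ∀ t, χ t ∈ Icc (0 : ℝ) 1)
    (hM : ∀ t, |deriv χ t| ≤ M) (hr : 0 < r) {D : E → ℂ} (hD : ContDiff ℝ ∞ D) {f : ℂ → ℂ} {y : E}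
    (hf : DifferentiableAt ℂ f y.1) (h2 : ‖f y.1‖ ≤ ε) (h3 : ‖deriv f y.1‖ ≤ ε)
    (he : ∀ᶠ Z in 𝓝 y.1, D (r * Complex.exp Z, r * Complex.exp y.2) =
      (χ Z.re * χ y.2.re) • (r * f Z)) (w : ℂ) :
    ‖fderiv ℝ D (r * Complex.exp y.1, r * Complex.exp y.2) (r * (Complex.exp y.1 * w), 0)‖ ≤
      r * (M + 1) * ε * ‖w‖ := by
  have c1 : HasDerivAt (fun s : ℝ => y.1 + s * w) w 0 := by
    simpa using ((hasDerivAt_id (0 : ℝ)).ofReal_comp.mul_const w).const_add y.1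
  have c0 : y.1 = y.1 + (0 : ℝ) * w := by simp
  have c2 := ((hD.differentiable (by simp)) _).hasFDerivAt.comp_hasDerivAt 0
    ((c1.cexp.const_mul (r : ℂ)).prodMk (hasDerivAt_const 0 (r * Complex.exp y.2)))
  have c3 := (((hχ.differentiable (by simp)) _).hasDerivAt.comp 0
    (Complex.reCLM.hasFDerivAt.comp_hasDerivAt 0 c1)).mul_const (χ y.2.re)
  have c4 := c3.smul ((hf.hasDerivAt.comp_of_eq 0 c1 c0).const_mul (r : ℂ))
  have c5 := c2.unique (c4.congr_of_eventuallyEq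
    ((c1.continuousAt.tendsto.mono_right (c0 ▸ le_rfl)).eventually he))
  simp only [Function.comp_apply, ← c0, Complex.reCLM_apply] at c5
  rw [c5]
  have k1 : χ y.1.re * χ y.2.re ≤ 1 := mul_le_one₀ (h1 _).2 (h1 _).1 (h1 _).2
  have k0 := (norm_nonneg _).trans h2
  have k2 := (abs_nonneg _).trans (hM 0)
  refine (norm_add_le_of_le (?_ : _ ≤ 1 * (r * (ε * ‖w‖)))
    (?_ : _ ≤ M * ‖w‖ * 1 * (r * ε))).trans_eq (by ring)
  · rw [norm_smul, norm_mul (r : ℂ), norm_mul (deriv f y.1), Complex.norm_real,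
      Real.norm_of_nonneg hr.le, Real.norm_of_nonneg (mul_nonneg (h1 _).1 (h1 _).1)]
    gcongr
  · rw [norm_smul, norm_mul (r : ℂ), Complex.norm_real, Real.norm_of_nonneg hr.le, norm_mul,
      norm_mul, Real.norm_of_nonneg (h1 _).1]
    gcongr
    exacts [(h1 _).1, hM _, Complex.abs_re_le_norm w, (h1 _).2]

/- `push2` along `emb_exp hr 2` of `g x = (χ x.1.re * χ x.2.re) • (r * d (x.1, x.2.im))`, `χ` from
`bump (1 / 2) 1`, gives `D`; `FD.of_near` for `x.1 + D x` with `l = 1`: at `θ y`,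
`fderiv D (r * exp y.1 * v, 0) = fderiv g y (v, 0)` has norm `≤ r (M + 1) ε ‖v‖`, and
`‖r * exp y.1‖ ≥ r * exp (-2)`. -/
theorem near : ∃ ε : ℝ, 0 < ε ∧ ε ≤ 1 ∧ ∀ (r : ℝ) (d : ℂ × ℝ → ℂ), 0 < r → Lp d 2 →
    (∀ t, ∀ Z ∈ Strip 2, ‖d (Z, t)‖ ≤ ε ∧ ‖deriv (fun Z => d (Z, t)) Z‖ ≤ ε) →
    ∃ F F' : E → E, FD F F' ∧ ∀ t θ : ℝ, F (std r (t, θ)) =
      (r * (Complex.exp (θ * Complex.I) + d (θ * Complex.I, t)), (std r (t, θ)).2) := by
  obtain ⟨χ, M, hχ, hM, h1, h2, h3, h4⟩ := bump (a := 1 / 2) (b := 1) (by norm_num) (by norm_num)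
  refine ⟨exp (-2) / (4 * (M + 1)), by positivity, ?_, fun r d hr hd hε => ?_⟩
  · rw [div_le_one (by positivity)]
    linarith [exp_le_one_iff.2 (by norm_num : (-2 : ℝ) ≤ 0)]
  have hg : ContDiffOn ℝ ∞ (fun x : E => (χ x.1.re * χ x.2.re) • (r * d (x.1, x.2.im))) (Box 2) :=
    ((hχ.comp (Complex.reCLM.contDiff.comp contDiff_fst)).mul
      (hχ.comp (Complex.reCLM.contDiff.comp contDiff_snd))).contDiffOn.smul (contDiffOn_const.mul
        (hd.sm.comp (contDiff_fst.prodMk (Complex.imCLM.contDiff.comp contDiff_snd)).contDiffOn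
          fun x hx => ⟨hx.1, mem_univ _⟩))
  have hp (Z : ℂ) (hZ : Z ∈ Strip 2) (t : ℝ) : d (Z + 2 * π * Complex.I, t) = d (Z, t) := by
    simpa using hd.per t Z hZ 1
  obtain ⟨D, hD, e1, ⟨R, e2⟩, e3⟩ := push2 (emb_exp hr 2) one_lt_two hg
    (per2_of (fun x hx => by simp [hp x.1 hx.1]) fun x hx => by simp [hd.pert x.1 hx.1])
    fun x _ hx => by rcases hx with hx | hx <;> simp [h3 _ hx]
  obtain ⟨F', hF⟩ := FD.of_near (F := fun x => x.1 + D x) (contDiff_fst.add hD)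
    ⟨R, fun x hx => by simp [e2 x hx]⟩ fun x => ⟨1, one_ne_zero, fun v => by
      rw [fderiv_fun_add differentiableAt_fst (hD.differentiable (by simp) x), fderiv_fst]
      simp only [add_apply, ContinuousLinearMap.coe_fst', one_mul, add_sub_cancel_left, norm_one]
      by_cases hx : x ∈ (fun x : E => (r * Complex.exp x.1, r * Complex.exp x.2)) '' Box 2
      · obtain ⟨y, hy, rfl⟩ := hx
        have hn := (isOpen_strip 2).mem_nhds (x := y.1) hy.1
        have := Near_der hχ h1 h4 hr hD ((hd.hol y.2.im).differentiableAt hn) (hε _ _ hy.1).1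
          (hε _ _ hy.1).2 (eventually_of_mem hn fun Z hZ => e1 (Z, y.2) ⟨hZ, hy.2⟩)
          (v / (r * Complex.exp y.1))
        have h0 : (r : ℂ) ≠ 0 := Complex.ofReal_ne_zero.2 hr.ne'
        rw [show r * (Complex.exp y.1 * (v / (r * Complex.exp y.1))) = v by field_simp, norm_div,
          norm_mul, Complex.norm_real, Real.norm_of_nonneg hr.le, Complex.norm_exp] at this
        refine this.trans ((mul_le_mul_of_nonneg_left (div_le_div_of_nonneg_left (norm_nonneg v)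
          (by positivity : 0 < r * exp (-2)) ?_) (by positivity)).trans_eq (by field_simp))
        exact mul_le_mul_of_nonneg_left (exp_le_exp.2 (abs_lt.1 hy.1).1.le) hr.le
      · rw [Filter.EventuallyEq.fderiv_eq (e3 x hx), fderiv_fun_const]
        simp only [Pi.zero_apply, zero_apply, norm_zero]
        positivity⟩
  refine ⟨_, F', hF, fun t θ => Prod.ext ?_ rfl⟩
  have := e1 (θ * Complex.I, t * Complex.I) ⟨im_mem two_pos θ, im_mem two_pos t⟩
  simp only [std]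
  rw [this]
  simp [h2 0 (by norm_num), mul_add]

end Pool.Agent.Lib.MP_7ed551_gt.Cy.G
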