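import Pool.Agent.Lib.MP_7ed551_gt.Cy.G.Push
import Pool.Agent.Lib.MP_7ed551_gt.Cy.G.Bump

/-! Small perturbations of the identity near the torus. -/

open scoped ContDiff ComplexConjugate Topology
open Set Real Filter Metric

noncomputable section

namespace Pool.Agent.Lib.MP_7ed551_gt.Cy.G

open Pool.Agent.Lib.MP_ccffa6_gt (Form1 dF pb px py JHol dF_apply dF_pb)

theorem Near0_log {a : ℝ → ℂ} (ha : ContDiff ℝ ∞ a) (h0 : ∀ t, a t ≠ 0) :
    ∃ β : ℝ → ℂ, ContDiff ℝ ∞ β ∧ ∀ t, Complex.exp (β t) = a t := by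
  have hq : ContDiff ℝ ∞ fun s => deriv a s * (a s)⁻¹ :=
    (contDiff_infty_iff_deriv.1 ha).2.mul (ha.inv h0)
  obtain ⟨β, hβ⟩ : ∃ β : ℝ → ℂ, β = fun t =>
    Complex.log (a 0) + ∫ s in (0 : ℝ)..t, deriv a s * (a s)⁻¹ := ⟨_, rfl⟩
  have hd : ∀ t, HasDerivAt β (deriv a t * (a t)⁻¹) t := fun t =>
    hβ ▸ (hq.continuous.integral_hasStrictDerivAt 0 t).hasDerivAt.const_add _
  have hc : ∀ t, HasDerivAt (fun t => a t * Complex.exp (-β t)) 0 t := fun t => by
    refine ((ha.differentiable (by simp) t).hasDerivAt.fun_mul (hd t).fun_neg.cexp).congr_deriv ?_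
    field_simp [h0 t]
    ring
  refine ⟨β, contDiff_infty_iff_deriv.2 ⟨fun t => (hd t).differentiableAt, ?_⟩, fun t => ?_⟩
  · rwa [show deriv β = _ from funext fun t => (hd t).deriv]
  · have := is_const_of_deriv_eq_zero (fun t => (hc t).differentiableAt) (fun t => (hc t).deriv) t 0
    have e : Complex.exp (β 0) = a 0 := by simp [hβ, Complex.exp_log (h0 0)]
    rw [Complex.exp_neg, Complex.exp_neg, e, mul_inv_cancel₀ (h0 0),
      mul_inv_eq_one₀ (Complex.exp_ne_zero _)] at this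
    exact this.symm

theorem log_per {a : ℝ → ℂ} (ha : ContDiff ℝ ∞ a) (h0 : ∀ t, a t ≠ 0)
    (hp : ∀ t, a (t + 2 * π) = a t) : ∃ (α : ℝ → ℂ) (n : ℤ), ContDiff ℝ ∞ α ∧
      (∀ t, α (t + 2 * π) = α t) ∧ ∀ t, a t = Complex.exp (α t + n * t * Complex.I) := by
  obtain ⟨β, h1, h2⟩ := Near0_log ha h0
  have dβ := h1.differentiable (by simp)
  have hd : ∀ t, deriv β t = deriv a t / a t := fun t => by
    rw [eq_div_iff (h0 t), ← h2 t, mul_comm, ← (dβ t).hasDerivAt.cexp.deriv]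
    simp only [h2]
  have hc : ∀ t, HasDerivAt (fun t => β (t + 2 * π) - β t) 0 t := fun t => by
    refine (((dβ _).hasDerivAt.comp_add_const t (2 * π)).fun_sub (dβ t).hasDerivAt).congr_deriv ?_
    rw [hd, hd, hp, ← deriv_comp_add_const, funext hp, sub_self]
  have hk := is_const_of_deriv_eq_zero (fun t => (hc t).differentiableAt) fun t => (hc t).deriv
  obtain ⟨n, hn⟩ := Complex.exp_eq_exp_iff_exists_int.1 (((h2 _).trans (hp 0)).trans (h2 0).symm)
  refine ⟨fun t => β t - n * t * Complex.I, n,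
    h1.sub ((contDiff_const.mul Complex.ofRealCLM.contDiff).mul contDiff_const), fun t => ?_,
    fun t => by rw [sub_add_cancel, h2]⟩
  have := hk t 0
  push_cast
  linear_combination this + hn

theorem rad {a : ℝ → ℂ} (ha : ContDiff ℝ ∞ a) (hp : ∀ t, a (t + 2 * π) = a t) {r : ℝ}
    (hr : 0 < r) : ∃ b : ℂ → ℂ, ContDiff ℝ ∞ b ∧ (∃ R : ℝ, ∀ z, R ≤ ‖z‖ → b z = 0) ∧
      ∀ t : ℝ, b (r * Complex.exp (t * Complex.I)) = a t := by
  obtain ⟨χ, M, c1, -, -, c3, c4, -⟩ := bump one_pos one_lt_two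
  obtain ⟨b, m1, m2, m3, -⟩ := push1 (col_exp hr 3) (show (2 : ℝ) < 3 by norm_num)
    (g := fun z => χ z.re • a z.im)
    ((c1.comp Complex.reCLM.contDiff).smul (ha.comp Complex.imCLM.contDiff)).contDiffOn
    (per1_of fun z _ => by simp [hp]) fun z _ h => by rw [c4 _ h, zero_smul]
  refine ⟨b, m1, m3, fun t => ?_⟩
  rw [m2 _ (im_mem (by norm_num) t)]
  simp [c3]

end Pool.Agent.Lib.MP_7ed551_gt.Cy.G
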