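import Pool.Agent.Lib.MP_7ed551_gt.Cy.G.Base

/-! Pushing periodic functions forward along embeddings. -/

open scoped ContDiff ComplexConjugate Topology
open Set Real Filter Metric

noncomputable section

namespace Pool.Agent.Lib.MP_7ed551_gt.Cy.G

open Pool.Agent.Lib.MP_ccffa6_gt (Form1 dF pb px py JHol dF_apply dF_pb)

/- `G y = g x` for a chosen `x ∈ U` with `θ x = y`, and zero if there is none.  Near `θ x`,
`G = g ∘ σ` with the local inverse `σ` (`ContDiffAt.toOpenPartialHomeomorph`,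
`ContDiffAt.to_localInverse`); off the closed set `θ '' C`, `G = 0`. -/
theorem push {V W : Type} [NormedAddCommGroup V] [NormedSpace ℝ V] [FiniteDimensional ℝ V]
    [NormedAddCommGroup W] [NormedSpace ℝ W] {U C : Set V} (hU : IsOpen U) (hC : IsCompact C)
    (hCU : C ⊆ U) {θ : V → V} (hθ : ContDiffOn ℝ ∞ θ U)
    (hi : ∀ x ∈ U, Function.Injective (fderiv ℝ θ x)) {g : V → W} (hg : ContDiffOn ℝ ∞ g U)
    (h1 : ∀ x ∈ U, ∀ y ∈ U, θ x = θ y → g x = g y) (h2 : ∀ x ∈ U, g x ≠ 0 → θ x ∈ θ '' C) :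
    ∃ G : V → W, ContDiff ℝ ∞ G ∧ (∀ x ∈ U, G (θ x) = g x) ∧ ∀ y, y ∉ θ '' C → G y = 0 := by
  classical
  have : CompleteSpace V := FiniteDimensional.complete ℝ V
  let G : V → W := fun y => if h : ∃ x ∈ U, θ x = y then g h.choose else 0
  have a1 : ∀ x ∈ U, G (θ x) = g x := fun x hx => by
    have h : ∃ x' ∈ U, θ x' = θ x := ⟨x, hx, rfl⟩
    simp only [G, dif_pos h]
    exact h1 _ h.choose_spec.1 x hx h.choose_spec.2
  have a2 : ∀ y, y ∉ θ '' C → G y = 0 := fun y hy => by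
    by_cases h : ∃ x ∈ U, θ x = y
    · obtain ⟨x, hx, rfl⟩ := h
      rw [a1 x hx]
      by_contra h0
      exact hy (h2 x hx h0)
    · simp only [G, dif_neg h]
  refine ⟨G, contDiff_iff_contDiffAt.2 fun y => ?_, a1, a2⟩
  by_cases hy : y ∈ θ '' C
  · obtain ⟨x, hxC, rfl⟩ := hy
    have hx := hU.mem_nhds (hCU hxC)
    have hθx := hθ.contDiffAt hx
    let e : V ≃L[ℝ] V := (LinearEquiv.ofInjectiveEndo (fderiv ℝ θ x : V →ₗ[ℝ] V)
      (hi x (hCU hxC))).toContinuousLinearEquiv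
    have hd : HasFDerivAt θ (e : V →L[ℝ] V) x := (hθx.differentiableAt (by simp)).hasFDerivAt
    have hn : (∞ : WithTop ℕ∞) ≠ 0 := by simp
    have s1 := hθx.to_localInverse hd hn
    have s2 : hθx.localInverse hd hn (θ x) = x := hθx.localInverse_apply_image hd hn
    have s3 : ∀ᶠ y in 𝓝 (θ x), θ (hθx.localInverse hd hn y) = y :=
      (hθx.hasStrictFDerivAt' hd hn).eventually_right_inverse
    have s4 : ∀ᶠ y in 𝓝 (θ x), hθx.localInverse hd hn y ∈ U :=
      s1.continuousAt.eventually_mem (s2.symm ▸ hx)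
    have s5 : ContDiffAt ℝ ∞ g (hθx.localInverse hd hn (θ x)) := s2.symm ▸ hg.contDiffAt hx
    refine (s5.comp (θ x) s1).congr_of_eventuallyEq ?_
    filter_upwards [s3, s4] with y y3 y4
    exact (congrArg G y3.symm).trans (a1 _ y4)
  · have hc := (hC.image_of_continuousOn (hθ.continuousOn.mono hCU)).isClosed
    refine (contDiffAt_const (c := (0 : W))).congr_of_eventuallyEq ?_
    filter_upwards [hc.isOpen_compl.mem_nhds hy] with y' hy'
    exact a2 y' hy'

end Pool.Agent.Lib.MP_7ed551_gt.Cy.G
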