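import Pool.Agent.Lib.MP_7ed551_gt.Cy.G.Sch0

/-! The smooth Schoenflies theorem for a curve with a collar, with an isotopy to the identity. -/

open scoped ContDiff ComplexConjugate Topology
open Set Real Filter Metric

noncomputable section

namespace Pool.Agent.Lib.MP_7ed551_gt.Cy.G

open Pool.Agent.Lib.MP_ccffa6_gt (Form1 dF pb px py JHol dF_apply dF_pb)

theorem sch (hF : FolStmt) : ∃ N : ℝ, 3 ≤ N ∧ ∀ (r : ℝ) (l : ℂ → ℂ), 0 < r → Col l N →
    ∃ (B B' : E → E) (s : ℤ), (s = 1 ∨ s = -1) ∧ Dif B B' ∧ (∀ x, (B x).2 = x.2) ∧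
      ∀ θ : ℝ, (B (r * Complex.exp (θ * Complex.I), r)).1 =
        l (((s * θ : ℝ) : ℂ) * Complex.I) := by
  obtain ⟨N, n1, hrn⟩ := rnd
  refine ⟨N + 2, by linarith, fun r l0 hr hl0 => ?_⟩
  obtain ⟨l, s0, hs0, hl, hp, e0⟩ := sch_or hl0
  obtain ⟨μ, m1, m2, m3, m4⟩ := sch_mu (by linarith) hl hp
  obtain ⟨J, K, j1, j2, j3⟩ := bel_path m1 m2 m3 r
  obtain ⟨Ψ, P, hf⟩ := hF _ J K j1
  have f2 := fol_snd hf fun x v => j2 (1, x) v
  have p2 : ∀ y, (P y).2 = y.2 := fun y => by rw [← f2 (P y), hf.right]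
  have sub : Strip N ⊆ Strip (N + 2) := strip_mono (by linarith)
  have sm : ContDiffOn ℝ ∞ (fun e => (P (l e, r)).1) (Strip (N + 2)) :=
    (hf.sm'.comp_contDiffOn (hl.sm.prodMk contDiffOn_const)).fst
  have pe : Per1 (fun e => (P (l e, r)).1) (N + 2) := fun z hz n => by
    simp only [hl.per z hz n]
  have hL : Lp (fun p : ℂ × ℝ => (P (l p.1, r)).1) N := by
    refine ⟨sm.comp contDiffOn_fst fun p hp => sub hp.1, fun _ z hz => ?_,
      fun _ => pe.mono (by linarith), fun _ _ _ => rfl⟩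
    have d1 : DifferentiableAt ℝ l z :=
      (hl.sm.contDiffAt ((isOpen_strip _).mem_nhds (sub hz))).differentiableAt (by simp)
    have d2 : HasFDerivAt (fun e => ((l e, r) : E)) ((fderiv ℝ l z).prod 0) z :=
      d1.hasFDerivAt.prodMk (hasFDerivAt_const _ _)
    refine (fol_hol hf d2.differentiableAt (Eventually.of_forall fun y => p2 _)
      ?_).differentiableWithinAt
    rw [px, py, d2.fderiv]
    show (py l z, (0 : ℂ)) = J (1, (l z, r)) (px l z, 0)
    rw [j3, m4 z hz]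
  obtain ⟨F, F', s, n, hs, f1, f3⟩ := hrn r _ hr hL fun _ z hz z' hz' e => by
    have : P (l z, r) = P (l z', r) := Prod.ext e ((p2 _).trans (p2 (l z', r)).symm)
    have := congrArg (fun y => (Ψ y).1) this
    simp only [hf.right] at this
    exact hl.inj z (sub hz) z' (sub hz') this
  obtain ⟨R, hR⟩ := pe.bound sm.continuousOn (show N < N + 2 by linarith)
  obtain ⟨Φ, Φ', c1, -, c3, c4⟩ := cut (j1.amb 1) hf R
  refine ⟨_, _, s0 * s, ?_, c1.comp f1.dif, fun x => (c4 f2 _).trans (f1.snd x), fun θ => ?_⟩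
  · rcases hs with rfl | rfl <;> rcases hs0 with rfl | rfl <;> simp
  · have e1 := f3 0 θ
    simp only [std, Complex.ofReal_zero, zero_mul, Complex.exp_zero, mul_one, mul_zero,
      add_zero] at e1
    have e2 : ∀ w : ℂ, ((P (w, r)).1, (r : ℂ)) = P (w, r) := fun w =>
      Prod.ext rfl (p2 (w, r)).symm
    rw [e1, c3 (_, r) (hR _ (im_mem (by linarith) (s * θ))), e2, hf.right, e0]
    push_cast
    ring_nf

end Pool.Agent.Lib.MP_7ed551_gt.Cy.G
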