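import Pool.Agent.Lib.MP_7ed551_gt.Cy.G.Bel
import Pool.Agent.Lib.MP_7ed551_gt.Cy.G.Cut
import Pool.Agent.Lib.MP_7ed551_gt.Cy.G.Loop

/-! The smooth Schoenflies theorem for a curve with a collar, with an isotopy to the identity. -/

open scoped ContDiff ComplexConjugate Topology
open Set Real Filter Metric

noncomputable section

namespace Pool.Agent.Lib.MP_7ed551_gt.Cy.G

open Pool.Agent.Lib.MP_ccffa6_gt (Form1 dF pb px py JHol dF_apply dF_pb)

theorem Sch0_per {l : ℂ → ℂ} {N : ℝ} (h : Per1 l N) : Per1 (fderiv ℝ l) N := fun z hz n => by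
  rw [← fderiv_comp_add_right]
  exact Filter.EventuallyEq.fderiv_eq
    (Filter.mem_of_superset ((isOpen_strip N).mem_nhds hz) fun w hw => h w hw n)

theorem Sch0_lt {a b : ℂ} (h : 0 < w1 a b) :
    ‖(a + Complex.I * b) / 2‖ < ‖(a - Complex.I * b) / 2‖ := by
  rw [norm_div, norm_div]
  refine div_lt_div_of_pos_right (lt_of_pow_lt_pow_left₀ 2 (norm_nonneg _) ?_) (by simp)
  rw [Complex.sq_norm, Complex.sq_norm, Complex.normSq_apply, Complex.normSq_apply]
  simp only [w1, Complex.add_re, Complex.sub_re, Complex.add_im, Complex.sub_im, Complex.mul_re,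
    Complex.mul_im, Complex.I_re, Complex.I_im] at h ⊢
  linarith

theorem Sch0_ne {L : ℂ →L[ℝ] ℂ} (h : Function.Injective L) : w1 (L 1) (L Complex.I) ≠ 0 := by
  intro h0
  have k : ∀ s t : ℝ, s • L 1 + t • L Complex.I = 0 → s = 0 := fun s t e => by
    rw [← map_smul, ← map_smul, ← map_add, ← map_zero L] at e
    simpa using congrArg Complex.re (h e)
  have k' : ∀ s t : ℝ, s • L 1 + t • L Complex.I = 0 → t = 0 := fun s t e => by
    rw [← map_smul, ← map_smul, ← map_add, ← map_zero L] at e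
    simpa using congrArg Complex.im (h e)
  unfold w1 at h0
  have h1 := k' (L Complex.I).re (-(L 1).re) (Complex.ext (by simp; ring) (by simp; linarith))
  have h2 := k' (L Complex.I).im (-(L 1).im) (Complex.ext (by simp; linarith) (by simp; ring))
  exact one_ne_zero (k 1 0 (Complex.ext (by simpa using h1) (by simpa using h2)))

theorem sch_mu {l : ℂ → ℂ} {N : ℝ} (hN : 0 < N) (hl : Col l (N + 2))
    (hp : ∀ e ∈ Strip (N + 2), 0 < w1 (px l e) (py l e)) : ∃ μ : ℂ → ℂ, ContDiff ℝ ∞ μ ∧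
      (∃ R : ℝ, ∀ w, R ≤ ‖w‖ → μ w = 0) ∧ (∀ w, ‖μ w‖ < 1) ∧
      ∀ e ∈ Strip N, py l e = jm (μ (l e)) (px l e) := by
  obtain ⟨χ, M, c1, -, c2, c3, c4, -⟩ := bump hN (lt_add_one N)
  have hd : ContDiffOn ℝ ∞ (fderiv ℝ l) (Strip (N + 2)) :=
    hl.sm.fderiv_of_isOpen (isOpen_strip _) (by simp)
  have hx : ContDiffOn ℝ ∞ (px l) (Strip (N + 2)) := hd.clm_apply contDiffOn_const
  have hy : ContDiffOn ℝ ∞ (fun e => Complex.I * py l e) (Strip (N + 2)) :=
    contDiffOn_const.mul (hd.clm_apply contDiffOn_const)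
  have n0 : ∀ e ∈ Strip (N + 2), conj ((px l e - Complex.I * py l e) / 2) ≠ 0 := fun e he =>
    (map_ne_zero _).2 (norm_pos_iff.1 ((norm_nonneg _).trans_lt (Sch0_lt (hp e he))))
  obtain ⟨μ, m1, m2, m3, m4⟩ := push1 hl (show N + 1 < N + 2 by linarith)
    (g := fun e => χ e.re • ((px l e + Complex.I * py l e) / 2 *
      (conj ((px l e - Complex.I * py l e) / 2))⁻¹))
    ((c1.comp Complex.reCLM.contDiff).contDiffOn.smul (((hx.add hy).div_const 2).mul
      ((Complex.conjCLE.contDiff.comp_contDiffOn ((hx.sub hy).div_const 2)).inv n0)))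
    (fun z hz n => by simp [px, py, Sch0_per hl.per z hz n])
    fun z _ h => by rw [c4 _ h, zero_smul]
  refine ⟨μ, m1, m3, fun w => ?_, fun e he => ?_⟩
  · by_cases hw : w ∈ l '' Strip (N + 2)
    · obtain ⟨e, he, rfl⟩ := hw
      have h1 := Sch0_lt (hp e he)
      rw [m2 e he, norm_smul, norm_mul, norm_inv, Complex.norm_conj,
        Real.norm_of_nonneg (c2 _).1, ← div_eq_mul_inv]
      exact (mul_le_of_le_one_left (by positivity) (c2 _).2).trans_lt
        ((div_lt_one ((norm_nonneg _).trans_lt h1)).2 h1)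
    · rw [(m4 w hw).self_of_nhds, norm_zero]
      exact one_pos
  · have he' := strip_mono (show N ≤ N + 2 by linarith) he
    have h1 := jm_lin (Sch0_lt (hp e he'))
    rw [show (px l e - Complex.I * py l e) / 2 + (px l e + Complex.I * py l e) / 2 = px l e by ring]
      at h1
    rw [m2 e he', c3 _ (le_of_lt he), one_smul, ← div_eq_mul_inv, h1]
    linear_combination (py l e) * Complex.I_mul_I

theorem sch_or {l : ℂ → ℂ} {N : ℝ} (hl : Col l N) : ∃ (l' : ℂ → ℂ) (s : ℤ), (s = 1 ∨ s = -1) ∧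
    Col l' N ∧ (∀ e ∈ Strip N, 0 < w1 (px l' e) (py l' e)) ∧
    ∀ θ : ℝ, l' (θ * Complex.I) = l (((s * θ : ℝ) : ℂ) * Complex.I) := by
  have hd := hl.sm.continuousOn_fderiv_of_isOpen (isOpen_strip _) (by simp)
  have hx : ContinuousOn (px l) (Strip N) := hd.clm_apply continuousOn_const
  have hy : ContinuousOn (py l) (Strip N) := hd.clm_apply continuousOn_const
  have hc : ContinuousOn (fun e => w1 (px l e) (py l e)) (Strip N) := by
    unfold w1
    fun_prop
  rcases (convex_strip N).isPreconnected.mapsTo_Ioi_or_Iio hc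
    (fun e he => Sch0_ne (hl.imm e he)) with h | h
  · exact ⟨l, 1, Or.inl rfl, hl, h, fun θ => by simp⟩
  have m : ∀ {e : ℂ}, e ∈ Strip N → conj e ∈ Strip N := fun he => he
  have c : ∀ (e : ℂ) (n : ℤ), conj (e + 2 * π * Complex.I * n) =
      conj e + 2 * π * Complex.I * ((-n : ℤ) : ℂ) := fun e n => by
    simp [map_ofNat]
  have d : ∀ e, fderiv ℝ (fun e => l (conj e)) e =
      (fderiv ℝ l (conj e)).comp (Complex.conjCLE : ℂ →L[ℝ] ℂ) := fun e =>
    Complex.conjCLE.comp_right_fderiv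
  refine ⟨fun e => l (conj e), -1, Or.inr rfl, ⟨hl.sm.comp Complex.conjCLE.contDiff.contDiffOn
    fun _ he => m he, fun z hz n => ?_, fun e he e' he' h' => ?_, fun e he => ?_⟩,
    fun e he => ?_, fun θ => by simp⟩
  · simp only [c, hl.per _ (m hz)]
  · obtain ⟨n, hn⟩ := hl.inj _ (m he) _ (m he') h'
    exact ⟨-n, by rw [← Complex.conj_conj e', hn, c, Complex.conj_conj]⟩
  · rw [d]
    exact (hl.imm _ (m he)).comp Complex.conjCLE.injective
  · have := h (m he)
    simp only [px, py, w1, d, mem_Iio] at this ⊢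
    simp
    linarith

end Pool.Agent.Lib.MP_7ed551_gt.Cy.G
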