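import Pool.Agent.Lib.MP_7ed551_gt.Cy.G.Three
import Pool.Agent.Lib.MP_7ed551_gt.Cy.G.Avg
import Pool.Agent.Lib.MP_7ed551_gt.Cy.G.Bump

/-! Straightening a holomorphic motion. -/

open scoped ContDiff ComplexConjugate Topology
open Set Real Filter Metric

noncomputable section

namespace Pool.Agent.Lib.MP_7ed551_gt.Cy.G

open Pool.Agent.Lib.MP_ccffa6_gt (Form1 dF pb px py JHol dF_apply dF_pb)

theorem Str0_rho {a b : ℝ} (ha : 0 < a) (hab : a < b) : ∃ (ρ : E → ℝ) (M : ℝ), ContDiff ℝ ∞ ρ ∧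
    0 ≤ M ∧ (∀ x, ρ x ∈ Icc (0 : ℝ) 1) ∧ (∀ x : E, b ≤ |x.1.re| ∨ b ≤ |x.2.re| → ρ x = 0) ∧
    (∀ x ∈ Box a, ρ x = 1) ∧
    (∀ (x : E) (m n : ℤ), ρ (x + (2 * π * Complex.I * m, 2 * π * Complex.I * n)) = ρ x) ∧
    ∀ x v, |fderiv ℝ ρ x v| ≤ M * ‖v‖ := by
  obtain ⟨χ, M, c1, c2, c3, c4, c5, c6⟩ := bump ha hab
  have hd := c1.differentiable (by simp)
  refine ⟨fun x => χ x.1.re * χ x.2.re, 2 * M, ?_, by positivity, fun x => ?_, fun x hx => ?_,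
    fun x hx => ?_, fun x m n => by simp, fun x v => ?_⟩
  · exact (c1.comp (Complex.reCLM.contDiff.comp contDiff_fst)).mul
      (c1.comp (Complex.reCLM.contDiff.comp contDiff_snd))
  · exact ⟨mul_nonneg (c3 _).1 (c3 _).1, mul_le_one₀ (c3 _).2 (c3 _).1 (c3 _).2⟩
  · rcases hx with hx | hx <;> simp [c5 _ hx]
  · simp [c4 _ hx.1.le, c4 _ hx.2.le]
  · have d1 := (hd x.1.re).hasDerivAt.comp_hasFDerivAt x
      (Complex.reCLM.hasFDerivAt.comp x (hasFDerivAt_fst (𝕜 := ℝ) (p := x)))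
    have d2 := (hd x.2.re).hasDerivAt.comp_hasFDerivAt x
      (Complex.reCLM.hasFDerivAt.comp x (hasFDerivAt_snd (𝕜 := ℝ) (p := x)))
    have d3 : fderiv ℝ (fun x : E => χ x.1.re * χ x.2.re) x = _ := (d1.mul d2).fderiv
    have e : fderiv ℝ (fun x : E => χ x.1.re * χ x.2.re) x v =
        χ x.1.re * (deriv χ x.2.re * v.2.re) + χ x.2.re * (deriv χ x.1.re * v.1.re) := by
      rw [d3]
      simp
    have k : ∀ s t : ℝ, ∀ w : ℂ, ‖w‖ ≤ ‖v‖ → |χ s * (deriv χ t * w.re)| ≤ M * ‖v‖ := by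
      intro s t w hw
      rw [abs_mul, abs_mul, abs_of_nonneg (c3 s).1]
      exact (mul_le_of_le_one_left (by positivity) (c3 s).2).trans
        (mul_le_mul (c6 t) ((Complex.abs_re_le_norm w).trans hw) (abs_nonneg _) c2)
    rw [e]
    linarith [abs_add_le (χ x.1.re * (deriv χ x.2.re * v.2.re))
      (χ x.2.re * (deriv χ x.1.re * v.1.re)), k x.1.re x.2.re v.2 (norm_snd_le v),
      k x.2.re x.1.re v.1 (norm_fst_le v)]

theorem Str0_key {h : E → ℂ} {δ ε : ℝ} (H : Mot h 55 δ) (hδ : δ ≤ 1) {x : E} (hx : x ∈ Box 4)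
    {ρ : ℝ} (h0 : 0 < ρ) (h1 : ρ ≤ 1 / 2)
    (h3 : ∀ y : ℂ, ‖y‖ ≤ 2 → ‖h (x.1, x.2 + (ρ ^ 2 : ℝ) * y) - h x -
      y * (h (x.1, x.2 + (ρ ^ 2 : ℝ)) - h x)‖ ≤ ε * ‖h (x.1, x.2 + (ρ ^ 2 : ℝ)) - h x‖) :
    ∃ l : ℂ, l ≠ 0 ∧ ‖l‖ * ρ ≤ 2 ∧ ∀ (v : ℂ) (a : ℝ),
      ‖fderiv ℝ (av h) (x, ρ ^ 2) ((0, v), a) - l * v‖ ≤ 4 * (ε * ‖l‖) * (‖v‖ + |a|) := by
  have s0 : 0 < ρ ^ 2 := by positivity
  have s1 : ρ ^ 2 ≤ 1 / 4 := by nlinarith
  have s2 : ((ρ ^ 2 : ℝ) : ℂ) ≠ 0 := Complex.ofReal_ne_zero.2 s0.ne'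
  have hb := H.hold hδ hx h0 h1
  have hn : h (x.1, x.2 + (ρ ^ 2 : ℝ)) - h x ≠ 0 := by
    refine sub_ne_zero.2 (H.ne (strip_mono (by norm_num) hx.1) ?_ (strip_mono (by norm_num) hx.2)
      (by simpa using h0.ne') ?_)
    · have := hx.2
      simp only [Strip, mem_ofPred_eq, Complex.add_re, Complex.ofReal_re]
      linarith [abs_add_le x.2.re (ρ ^ 2), abs_of_pos s0]
    · rw [add_sub_cancel_left, Complex.norm_real, Real.norm_of_nonneg s0.le]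
      linarith
  generalize h (x.1, x.2 + (ρ ^ 2 : ℝ)) - h x = D at h3 hb hn
  have e : ‖D / ((ρ ^ 2 : ℝ) : ℂ)‖ * ρ ^ 2 = ‖D‖ := by
    rw [norm_div, Complex.norm_real, Real.norm_of_nonneg s0.le, div_mul_cancel₀ _ s0.ne']
  refine ⟨D / (ρ ^ 2 : ℝ), div_ne_zero hn s2, ?_, av_de (c := h x)
    (H.sm.mono (box_mono (by norm_num))) hx s0 (by linarith) fun y hy => ?_⟩
  · refine le_of_mul_le_mul_right ?_ h0
    linarith [show ‖D / ((ρ ^ 2 : ℝ) : ℂ)‖ * ρ * ρ = ‖D / ((ρ ^ 2 : ℝ) : ℂ)‖ * ρ ^ 2 by ring]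
  · rw [div_mul_cancel₀ _ s2, mul_assoc, e, mul_comm D]
    exact h3 y hy

theorem Str0_zero {h : E → ℂ} (hs : ContDiffOn ℝ ∞ h (Box 5)) {x : E} (hx : x ∈ Box 4) (v : E) :
    fderiv ℝ (av h) (x, 0) (v, 0) = fderiv ℝ h x v := by
  rw [av_fderiv hs ⟨hx, by norm_num, by norm_num⟩]
  simp only [Complex.ofReal_zero, zero_mul, add_zero, intervalIntegral.integral_const, smul_smul]
  norm_num

/- `G x = av h (x, ρ x ^ 2)`, `ρ x = χ x.1.re * χ x.2.re / 2`, `χ` from `bump 2 3`.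
Where `ρ x = 0` the derivative of `G` is that of `h`.  Where `ρ x > 0`, `σ = ρ x ^ 2`,
`l = (h (x.1, x.2 + σ) - h x) / σ ≠ 0`, `three` and `av_de` with `η = ε ‖l‖`,
`|fderiv σ v| ≤ 2 ρ M ‖v‖`, and `‖l‖ ρ ≤ 2` by `Mot.hold`.  On `Box 2`, `σ = 1 / 4`, `l = 1`,
`c = x.2`, `η = 4 δ`. -/
theorem mollify {κ : ℝ} (hκ : 0 < κ) : ∃ N : ℝ, 55 ≤ N ∧ ∀ (h : E → ℂ) (δ : ℝ), δ ≤ 1 →
    Mot h N δ → ∃ G : E → ℂ, ContDiffOn ℝ ∞ G (Box 4) ∧ Per2 (fun x => G x - x.2) 4 ∧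
      (∀ x ∈ Box 4, 3 ≤ |x.1.re| ∨ 3 ≤ |x.2.re| → G x = h x) ∧ (∀ x ∈ Box 4, ‖G x - x.2‖ ≤ δ) ∧
      (∀ x ∈ Box 4, ∀ v, ‖fderiv ℝ G x (v, 0)‖ ≤ (δ + κ) * ‖v‖) ∧
      (∀ x ∈ Box 4, ∀ v, fderiv ℝ G x (0, v) = 0 → v = 0) ∧
      ∀ x ∈ Box 2, ∀ v, ‖fderiv ℝ G x (0, v) - v‖ ≤ 16 * δ * ‖v‖ := by
  obtain ⟨τ, M, r1, M0, r2, r3, r4, r5, r6⟩ := Str0_rho (a := 2) (b := 3) two_pos (by norm_num)
  obtain ⟨ε, e0, e1, e2⟩ : ∃ ε : ℝ, 0 < ε ∧ 8 * ε * M ≤ κ ∧ 8 * ε * (1 + M) ≤ 1 := by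
    refine ⟨min κ 1 / (8 * (1 + M)), by positivity, ?_, ?_⟩
    · rw [show 8 * (min κ 1 / (8 * (1 + M))) * M = min κ 1 * (M / (1 + M)) by field_simp]
      exact (mul_le_of_le_one_right (by positivity)
        ((div_le_one (by positivity)).2 (by linarith))).trans (min_le_left _ _)
    · rw [show 8 * (min κ 1 / (8 * (1 + M))) * (1 + M) = min κ 1 by field_simp]
      exact min_le_right _ _
  obtain ⟨N, -, h3⟩ := three e0
  refine ⟨max N 55, le_max_right _ _, fun h δ hδ H => ?_⟩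
  replace h3 := h3 h δ (H.mono (le_max_left _ _))
  replace H := H.mono (le_max_right N 55)
  have hs : ContDiffOn ℝ ∞ h (Box 5) := H.sm.mono (box_mono (by norm_num))
  have t0 : ∀ x, 0 ≤ τ x / 2 := fun x => by linarith [(r2 x).1]
  have t1 : ∀ x, τ x / 2 ≤ 1 / 2 := fun x => by linarith [(r2 x).2]
  have t2 : ∀ x, (τ x / 2) ^ 2 ∈ Ioo (-(1 / 2) : ℝ) (1 / 2) := fun x =>
    ⟨by nlinarith [sq_nonneg (τ x / 2)], by nlinarith [t0 x, t1 x]⟩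
  have hW : IsOpen (Box 4 ×ˢ Ioo (-(1 / 2) : ℝ) (1 / 2)) := (isOpen_box 4).prod isOpen_Ioo
  have sm : ContDiff ℝ ∞ fun x : E => (x, (τ x / 2) ^ 2) :=
    contDiff_id.prodMk ((r1.div_const 2).pow 2)
  have dG : ∀ x ∈ Box 4, ∀ v, fderiv ℝ (fun x => av h (x, (τ x / 2) ^ 2)) x v =
      fderiv ℝ (av h) (x, (τ x / 2) ^ 2) (v, τ x / 2 * fderiv ℝ τ x v) := by
    intro x hx v
    have d1 := (((av_sm hs).contDiffAt (hW.mem_nhds (x := (x, (τ x / 2) ^ 2))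
      ⟨hx, t2 x⟩)).differentiableAt (by simp)).hasFDerivAt
    have d2 := (r1.differentiable (by simp) x).hasFDerivAt
    have d4 : HasFDerivAt (fun x => (τ x / 2) ^ 2) ((τ x / 2) • fderiv ℝ τ x) x := by
      refine ((d2.mul_const (2⁻¹ : ℝ)).pow 2).congr_fderiv ?_
      rw [smul_smul]
      congr 1
      simp
      ring
    have d3 : fderiv ℝ (fun x => av h (x, (τ x / 2) ^ 2)) x = _ :=
      (HasFDerivAt.comp (f := fun x : E => (x, (τ x / 2) ^ 2)) x d1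
        ((hasFDerivAt_id x).prodMk d4)).fderiv
    rw [d3]
    rfl
  have da : ∀ x v, |τ x / 2 * fderiv ℝ τ x v| ≤ τ x / 2 * (M * ‖v‖) := fun x v => by
    rw [abs_mul, abs_of_nonneg (t0 x)]
    exact mul_le_mul_of_nonneg_left (r6 x v) (t0 x)
  have key := fun x (hx : x ∈ Box 4) (h0 : 0 < τ x / 2) => Str0_key H hδ hx h0 (t1 x)
    (h3 x hx _ (by positivity) (by nlinarith [t1 x]))
  refine ⟨fun x => av h (x, (τ x / 2) ^ 2), (av_sm hs).comp sm.contDiffOn fun x hx => ⟨hx, t2 x⟩,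
    fun x hx m n => ?_, fun x hx ho => ?_, fun x hx => ?_, fun x hx v => ?_, fun x hx v hv => ?_,
    fun x hx v => ?_⟩
  · have a1 := av_sub hs (p := (x, (τ x / 2) ^ 2)) ⟨hx, t2 x⟩
    have a2 := av_sub hs (p := (x + (2 * π * Complex.I * m, 2 * π * Complex.I * n),
      (τ x / 2) ^ 2)) ⟨(add_mem_box m n).2 hx, t2 x⟩
    simp only [r5]
    exact a2.trans ((av_per (H.per.mono (by norm_num)) (t2 x) hx m n).trans a1.symm)
  · simp only [r3 x ho, zero_div, ne_eq, OfNat.ofNat_ne_zero, not_false_eq_true, zero_pow, av_zero]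
  · rw [av_sub hs (p := (x, (τ x / 2) ^ 2)) ⟨hx, t2 x⟩]
    exact av_le (fun y hy => H.small y (box_mono (by norm_num) hy)) ⟨hx, t2 x⟩
  · have a1 := av_dZ hs (p := (x, (τ x / 2) ^ 2)) ⟨hx, t2 x⟩
      fun y hy => (H.mono (by norm_num)).slope hy v
    have a2 : ‖fderiv ℝ (av h) (x, (τ x / 2) ^ 2) ((0, 0), τ x / 2 * fderiv ℝ τ x (v, 0))‖ ≤
        κ * ‖v‖ := by
      rcases (t0 x).eq_or_lt with h0 | h0
      · rw [← h0, zero_mul, show ((((0 : ℂ), (0 : ℂ)), (0 : ℝ)) : E × ℝ) = 0 from rfl, map_zero,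
          norm_zero]
        positivity
      · obtain ⟨l, -, l1, l2⟩ := key x hx h0
        have b1 := l2 0 (τ x / 2 * fderiv ℝ τ x (v, 0))
        have b2 := da x (v, 0)
        rw [mul_zero, sub_zero, norm_zero, zero_add] at b1
        rw [show ‖((v, 0) : E)‖ = ‖v‖ by simp] at b2
        refine b1.trans ((mul_le_mul_of_nonneg_left b2 (by positivity)).trans ?_)
        calc 4 * (ε * ‖l‖) * (τ x / 2 * (M * ‖v‖)) = ‖l‖ * (τ x / 2) * (4 * ε * M * ‖v‖) := by ring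
          _ ≤ 2 * (4 * ε * M * ‖v‖) := mul_le_mul_of_nonneg_right l1 (by positivity)
          _ = 8 * ε * M * ‖v‖ := by ring
          _ ≤ κ * ‖v‖ := mul_le_mul_of_nonneg_right e1 (norm_nonneg _)
    rw [dG x hx, show (((v, 0), τ x / 2 * fderiv ℝ τ x (v, 0)) : E × ℝ) =
      ((v, 0), 0) + ((0, 0), τ x / 2 * fderiv ℝ τ x (v, 0)) by simp, map_add]
    linarith [norm_add_le (fderiv ℝ (av h) (x, (τ x / 2) ^ 2) ((v, 0), 0))
      (fderiv ℝ (av h) (x, (τ x / 2) ^ 2) ((0, 0), τ x / 2 * fderiv ℝ τ x (v, 0)))]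
  · rw [dG x hx] at hv
    rcases (t0 x).eq_or_lt with h0 | h0
    · rw [← h0, zero_mul, zero_pow two_ne_zero, Str0_zero hs hx] at hv
      exact H.imm x (box_mono (by norm_num) hx) v hv
    · obtain ⟨l, l0, -, l2⟩ := key x hx h0
      have b1 := l2 v (τ x / 2 * fderiv ℝ τ x (0, v))
      have b2 := da x (0, v)
      rw [hv, zero_sub, norm_neg, norm_mul] at b1
      rw [show ‖((0, v) : E)‖ = ‖v‖ by simp] at b2
      have b3 : |τ x / 2 * fderiv ℝ τ x (0, v)| ≤ M * ‖v‖ :=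
        b2.trans (mul_le_of_le_one_left (by positivity) (by linarith [t1 x]))
      have b4 : 4 * (ε * ‖l‖) * (‖v‖ + |τ x / 2 * fderiv ℝ τ x (0, v)|) ≤
          8 * ε * (1 + M) * (‖l‖ * ‖v‖ / 2) :=
        (mul_le_mul_of_nonneg_left (add_le_add_right b3 _) (by positivity)).trans_eq (by ring)
      have b5 := mul_le_of_le_one_left (a := 8 * ε * (1 + M)) (b := ‖l‖ * ‖v‖ / 2)
        (by positivity) e2
      have b6 : ‖l‖ * ‖v‖ ≤ 0 := by linarith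
      exact norm_le_zero_iff.1 (nonpos_of_mul_nonpos_right b6 (norm_pos_iff.2 l0))
  · have hx4 : x ∈ Box 4 := box_mono (by norm_num) hx
    have a1 : fderiv ℝ τ x = 0 := by
      have : τ =ᶠ[𝓝 x] fun _ => 1 := eventually_of_mem ((isOpen_box 2).mem_nhds hx) r4
      rw [this.fderiv_eq]
      simp
    have a2 := av_de hs hx4 (σ := (1 / 2) ^ 2) (η := 4 * δ) (c := x.2) (l := 1) (by norm_num)
      (by norm_num) (fun y hy => ?_) v 0
    · rw [dG x hx4, a1, r4 x hx]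
      simp only [zero_apply, mul_zero]
      rw [one_mul, abs_zero, add_zero] at a2
      linarith
    · have b1 : ‖(((1 / 2 : ℝ) ^ 2 : ℝ) : ℂ) * y‖ ≤ 1 := by
        rw [norm_mul, Complex.norm_real, Real.norm_of_nonneg (by positivity)]
        linarith
      have b2 := H.small (x.1, x.2 + ((1 / 2 : ℝ) ^ 2 : ℝ) * y) ⟨by linarith [hx.1], by
        linarith [hx.2, abs_add_le x.2.re ((((1 / 2 : ℝ) ^ 2 : ℝ) : ℂ) * y).re,
          Complex.abs_re_le_norm ((((1 / 2 : ℝ) ^ 2 : ℝ) : ℂ) * y),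
          show |(x.2 + (((1 / 2 : ℝ) ^ 2 : ℝ) : ℂ) * y).re| =
            |x.2.re + ((((1 / 2 : ℝ) ^ 2 : ℝ) : ℂ) * y).re| from rfl]⟩
      rw [one_mul, sub_sub]
      linarith

end Pool.Agent.Lib.MP_7ed551_gt.Cy.G
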