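import Pool.Agent.Lib.MP_7ed551_gt.Cy.G.Three0

/-! Estimates for holomorphic motions. -/

open scoped ContDiff ComplexConjugate Topology
open Set Real Filter Metric

noncomputable section

namespace Pool.Agent.Lib.MP_7ed551_gt.Cy.G

open Pool.Agent.Lib.MP_ccffa6_gt (Form1 dF pb px py JHol dF_apply dF_pb)

/- `D Z = h (Z, e + σ) - h (Z, e)` has no zero on `ball 0 55`, `‖D‖ ≤ 3`, `D 0 = σ`.
`D / σ = exp L` (`Hq.exists_log`), `L 0 = 0`, `re L ≤ M = log (3 / σ)`;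
`Complex.borelCaratheodory_zero` gives `‖L Z‖ ≤ M / 2` for `‖Z‖ ≤ 11`. -/
theorem Mot.hold {h : E → ℂ} {δ : ℝ} (H : Mot h 55 δ) (hδ : δ ≤ 1) {x : E} (hx : x ∈ Box 4)
    {ρ : ℝ} (h0 : 0 < ρ) (h1 : ρ ≤ 1 / 2) : ‖h (x.1, x.2 + (ρ ^ 2 : ℝ)) - h x‖ ≤ 2 * ρ := by
  have s0 : 0 < ρ ^ 2 := by positivity
  have s1 : ρ ^ 2 ≤ 1 / 4 := by nlinarith
  have s2 : ((ρ ^ 2 : ℝ) : ℂ) ≠ 0 := Complex.ofReal_ne_zero.2 s0.ne'
  have s3 : ‖((ρ ^ 2 : ℝ) : ℂ)‖ = ρ ^ 2 := by rw [Complex.norm_real, Real.norm_of_nonneg s0.le]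
  have m1 : x.2 ∈ Strip 55 := strip_mono (by norm_num) hx.2
  have m2 : x.2 + (ρ ^ 2 : ℝ) ∈ Strip 55 := by
    have := hx.2
    simp only [Strip, mem_ofPred_eq, Complex.add_re, Complex.ofReal_re]
    linarith [abs_add_le x.2.re (ρ ^ 2), abs_of_pos s0]
  have hb : ball (0 : ℂ) 55 ⊆ Strip 55 := fun z hz =>
    (Complex.abs_re_le_norm z).trans_lt (mem_ball_zero_iff.1 hz)
  obtain ⟨L, l1, l2, l3⟩ := Pool.Agent.Lib.MP_7b5e47_an.Hq.exists_log (c := 0) (r := 55)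
    (u := fun Z => (h (Z, x.2 + (ρ ^ 2 : ℝ)) - h (Z, x.2)) / (ρ ^ 2 : ℝ))
    ((((H.hol _ m2).sub (H.hol _ m1)).mono hb).div_const _) fun z hz =>
      div_ne_zero (sub_ne_zero.2 (H.ne (hb hz) m2 m1 (by simpa using h0.ne')
        (by rw [add_sub_cancel_left, s3]; linarith))) s2
  have l0 : L 0 = 0 := by
    rw [l3 (by norm_num), H.zero _ m1, H.zero _ m2, add_sub_cancel_left, div_self s2,
      Complex.log_one]
  have hM : 0 < Real.log (4 / ρ ^ 2) := Real.log_pos ((one_lt_div s0).2 (by linarith))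
  have l4 : MapsTo L (ball 0 55) {z | z.re ≤ Real.log (4 / ρ ^ 2)} := fun z hz => by
    refine (Real.le_log_iff_exp_le (by positivity)).2 ?_
    rw [← Complex.norm_exp, l2 z hz, norm_div, s3]
    refine div_le_div_of_nonneg_right ?_ s0.le
    have a1 := H.small (z, _) ⟨hb hz, m1⟩
    have a2 := H.small (z, _) ⟨hb hz, m2⟩
    have a3 := norm_add_le (h (z, x.2 + (ρ ^ 2 : ℝ)) - (x.2 + (ρ ^ 2 : ℝ)) - (h (z, x.2) - x.2))
      ((ρ ^ 2 : ℝ) : ℂ)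
    rw [show h (z, x.2 + (ρ ^ 2 : ℝ)) - (x.2 + (ρ ^ 2 : ℝ)) - (h (z, x.2) - x.2) + (ρ ^ 2 : ℝ) =
      h (z, x.2 + (ρ ^ 2 : ℝ)) - h (z, x.2) by ring, s3] at a3
    linarith [norm_sub_le (h (z, x.2 + (ρ ^ 2 : ℝ)) - (x.2 + (ρ ^ 2 : ℝ))) (h (z, x.2) - x.2)]
  obtain ⟨n, hn⟩ := exists_red x.1
  have z1 : ‖x.1 + 2 * π * Complex.I * n‖ ≤ 11 := by
    have a1 := Complex.norm_le_abs_re_add_abs_im (x.1 + 2 * π * Complex.I * n)
    have a2 : |(x.1 + 2 * π * Complex.I * n).re| < 4 := (add_mem_strip n).2 hx.1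
    linarith [abs_of_nonneg hn.1, hn.2, Real.pi_lt_d2]
  have pe : ∀ e ∈ Strip 55, h (x.1 + 2 * π * Complex.I * n, e) = h (x.1, e) := fun e he => by
    simpa using H.per (x.1, e) ⟨strip_mono (by norm_num) hx.1, he⟩ n 0
  have z2 : x.1 + 2 * π * Complex.I * n ∈ ball (0 : ℂ) 55 := mem_ball_zero_iff.2 (by linarith)
  have b1 := Complex.borelCaratheodory_zero hM l1 l4 (by norm_num) z2 l0
  have b2 := l2 _ z2
  rw [pe _ m1, pe _ m2] at b2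
  generalize x.1 + 2 * π * Complex.I * n = z at z1 b1 b2
  have b3 : (L z).re ≤ Real.log (4 / ρ ^ 2) / 2 := by
    refine (Complex.re_le_norm _).trans (b1.trans ?_)
    rw [div_le_iff₀ (by linarith)]
    nlinarith
  have b4 : Real.log (4 / ρ ^ 2) / 2 = Real.log (2 / ρ) := by
    rw [show 4 / ρ ^ 2 = (2 / ρ) ^ 2 by ring, Real.log_pow]
    push_cast
    ring
  have b5 := (Real.le_log_iff_exp_le (by positivity)).1 (b3.trans_eq b4)
  rw [← Complex.norm_exp, b2, norm_div, s3, div_le_iff₀ s0] at b5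
  exact b5.trans_eq (by field_simp)

end Pool.Agent.Lib.MP_7ed551_gt.Cy.G
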