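import Pool.Agent.Lib.MP_7ed551_gt.Cy.G.Push
import Pool.Agent.Lib.MP_7b5e47_an.Hq.TSch

/-! Estimates for holomorphic motions. -/

open scoped ContDiff ComplexConjugate Topology
open Set Real Filter Metric

noncomputable section

namespace Pool.Agent.Lib.MP_7ed551_gt.Cy.G

open Pool.Agent.Lib.MP_ccffa6_gt (Form1 dF pb px py JHol dF_apply dF_pb)

/- Cauchy estimate for `Z ↦ h (Z, e) - e` on a disc of radius one. -/
theorem Mot.slope {h : E → ℂ} {δ : ℝ} (H : Mot h 7 δ) {x : E} (hx : x ∈ Box 5) (v : ℂ) :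
    ‖fderiv ℝ h x (v, 0)‖ ≤ δ * ‖v‖ := by
  have h7 : x ∈ Box 7 := box_mono (by norm_num) hx
  have hs : closedBall x.1 1 ⊆ Strip 7 := fun z hz => by
    have h1 := (Complex.abs_re_le_norm _).trans (mem_closedBall_iff_norm.1 hz)
    have h2 : |x.1.re| < 5 := hx.1
    rw [Complex.sub_re] at h1
    exact (by linarith [abs_sub_abs_le_abs_sub z.re x.1.re] : |z.re| < 7)
  have hd := (H.hol x.2 h7.2).sub_const x.2
  have h1 := Complex.norm_deriv_le_of_forall_mem_sphere_norm_le one_pos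
    ((hd.mono ((closure_ball _ one_ne_zero).le.trans hs)).diffContOnCl) (C := δ)
    fun z hz => H.small (z, x.2) ⟨hs (sphere_subset_closedBall hz), h7.2⟩
  have h2 := (hd.differentiableAt ((isOpen_strip 7).mem_nhds h7.1)).hasDerivAt.hasFDerivAt
  have h3 := (HasFDerivAt.comp (f := fun Z => (Z, x.2)) x.1 ((H.sm.contDiffAt
    ((isOpen_box 7).mem_nhds h7)).differentiableAt (by simp)).hasFDerivAt
    (hasFDerivAt_prodMk_left x.1 x.2)).sub_const x.2
  have h4 : fderiv ℝ h x (v, 0) = v • deriv (fun Z => h (Z, x.2) - x.2) x.1 :=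
    DFunLike.congr_fun (h3.unique (h2.restrictScalars ℝ)) v
  rw [h4, norm_smul, mul_comm]
  exact mul_le_mul_of_nonneg_right (by simpa using h1) (norm_nonneg v)

theorem Mot.ne {h : E → ℂ} {N δ : ℝ} (H : Mot h N δ) {Z e e' : ℂ} (hZ : Z ∈ Strip N)
    (he : e ∈ Strip N) (he' : e' ∈ Strip N) (h0 : e ≠ e') (h1 : ‖e - e'‖ ≤ 6) :
    h (Z, e) ≠ h (Z, e') := by
  intro h2
  obtain ⟨n, rfl⟩ := H.inj Z hZ e he e' he' h2
  have h3 : (1 : ℝ) ≤ |(n : ℝ)| := by
    exact_mod_cast Int.one_le_abs fun h => h0 (by simp [h])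
  simp only [sub_add_cancel_left, norm_neg, norm_mul, Complex.norm_ofNat, Complex.norm_real,
    Complex.norm_I, Complex.norm_intCast, Real.norm_of_nonneg pi_pos.le] at h1
  nlinarith [pi_gt_three]

/- `ρ t = (h (11 t, e + σ y) - h (11 t, e)) / (h (11 t, e + σ) - h (11 t, e))` omits `0` and `1` if
`y ≠ 0, 1`, and `ρ 0 = y`: `Hq.aml ε 2`, `N = 11 R`.  Reduce `im Z` with `exists_red`. -/
theorem three {ε : ℝ} (hε : 0 < ε) : ∃ N : ℝ, 7 ≤ N ∧ ∀ (h : E → ℂ) (δ : ℝ), Mot h N δ →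
    ∀ x ∈ Box 4, ∀ σ : ℝ, 0 < σ → σ ≤ 1 / 4 → ∀ y : ℂ, ‖y‖ ≤ 2 →
      ‖h (x.1, x.2 + σ * y) - h x - y * (h (x.1, x.2 + σ) - h x)‖ ≤
        ε * ‖h (x.1, x.2 + σ) - h x‖ := by
  obtain ⟨R, hR, hA⟩ := Pool.Agent.Lib.MP_7b5e47_an.Hq.aml hε 2
  refine ⟨11 * R, by linarith, fun h δ H x hx σ h0 h1 y hy => ?_⟩
  obtain ⟨Z, e⟩ := x
  by_cases y0 : y = 0
  · simpa [y0] using mul_nonneg hε.le (norm_nonneg _)
  by_cases y1 : y = 1
  · simpa [y1] using mul_nonneg hε.le (norm_nonneg _)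
  have hσ : (σ : ℂ) ≠ 0 := Complex.ofReal_ne_zero.2 h0.ne'
  have hn : ∀ u : ℂ, ‖u‖ ≤ 3 → ‖σ * u‖ ≤ 1 := fun u hu => by
    rw [norm_mul, Complex.norm_real, Real.norm_of_nonneg h0.le]
    nlinarith [norm_nonneg u]
  have hm : ∀ u : ℂ, ‖u‖ ≤ 3 → e + σ * u ∈ Strip (11 * R) := fun u hu => by
    have h2 := (Complex.abs_re_le_norm _).trans (hn u hu)
    have h3 : |e.re| < 4 := hx.2
    exact (by rw [Complex.add_re]; linarith [abs_add_le e.re (σ * u).re] :
      |(e + σ * u).re| < 11 * R)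
  have hne : ∀ W ∈ Strip (11 * R), ∀ u v : ℂ, ‖u‖ ≤ 3 → ‖v‖ ≤ 3 → u ≠ v →
      h (W, e + σ * u) ≠ h (W, e + σ * v) := fun W hW u v hu hv huv =>
    H.ne hW (hm u hu) (hm v hv) (by simpa [hσ] using huv) (by
      rw [add_sub_add_left_eq_sub]
      linarith [norm_sub_le (σ * u) (σ * v), hn u hu, hn v hv])
  have m0 := hm 0 (by simp)
  have m1 := hm 1 (by simp)
  have my := hm y (by linarith)
  have n10 := fun W hW => sub_ne_zero.2 (hne W hW 1 0 (by simp) (by simp) one_ne_zero)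
  have ny0 := fun W hW => sub_ne_zero.2 (hne W hW y 0 (by linarith) (by simp) y0)
  have ny1 := fun W hW => hne W hW y 1 (by linarith) (by simp) y1
  simp only [mul_zero, add_zero, mul_one] at m0 m1 n10 ny0 ny1
  have hb : MapsTo (fun t : ℂ => 11 * t) (ball 0 R) (Strip (11 * R)) := fun t ht =>
    (Complex.abs_re_le_norm _).trans_lt (by
      rw [norm_mul, Complex.norm_ofNat]
      linarith [mem_ball_zero_iff.1 ht])
  have hd : ∀ u ∈ Strip (11 * R), DifferentiableOn ℂ (fun t : ℂ => h (11 * t, u)) (ball 0 R) :=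
    fun u hu => (H.hol u hu).comp (by fun_prop) hb
  obtain ⟨n, hn⟩ := exists_red Z
  have hZ : Z ∈ Strip (11 * R) := strip_mono (by linarith) hx.1
  have hp : ∀ u ∈ Strip (11 * R), h (11 * ((Z + 2 * π * Complex.I * n) / 11), u) = h (Z, u) :=
    fun u hu => by
      rw [mul_div_cancel₀ _ (by norm_num)]
      simpa using H.per (Z, u) ⟨hZ, hu⟩ n 0
  have e0 : (h (11 * 0, e + σ * y) - h (11 * 0, e)) / (h (11 * 0, e + σ) - h (11 * 0, e)) = y := by
    rw [mul_zero, H.zero _ my, H.zero _ m0, H.zero _ m1, add_sub_cancel_left, add_sub_cancel_left,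
      mul_div_cancel_left₀ _ hσ]
  have h2 := hA (fun t => (h (11 * t, e + σ * y) - h (11 * t, e)) /
    (h (11 * t, e + σ) - h (11 * t, e))) 0
    (((hd _ my).sub (hd _ m0)).div ((hd _ m1).sub (hd _ m0)) fun t ht => n10 _ (hb ht))
    (fun t ht => ⟨div_ne_zero (ny0 _ (hb ht)) (n10 _ (hb ht)), fun e =>
      ny1 _ (hb ht) (sub_left_inj.1 ((div_eq_one_iff_eq (n10 _ (hb ht))).1 e))⟩)
    (e0.symm ▸ hy) ((Z + 2 * π * Complex.I * n) / 11) (by
      have h2 := Complex.norm_le_abs_re_add_abs_im (Z + 2 * π * Complex.I * n)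
      have h3 : |(Z + 2 * π * Complex.I * n).re| < 4 := (add_mem_strip n).2 hx.1
      rw [abs_of_nonneg hn.1] at h2
      rw [sub_zero, norm_div, Complex.norm_ofNat, div_le_one (by norm_num)]
      linarith [hn.2, pi_lt_d2])
  simp only [e0, hp _ my, hp _ m0, hp _ m1] at h2
  rwa [div_sub' (n10 Z hZ), norm_div, div_le_iff₀ (norm_pos_iff.2 (n10 Z hZ)), mul_comm (_ - _) y]
    at h2

end Pool.Agent.Lib.MP_7ed551_gt.Cy.G
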